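import Mathlib

/-! Lower asymptotic density, sumsets with the primes and the function `f*`. -/

set_option autoImplicit false

namespace Pool.Agent.TH881
open Finset Filter Topology

open Classical in
/-- the number of elements of `A` in `[1, n]` -/
noncomputable def cnt (A : Set ℕ) (n : ℕ) : ℕ := ((Finset.Icc 1 n).filter (fun a => a ∈ A)).card

/-- lower asymptotic density -/
noncomputable def lowerDensity (A : Set ℕ) : ℝ := liminf (fun n : ℕ => (cnt A n : ℝ) / n) atTop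

/-- the sumset `A + P`, `P` the set of primes -/
def plusPrimes (A : Set ℕ) : Set ℕ := {n | ∃ a ∈ A, ∃ p : ℕ, p.Prime ∧ a + p = n}

/-- `f*(x)`: the infimum of the lower density of `A + P` over the sets `A` of positive integers of
lower density `x` -/
noncomputable def fstar (x : ℝ) : ℝ :=
  sInf {d | ∃ A : Set ℕ, (∀ a ∈ A, 1 ≤ a) ∧ lowerDensity A = x ∧ d = lowerDensity (plusPrimes A)}

lemma cnt_le (A : Set ℕ) (n : ℕ) : cnt A n ≤ n := by
  classical
  unfold cnt
  refine (card_le_card (filter_subset _ _)).trans ?_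
  rw [Nat.card_Icc]
  omega

lemma cnt_full {A : Set ℕ} (h : ∀ a, 1 ≤ a → a ∈ A) {n : ℕ} : cnt A n = n := by
  classical
  unfold cnt
  rw [filter_true_of_mem, Nat.card_Icc]
  · omega
  · intro a ha
    exact h a (mem_Icc.1 ha).1

lemma cnt_mono (A : Set ℕ) {m n : ℕ} (h : m ≤ n) : cnt A m ≤ cnt A n := by
  classical
  unfold cnt
  apply card_le_card
  intro a ha
  rw [mem_filter, mem_Icc] at ha ⊢
  exact ⟨⟨ha.1.1, ha.1.2.trans h⟩, ha.2⟩

lemma cnt_subset {A B : Set ℕ} (h : A ⊆ B) (n : ℕ) : cnt A n ≤ cnt B n := by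
  classical
  unfold cnt
  apply card_le_card
  intro a ha
  rw [mem_filter] at ha ⊢
  exact ⟨ha.1, h ha.2⟩

lemma ratio_nonneg (A : Set ℕ) (n : ℕ) : 0 ≤ (cnt A n : ℝ) / n := by positivity

lemma ratio_le_one (A : Set ℕ) (n : ℕ) : (cnt A n : ℝ) / n ≤ 1 := by
  rcases Nat.eq_zero_or_pos n with h | h
  · rw [h]; simp
  · rw [div_le_one (by exact_mod_cast h)]
    exact_mod_cast cnt_le A n

lemma ratio_bdd_below (A : Set ℕ) : IsBoundedUnder (· ≥ ·) atTop (fun n : ℕ => (cnt A n : ℝ) / n) :=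
  isBoundedUnder_of ⟨0, ratio_nonneg A⟩

lemma ratio_bdd_above (A : Set ℕ) : IsBoundedUnder (· ≤ ·) atTop (fun n : ℕ => (cnt A n : ℝ) / n) :=
  isBoundedUnder_of ⟨1, ratio_le_one A⟩

lemma ratio_cobdd (A : Set ℕ) : IsCoboundedUnder (· ≥ ·) atTop (fun n : ℕ => (cnt A n : ℝ) / n) :=
  (ratio_bdd_above A).isCoboundedUnder_ge

lemma lowerDensity_nonneg (A : Set ℕ) : 0 ≤ lowerDensity A :=
  le_liminf_of_le (ratio_cobdd A) (Eventually.of_forall (ratio_nonneg A))

lemma lowerDensity_le_one (A : Set ℕ) : lowerDensity A ≤ 1 := by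
  apply liminf_le_of_frequently_le
  · exact (Eventually.of_forall (ratio_le_one A)).frequently
  · exact ratio_bdd_below A

lemma lowerDensity_mono {A B : Set ℕ} (h : A ⊆ B) : lowerDensity A ≤ lowerDensity B := by
  apply liminf_le_liminf _ (ratio_bdd_below A) (ratio_cobdd B)
  apply Eventually.of_forall
  intro n
  apply div_le_div_of_nonneg_right _ (Nat.cast_nonneg n)
  exact_mod_cast cnt_subset h n

lemma eventually_of_lt {A : Set ℕ} {c : ℝ} (h : c < lowerDensity A) :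
    ∀ᶠ n : ℕ in atTop, c * n ≤ cnt A n := by
  have h1 := eventually_lt_of_lt_liminf h (ratio_bdd_below A)
  filter_upwards [h1, eventually_ge_atTop 1] with n h2 h3
  have h4 : (0 : ℝ) < n := by exact_mod_cast h3
  rw [lt_div_iff₀ h4] at h2
  exact h2.le

lemma le_of_eventually {A : Set ℕ} {c : ℝ} (h : ∀ᶠ n : ℕ in atTop, c * n ≤ cnt A n) :
    c ≤ lowerDensity A := by
  apply le_liminf_of_le (ratio_cobdd A)
  filter_upwards [h, eventually_ge_atTop 1] with n h2 h3
  have h4 : (0 : ℝ) < n := by exact_mod_cast h3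
  rw [le_div_iff₀ h4]
  exact h2

lemma frequently_of_lt {A : Set ℕ} {c : ℝ} (h : lowerDensity A < c) :
    ∃ᶠ n : ℕ in atTop, (cnt A n : ℝ) ≤ c * n := by
  have h1 := frequently_lt_of_liminf_lt (ratio_cobdd A) h
  have h2 := h1.and_eventually (eventually_ge_atTop 1)
  refine h2.mono ?_
  rintro n ⟨h3, h4⟩
  have h5 : (0 : ℝ) < n := by exact_mod_cast h4
  rw [div_lt_iff₀ h5] at h3
  exact h3.le

/-- a set with a natural density -/
lemma lowerDensity_of_bounds {A : Set ℕ} {d K : ℝ} (h : ∀ n : ℕ, |(cnt A n : ℝ) - d * n| ≤ K) :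
    lowerDensity A = d := by
  have hlim : Tendsto (fun n : ℕ => (cnt A n : ℝ) / n) atTop (𝓝 d) := by
    rw [tendsto_iff_norm_sub_tendsto_zero]
    have h1 : Tendsto (fun n : ℕ => K / (n : ℝ)) atTop (𝓝 0) :=
      tendsto_const_div_atTop_nhds_zero_nat K
    apply squeeze_zero' (Eventually.of_forall fun n => norm_nonneg _) _ h1
    filter_upwards [eventually_ge_atTop 1] with n hn
    have h5 : (0 : ℝ) < n := by exact_mod_cast hn
    have h6 : (cnt A n : ℝ) / n - d = (cnt A n - d * n) / n := by field_simp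
    rw [h6, norm_div, Real.norm_eq_abs, Real.norm_of_nonneg h5.le]
    exact div_le_div_of_nonneg_right (h n) h5.le
  exact hlim.liminf_eq

/-- a subset of prescribed density -/
lemma exists_subset (A : Set ℕ) (hA : ∀ a ∈ A, 1 ≤ a) (d K : ℝ) (hd : 0 < d)
    (h : ∀ n : ℕ, |(cnt A n : ℝ) - d * n| ≤ K) (x : ℝ) (hx0 : 0 ≤ x) (hxd : x ≤ d) :
    ∃ B : Set ℕ, B ⊆ A ∧ (∀ a ∈ B, 1 ≤ a) ∧ lowerDensity B = x := by
  classical
  obtain ⟨θ, hθ⟩ : ∃ θ : ℝ, θ = x / d := ⟨_, rfl⟩
  have hθ0 : 0 ≤ θ := by rw [hθ]; positivity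
  have hθ1 : θ ≤ 1 := by rw [hθ, div_le_one hd]; exact hxd
  let B : Set ℕ := {n | n ∈ A ∧ ⌊θ * (cnt A (n - 1) : ℝ)⌋₊ < ⌊θ * (cnt A n : ℝ)⌋₊}
  have hsucc : ∀ (S : Set ℕ) (n : ℕ), cnt S (n + 1) = cnt S n + if n + 1 ∈ S then 1 else 0 := by
    intro S n
    unfold cnt
    have h1 : Icc 1 (n + 1) = insert (n + 1) (Icc 1 n) := by
      ext a
      rw [mem_insert, mem_Icc, mem_Icc]
      omega
    rw [h1, filter_insert]
    split_ifs with h2
    · rw [card_insert_of_notMem]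
      rw [mem_filter, mem_Icc]
      omega
    · rfl
  have hcount : ∀ n : ℕ, cnt B n = ⌊θ * (cnt A n : ℝ)⌋₊ := by
    intro n
    induction n with
    | zero =>
      have h1 : cnt A 0 = 0 := by have := cnt_le A 0; omega
      have h2 : cnt B 0 = 0 := by have := cnt_le B 0; omega
      rw [h1, h2]
      simp
    | succ n ih =>
      rw [hsucc B n, ih]
      by_cases h1 : n + 1 ∈ A
      · have h2 : cnt A (n + 1) = cnt A n + 1 := by rw [hsucc A n, if_pos h1]
        by_cases h3 : n + 1 ∈ B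
        · rw [if_pos h3]
          have h4 : ⌊θ * (cnt A n : ℝ)⌋₊ < ⌊θ * (cnt A (n + 1) : ℝ)⌋₊ := by
            have := h3.2
            rwa [Nat.add_sub_cancel] at this
          have h5 : ⌊θ * (cnt A (n + 1) : ℝ)⌋₊ ≤ ⌊θ * (cnt A n : ℝ)⌋₊ + 1 := by
            rw [h2, ← Nat.floor_add_one (by positivity)]
            apply Nat.floor_le_floor
            push_cast
            linarith
          omega
        · rw [if_neg h3]
          have h4 : ¬ ⌊θ * (cnt A n : ℝ)⌋₊ < ⌊θ * (cnt A (n + 1) : ℝ)⌋₊ := by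
            intro h5
            apply h3
            refine ⟨h1, ?_⟩
            rwa [Nat.add_sub_cancel]
          have h5 : ⌊θ * (cnt A n : ℝ)⌋₊ ≤ ⌊θ * (cnt A (n + 1) : ℝ)⌋₊ := by
            apply Nat.floor_le_floor
            apply mul_le_mul_of_nonneg_left _ hθ0
            exact_mod_cast cnt_mono A (by omega)
          omega
      · have h2 : cnt A (n + 1) = cnt A n := by rw [hsucc A n, if_neg h1, add_zero]
        have h3 : n + 1 ∉ B := fun h3 => h1 h3.1
        rw [if_neg h3, h2, add_zero]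
  refine ⟨B, fun n hn => hn.1, fun a ha => hA a ha.1, ?_⟩
  apply lowerDensity_of_bounds (K := K + 1)
  intro n
  rw [hcount n]
  have h1 := Nat.floor_le (show 0 ≤ θ * (cnt A n : ℝ) by positivity)
  have h2 := Nat.lt_floor_add_one (θ * (cnt A n : ℝ))
  have h3 := h n
  have h4 : x = θ * d := by rw [hθ]; field_simp
  have h5 : |θ * (cnt A n : ℝ) - x * n| ≤ K := by
    rw [h4, show θ * (cnt A n : ℝ) - θ * d * n = θ * ((cnt A n : ℝ) - d * n) by ring, abs_mul,
      abs_of_nonneg hθ0]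
    have h6 := abs_nonneg ((cnt A n : ℝ) - d * n)
    nlinarith
  rw [abs_le] at h5 ⊢
  constructor <;> linarith [h5.1, h5.2]

lemma fstar_le {x : ℝ} {A : Set ℕ} (hA : ∀ a ∈ A, 1 ≤ a) (h : lowerDensity A = x) :
    fstar x ≤ lowerDensity (plusPrimes A) := by
  apply csInf_le
  · refine ⟨0, ?_⟩
    rintro d ⟨A, _, _, rfl⟩
    exact lowerDensity_nonneg _
  · exact ⟨A, hA, h, rfl⟩

lemma exists_density (x : ℝ) (h0 : 0 ≤ x) (h1 : x ≤ 1) :
    ∃ A : Set ℕ, (∀ a ∈ A, 1 ≤ a) ∧ lowerDensity A = x := by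
  obtain ⟨B, -, hB, h⟩ := exists_subset {n | 1 ≤ n} (fun a ha => ha) 1 0 one_pos (by
    intro n
    have : cnt {n | 1 ≤ n} n = n := cnt_full fun a ha => ha
    rw [this]
    simp) x h0 h1
  exact ⟨B, hB, h⟩

lemma le_fstar {x c : ℝ} (h0 : 0 ≤ x) (h1 : x ≤ 1)
    (h : ∀ A : Set ℕ, (∀ a ∈ A, 1 ≤ a) → lowerDensity A = x → c ≤ lowerDensity (plusPrimes A)) :
    c ≤ fstar x := by
  apply le_csInf
  · obtain ⟨A, hA, hx⟩ := exists_density x h0 h1
    exact ⟨_, A, hA, hx, rfl⟩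
  · rintro d ⟨A, hA, hx, rfl⟩
    exact h A hA hx

end Pool.Agent.TH881
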