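import Mathlib
import Pool.Agent.H373R2.T7.SupE2

/-! Mean square of a convolution with the indicator of a set, from the sup norm of the exponential
sum. The orthogonality lemmas are adapted from `Pool.Agent.W301.SS`. -/

set_option autoImplicit false

namespace Pool.Agent.TH881
open Finset
open Pool.Agent.H807R2.Dav

lemma ee_ne_one {M : ℕ} (hM : 1 ≤ M) {k : ℤ} (hk : ¬ (M : ℤ) ∣ k) : ee ((k : ℝ) / M) ≠ 1 := by
  have hM0 : (M : ℝ) ≠ 0 := by positivity
  intro h
  unfold ee at h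
  rw [Complex.exp_eq_one_iff] at h
  obtain ⟨n, hn⟩ := h
  have h2 : (2 * (Real.pi : ℂ) * Complex.I) ≠ 0 := by
    simp [Real.pi_ne_zero]
  have h3 : (((k : ℝ) / M : ℝ) : ℂ) = n := by
    apply mul_left_cancel₀ h2
    rw [hn]; ring
  have h4 : (k : ℝ) / M = n := by exact_mod_cast h3
  rw [div_eq_iff hM0] at h4
  apply hk
  refine ⟨n, ?_⟩
  have : (k : ℝ) = ((M * n : ℤ) : ℝ) := by push_cast; linarith
  exact_mod_cast this

lemma orth {M : ℕ} (hM : 1 ≤ M) (k : ℤ) :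
    ∑ r ∈ range M, ee ((k : ℝ) * ((r : ℝ) / M)) = if (M : ℤ) ∣ k then (M : ℂ) else 0 := by
  have hM0 : (M : ℝ) ≠ 0 := by positivity
  have e : ∀ r : ℕ, ee ((k : ℝ) * ((r : ℝ) / M)) = ee ((k : ℝ) / M) ^ r := by
    intro r
    rw [← ee_pow]; congr 1; ring
  simp_rw [e]
  split_ifs with h
  · obtain ⟨n, rfl⟩ := h
    have : ee (((M * n : ℤ) : ℝ) / M) = 1 := by
      have e2 : (((M * n : ℤ) : ℝ) / M) = (n : ℝ) := by push_cast; field_simp
      rw [e2, ee_int]
    rw [this]; simp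
  · rw [geom_sum_eq (ee_ne_one hM h)]
    have : ee ((k : ℝ) / M) ^ M = 1 := by
      rw [← ee_pow]
      have e2 : (M : ℝ) * ((k : ℝ) / M) = (k : ℝ) := by field_simp
      rw [e2, ee_int]
    rw [this, sub_self, zero_div]

lemma star_ee (x : ℝ) : (starRingEnd ℂ) (ee x) = ee (-x) := by
  rw [ee_eq, ee_eq, ← Complex.exp_conj]
  congr 1
  rw [map_mul, Complex.conj_ofReal, Complex.conj_I]
  push_cast; ring

/-- Parseval's identity for functions modulo `M` -/
lemma parsevalF {M : ℕ} (hM : 1 ≤ M) (h : ℕ → ℂ) :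
    ∑ r ∈ range M, ‖∑ n ∈ range M, h n * ee ((n : ℝ) * ((r : ℝ) / M))‖ ^ 2 =
      M * ∑ n ∈ range M, ‖h n‖ ^ 2 := by
  have key : ((∑ r ∈ range M, ‖∑ n ∈ range M, h n * ee ((n : ℝ) * ((r : ℝ) / M))‖ ^ 2 : ℝ) : ℂ) =
      ((M * ∑ n ∈ range M, ‖h n‖ ^ 2 : ℝ) : ℂ) := by
    push_cast
    have e1 : ∀ r ∈ range M, ((‖∑ n ∈ range M, h n * ee ((n : ℝ) * ((r : ℝ) / M))‖ : ℂ)) ^ 2 =
        ∑ a ∈ range M, ∑ b ∈ range M, (h a * (starRingEnd ℂ) (h b)) *
          ee (((a : ℤ) - (b : ℤ) : ℤ) * ((r : ℝ) / M)) := by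
      intro r _
      rw [← Complex.mul_conj', map_sum, sum_mul_sum]
      apply sum_congr rfl
      intro a _
      apply sum_congr rfl
      intro b _
      rw [map_mul, star_ee]
      have : ee ((((a : ℤ) - (b : ℤ) : ℤ) : ℝ) * ((r : ℝ) / M)) =
          ee ((a : ℝ) * ((r : ℝ) / M)) * ee (-((b : ℝ) * ((r : ℝ) / M))) := by
        rw [← ee_add]; congr 1; push_cast; ring
      rw [this]; ring
    rw [sum_congr rfl e1, sum_comm]
    have e2 : ∀ a ∈ range M, ∑ r ∈ range M, ∑ b ∈ range M, (h a * (starRingEnd ℂ) (h b)) *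
          ee (((a : ℤ) - (b : ℤ) : ℤ) * ((r : ℝ) / M)) = (M : ℂ) * (‖h a‖ : ℂ) ^ 2 := by
      intro a ha
      rw [sum_comm]
      rw [sum_eq_single a]
      · rw [← mul_sum, orth hM]
        simp only [sub_self, dvd_zero, if_true]
        rw [Complex.mul_conj']; ring
      · intro b hb hba
        rw [← mul_sum, orth hM, if_neg, mul_zero]
        intro h
        rw [mem_range] at ha hb
        have h3 := Int.eq_zero_of_abs_lt_dvd h (by rw [abs_lt]; constructor <;> omega)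
        apply hba; omega
      · intro h; exact absurd ha h
    rw [sum_congr rfl e2, mul_sum]
  exact_mod_cast key

/-- the sum over `b` in `B` below `n` of `f (n - b)` -/
noncomputable def cv (f : ℕ → ℝ) (B : Finset ℕ) (n : ℕ) : ℝ := ∑ b ∈ B.filter (· < n), f (n - b)

/-- mean square of a convolution -/
theorem l2conv (f : ℕ → ℝ) (N : ℕ) (B : Finset ℕ) (hB : ∀ b ∈ B, b ≤ N) (S : ℝ)
    (hS : ∀ α : ℝ, ‖∑ n ∈ Icc 1 N, ((f n : ℝ) : ℂ) * ee ((n : ℝ) * α)‖ ≤ S) :
    ∑ n ∈ Icc 1 N, (cv f B n) ^ 2 ≤ S ^ 2 * B.card := by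
  have hS0 : 0 ≤ S := (norm_nonneg _).trans (hS 0)
  set M : ℕ := 2 * N + 1 with hM
  have hM1 : 1 ≤ M := by omega
  have hMr : (0 : ℝ) < M := by exact_mod_cast hM1
  -- the convolution on `range M`
  set c : ℕ → ℂ := fun n => ∑ b ∈ B, ∑ m ∈ Icc 1 N, if m + b = n then ((f m : ℝ) : ℂ) else 0 with hc
  have hcn : ∀ n ∈ Icc 1 N, c n = ((cv f B n : ℝ) : ℂ) := by
    intro n hn
    rw [mem_Icc] at hn
    rw [hc]
    unfold cv
    push_cast
    rw [sum_filter]
    apply sum_congr rfl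
    intro b hb
    by_cases hbn : b < n
    · rw [if_pos hbn, sum_eq_single (n - b)]
      · rw [if_pos (by omega)]
      · intro m _ hm
        rw [if_neg (by omega)]
      · intro h
        exact absurd (mem_Icc.2 ⟨by omega, by omega⟩) h
    · rw [if_neg hbn]
      apply sum_eq_zero
      intro m hm
      rw [mem_Icc] at hm
      rw [if_neg (by omega)]
  have hhat : ∀ r : ℕ, ∑ n ∈ range M, c n * ee ((n : ℝ) * ((r : ℝ) / M)) =
      (∑ m ∈ Icc 1 N, ((f m : ℝ) : ℂ) * ee ((m : ℝ) * ((r : ℝ) / M))) *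
        ∑ b ∈ B, ee ((b : ℝ) * ((r : ℝ) / M)) := by
    intro r
    rw [hc]
    simp only [sum_mul, mul_sum]
    rw [sum_comm]
    apply sum_congr rfl
    intro b hb
    rw [sum_comm]
    apply sum_congr rfl
    intro m hm
    rw [mem_Icc] at hm
    have hbN := hB b hb
    rw [sum_eq_single (m + b)]
    · rw [if_pos rfl]
      push_cast
      rw [add_mul, ee_add]
      ring
    · intro n _ hn
      rw [if_neg (fun h => hn h.symm), zero_mul]
    · intro h
      exact absurd (mem_range.2 (by omega)) h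
  have h1 := parsevalF hM1 c
  have h2 := parsevalF hM1 (fun n => if n ∈ B then (1 : ℂ) else 0)
  have h3 : ∀ r : ℕ, ∑ n ∈ range M, (if n ∈ B then (1 : ℂ) else 0) * ee ((n : ℝ) * ((r : ℝ) / M)) =
      ∑ b ∈ B, ee ((b : ℝ) * ((r : ℝ) / M)) := by
    intro r
    simp only [ite_mul, one_mul, zero_mul]
    rw [← sum_filter]
    apply sum_congr _ (fun _ _ => rfl)
    ext b
    rw [mem_filter, mem_range]
    constructor
    · exact fun h => h.2
    · intro h
      have := hB b h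
      exact ⟨by omega, h⟩
  have h4 : ∑ n ∈ range M, ‖(if n ∈ B then (1 : ℂ) else 0)‖ ^ 2 = (B.card : ℝ) := by
    have : ∀ n ∈ range M, ‖(if n ∈ B then (1 : ℂ) else 0)‖ ^ 2 = if n ∈ B then (1 : ℝ) else 0 := by
      intro n _
      split_ifs <;> simp
    rw [sum_congr rfl this, ← sum_filter, sum_const, nsmul_eq_mul, mul_one]
    congr 1
    apply congrArg
    ext b
    rw [mem_filter, mem_range]
    constructor
    · exact fun h => h.2
    · intro h
      have := hB b h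
      exact ⟨by omega, h⟩
  rw [h4] at h2
  have h5 : ∑ n ∈ Icc 1 N, (cv f B n) ^ 2 ≤ ∑ n ∈ range M, ‖c n‖ ^ 2 := by
    have h6 : ∑ n ∈ Icc 1 N, (cv f B n) ^ 2 = ∑ n ∈ Icc 1 N, ‖c n‖ ^ 2 := by
      apply sum_congr rfl
      intro n hn
      rw [hcn n hn, Complex.norm_real, Real.norm_eq_abs, sq_abs]
    rw [h6]
    apply sum_le_sum_of_subset_of_nonneg
    · intro n hn
      rw [mem_Icc] at hn
      rw [mem_range]
      omega
    · intro _ _ _
      positivity
  have h6 : ∑ r ∈ range M, ‖∑ n ∈ range M, c n * ee ((n : ℝ) * ((r : ℝ) / M))‖ ^ 2 ≤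
      ∑ r ∈ range M, S ^ 2 * ‖∑ b ∈ B, ee ((b : ℝ) * ((r : ℝ) / M))‖ ^ 2 := by
    apply sum_le_sum
    intro r _
    rw [hhat r, norm_mul, mul_pow]
    apply mul_le_mul_of_nonneg_right _ (by positivity)
    exact pow_le_pow_left₀ (norm_nonneg _) (hS _) 2
  rw [h1, ← mul_sum] at h6
  have h7 : ∑ r ∈ range M, ‖∑ b ∈ B, ee ((b : ℝ) * ((r : ℝ) / M))‖ ^ 2 = M * (B.card : ℝ) := by
    rw [← h2]
    apply sum_congr rfl
    intro r _
    rw [h3 r]
  rw [h7] at h6
  have h8 : (M : ℝ) * ∑ n ∈ range M, ‖c n‖ ^ 2 ≤ M * (S ^ 2 * B.card) := by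
    calc _ ≤ _ := h6
      _ = _ := by ring
  have h9 := le_of_mul_le_mul_left h8 hMr
  exact h5.trans h9

end Pool.Agent.TH881
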