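import Mathlib
import Pool.Agent.TH881.Conv
import Pool.Agent.Helper742.Brun

/-! Pair correlations of the sieve model in a progression, with the right constant. -/

set_option autoImplicit false

namespace Pool.Agent.TH881
open Finset
open Pool.Agent.H373R2.T7
open Pool.Agent.Helper742

/-- primes in `(w, z]` -/
def pT (w z : ℕ) : Finset ℕ := (pz z).filter (fun p => w < p)

/-- the product of the primes up to `w` -/
def Wp (w : ℕ) : ℕ := ∏ p ∈ pz w, p

/-- the local factors of the difference `h` at the primes in `(w, z]` -/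
noncomputable def gw (w z h : ℕ) : ℝ := ∏ p ∈ (pT w z).filter (fun p => p ∣ h), (1 - 1 / (p : ℝ))⁻¹

lemma mem_pT {w z p : ℕ} : p ∈ pT w z ↔ w < p ∧ p ≤ z ∧ p.Prime := by
  unfold pT
  rw [mem_filter, mem_pz]
  tauto

lemma Wp_pos (w : ℕ) : 0 < Wp w := by
  unfold Wp
  exact prod_pos fun p hp => (mem_pz.1 hp).2.pos

lemma prime_dvd_Wp {w p : ℕ} (hp : p.Prime) : p ∣ Wp w ↔ p ≤ w := by
  unfold Wp
  constructor
  · intro h
    obtain ⟨q, hq, h1⟩ := (hp.prime.dvd_finset_prod_iff _).1 h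
    rw [mem_pz] at hq
    rw [(Nat.prime_dvd_prime_iff_eq hp hq.2).1 h1]
    exact hq.1
  · intro h
    exact dvd_prod_of_mem _ (mem_pz.2 ⟨h, hp⟩)

lemma fac_pos {p : ℕ} (hp : p.Prime) : 0 < 1 - 1 / (p : ℝ) := by
  have : (2 : ℝ) ≤ p := by exact_mod_cast hp.two_le
  rw [sub_pos, div_lt_one (by linarith)]
  linarith

lemma fac_le_one {p : ℕ} (_hp : p.Prime) : 1 - 1 / (p : ℝ) ≤ 1 := by
  have : (0 : ℝ) ≤ 1 / p := by positivity
  linarith

lemma one_le_fac_inv {p : ℕ} (hp : p.Prime) : 1 ≤ (1 - 1 / (p : ℝ))⁻¹ :=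
  (one_le_inv₀ (fac_pos hp)).2 (fac_le_one hp)

lemma one_le_gw (w z h : ℕ) : 1 ≤ gw w z h := by
  unfold gw
  have : ∏ p ∈ (pT w z).filter (fun p => p ∣ h), (1 : ℝ) ≤
      ∏ p ∈ (pT w z).filter (fun p => p ∣ h), (1 - 1 / (p : ℝ))⁻¹ := by
    apply prod_le_prod (fun _ _ => zero_le_one)
    intro p hp
    rw [mem_filter, mem_pT] at hp
    exact one_le_fac_inv hp.1.2.2
  simpa using this

lemma Vz_split {w z : ℕ} (h : w ≤ z) : Vz z = Vz w * ∏ p ∈ pT w z, (1 - 1 / (p : ℝ)) := by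
  unfold Vz
  rw [← prod_filter_mul_prod_filter_not (pz z) (fun p => p ≤ w)]
  congr 1
  · apply prod_congr _ (fun _ _ => rfl)
    ext p
    rw [mem_filter, mem_pz, mem_pz]
    constructor
    · rintro ⟨⟨_, h1⟩, h2⟩; exact ⟨h2, h1⟩
    · rintro ⟨h1, h2⟩; exact ⟨⟨h1.trans h, h2⟩, h1⟩
  · apply prod_congr _ (fun _ _ => rfl)
    ext p
    rw [mem_filter, mem_pT, mem_pz]
    constructor
    · rintro ⟨⟨h1, h2⟩, h3⟩; exact ⟨by omega, h1, h2⟩
    · rintro ⟨h1, h2, h3⟩; exact ⟨⟨h2, h3⟩, by omega⟩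

/-- exactly one solution of a linear congruence -/
lemma card_lin (p W a : ℕ) (hp : p.Prime) (hW : ¬ p ∣ W) :
    ((range p).filter (fun m => p ∣ a + W * m)).card = 1 := by
  have := Fact.mk hp
  have hW0 : (W : ZMod p) ≠ 0 := by
    rwa [Ne, ZMod.natCast_eq_zero_iff]
  have hiff : ∀ m : ℕ, p ∣ a + W * m ↔ (m : ZMod p) = -(a : ZMod p) / W := by
    intro m
    rw [← ZMod.natCast_eq_zero_iff, eq_div_iff hW0]
    push_cast
    constructor
    · intro h
      linear_combination h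
    · intro h
      linear_combination h
  rw [card_eq_one]
  refine ⟨(-(a : ZMod p) / W).val, ?_⟩
  ext m
  rw [mem_filter, mem_range, mem_singleton, hiff]
  constructor
  · rintro ⟨h1, h2⟩
    rw [← h2, ZMod.val_natCast_of_lt h1]
  · rintro rfl
    exact ⟨ZMod.val_lt _, by rw [ZMod.natCast_val, ZMod.cast_id]⟩

/-- the indicator of a divisibility of one of the two forms -/
noncomputable def uu (W a h : ℕ) (p m : ℕ) : ℝ :=
  if p ∣ a + W * m ∨ p ∣ a + h + W * m then 1 else 0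

lemma uu_nonneg (W a h p m : ℕ) : 0 ≤ uu W a h p m := by
  unfold uu; split_ifs <;> norm_num

lemma uu_le_one (W a h p m : ℕ) : uu W a h p m ≤ 1 := by
  unfold uu; split_ifs <;> norm_num

lemma uu_per (W a h p m : ℕ) : uu W a h p (m % p) = uu W a h p m := by
  unfold uu
  have h1 : ∀ c : ℕ, p ∣ c + W * (m % p) ↔ p ∣ c + W * m := by
    intro c
    rw [Nat.dvd_iff_mod_eq_zero, Nat.dvd_iff_mod_eq_zero, Nat.add_mod, Nat.mul_mod, Nat.mod_mod,
      ← Nat.mul_mod, ← Nat.add_mod]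
  simp only [h1]

lemma mean_ge_one (W a h p : ℕ) (hp : p.Prime) (hW : ¬ p ∣ W) : 1 / (p : ℝ) ≤ mean (uu W a h) p := by
  unfold mean
  have hp0 : (0 : ℝ) < p := by exact_mod_cast hp.pos
  apply div_le_div_of_nonneg_right _ hp0.le
  have h1 := card_lin p W a hp hW
  calc (1 : ℝ) = (((range p).filter (fun m => p ∣ a + W * m)).card : ℝ) := by rw [h1]; norm_num
    _ = ∑ m ∈ range p, if p ∣ a + W * m then (1 : ℝ) else 0 := by
        rw [← sum_filter, sum_const, nsmul_eq_mul, mul_one]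
    _ ≤ _ := by
        apply sum_le_sum
        intro m _
        unfold uu
        by_cases h2 : p ∣ a + W * m
        · rw [if_pos h2, if_pos (Or.inl h2)]
        · rw [if_neg h2]
          split_ifs <;> norm_num

lemma mean_two (W a h p : ℕ) (hp : p.Prime) (hW : ¬ p ∣ W) (hh : ¬ p ∣ h) :
    mean (uu W a h) p = 2 / (p : ℝ) := by
  unfold mean
  congr 1
  have h1 := card_lin p W a hp hW
  have h2 := card_lin p W (a + h) hp hW
  have h3 : ∀ m ∈ range p, uu W a h p m = (if p ∣ a + W * m then (1 : ℝ) else 0) +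
      (if p ∣ a + h + W * m then (1 : ℝ) else 0) := by
    intro m _
    unfold uu
    by_cases e1 : p ∣ a + W * m
    · have e2 : ¬ p ∣ a + h + W * m := by
        intro e2
        apply hh
        have e3 : a + h + W * m = (a + W * m) + h := by ring
        rw [e3] at e2
        exact (Nat.dvd_add_right e1).1 e2
      rw [if_pos e1, if_neg e2, if_pos (Or.inl e1)]
      norm_num
    · by_cases e2 : p ∣ a + h + W * m
      · rw [if_neg e1, if_pos e2, if_pos (Or.inr e2)]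
        norm_num
      · rw [if_neg e1, if_neg e2, if_neg (by tauto)]
        norm_num
  rw [sum_congr rfl h3, sum_add_distrib, ← sum_filter, ← sum_filter, sum_const, sum_const, h1, h2]
  norm_num

lemma mean_le_two (W a h p : ℕ) (hp : p.Prime) (hW : ¬ p ∣ W) :
    mean (uu W a h) p ≤ 2 / (p : ℝ) := by
  unfold mean
  have hp0 : (0 : ℝ) < p := by exact_mod_cast hp.pos
  apply div_le_div_of_nonneg_right _ hp0.le
  have h1 := card_lin p W a hp hW
  have h2 := card_lin p W (a + h) hp hW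
  have h3 : ∀ m ∈ range p, uu W a h p m ≤ (if p ∣ a + W * m then (1 : ℝ) else 0) +
      (if p ∣ a + h + W * m then (1 : ℝ) else 0) := by
    intro m _
    unfold uu
    by_cases e1 : p ∣ a + W * m
    · rw [if_pos e1, if_pos (Or.inl e1)]
      split_ifs <;> norm_num
    · by_cases e2 : p ∣ a + h + W * m
      · rw [if_neg e1, if_pos e2, if_pos (Or.inr e2)]
        norm_num
      · rw [if_neg e1, if_neg e2, if_neg (by tauto)]
        norm_num
  refine (sum_le_sum h3).trans ?_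
  rw [sum_add_distrib, ← sum_filter, ← sum_filter, sum_const, sum_const, h1, h2]
  norm_num

/-- the product of the local densities -/
lemma prod_mean_le (w z W a h : ℕ) (hW : ∀ p ∈ pT w z, ¬ p ∣ W) :
    ∏ p ∈ pT w z, (1 - mean (uu W a h) p) ≤
      (∏ p ∈ pT w z, (1 - 1 / (p : ℝ))) ^ 2 * gw w z h := by
  have h1 : (∏ p ∈ pT w z, (1 - 1 / (p : ℝ))) ^ 2 * gw w z h =
      ∏ p ∈ pT w z, ((1 - 1 / (p : ℝ)) ^ 2 * if p ∣ h then (1 - 1 / (p : ℝ))⁻¹ else 1) := by
    unfold gw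
    rw [prod_mul_distrib, prod_pow, prod_filter]
  rw [h1]
  apply prod_le_prod
  · intro p hp
    have hp' := mem_pT.1 hp
    have h2 := mean_le_two W a h p hp'.2.2 (hW p hp)
    have h3 : (2 : ℝ) ≤ p := by exact_mod_cast hp'.2.2.two_le
    have h4 : (2 : ℝ) / p ≤ 1 := by rw [div_le_one (by linarith)]; exact h3
    linarith
  · intro p hp
    have hp' := mem_pT.1 hp
    have hpos := fac_pos hp'.2.2
    by_cases hd : p ∣ h
    · rw [if_pos hd]
      have h2 := mean_ge_one W a h p hp'.2.2 (hW p hp)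
      have h3 : (1 - 1 / (p : ℝ)) ^ 2 * (1 - 1 / (p : ℝ))⁻¹ = 1 - 1 / (p : ℝ) := by
        field_simp
      rw [h3]
      linarith
    · rw [if_neg hd, mean_two W a h p hp'.2.2 (hW p hp) hd, mul_one]
      have : (2 : ℝ) / p = 2 * (1 / p) := by ring
      rw [this]
      nlinarith [sq_nonneg (1 / (p : ℝ))]

lemma lamz_mul_le (w z W a h m : ℕ) :
    lamz z (a + W * m) * lamz z (a + h + W * m) ≤
      ((Vz z)⁻¹) ^ 2 * ∏ p ∈ pT w z, (1 - uu W a h p m) := by
  have hV := inv_pos.2 (Vz_pos z)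
  have hnn : 0 ≤ ((Vz z)⁻¹) ^ 2 * ∏ p ∈ pT w z, (1 - uu W a h p m) := by
    apply mul_nonneg (by positivity)
    exact prod_nonneg fun p _ => sub_nonneg.2 (uu_le_one _ _ _ _ _)
  unfold lamz
  by_cases h1 : ∀ p ∈ pz z, ¬ p ∣ a + W * m
  · by_cases h2 : ∀ p ∈ pz z, ¬ p ∣ a + h + W * m
    · rw [if_pos h1, if_pos h2]
      have h3 : ∏ p ∈ pT w z, (1 - uu W a h p m) = 1 := by
        apply prod_eq_one
        intro p hp
        have hp' : p ∈ pz z := (mem_filter.1 hp).1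
        unfold uu
        rw [if_neg (by rw [not_or]; exact ⟨h1 p hp', h2 p hp'⟩), sub_zero]
      rw [h3, mul_one, sq]
    · rw [if_neg h2, mul_zero]
      exact hnn
  · rw [if_neg h1, zero_mul]
    exact hnn

/-- **Pair correlations of the sieve model in a progression.** -/
theorem corr (E V : ℕ) : ∃ N0 : ℕ, ∀ N : ℕ, N0 ≤ N → ∀ z : ℕ, 1 ≤ z → (z : ℝ) ≤ Real.log N ^ E →
    ∀ w : ℕ, w ≤ z → ∀ X a h : ℕ,
    ∑ m ∈ range X, lamz z (a + Wp w * m) * lamz z (a + h + Wp w * m) ≤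
      X * ((Vz w)⁻¹ ^ 2 * gw w z h) + X / Real.log N ^ V + √(N : ℝ) := by
  obtain ⟨N0, h0⟩ := choice 2 E (2 * E + V) 20
  obtain ⟨n2, h2⟩ := ev_L' 3
  refine ⟨max N0 (max n2 1), fun N hN z hz hzE w hwz X a h => ?_⟩
  obtain ⟨r, hr1, hr2, _⟩ := h0 N (le_trans (le_max_left _ _) hN) z hzE
  have hL := h2 N (le_trans (le_trans (le_max_left _ _) (le_max_right _ _)) hN)
  have hN1 : 1 ≤ N := le_trans (le_trans (le_max_right _ _) (le_max_right _ _)) hN
  set L := Real.log N with hLd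
  have hL0 : 0 < L := by linarith
  have hL1 : 1 ≤ L := by linarith
  have hzr : (1 : ℝ) ≤ z := by exact_mod_cast hz
  have hlz : 0 ≤ Real.log z := Real.log_nonneg hzr
  have hr0 : 1 ≤ r := by
    by_contra hcon
    have hr00 : r = 0 := by omega
    rw [hr00] at hr1
    have h3 : (1 : ℝ) < Real.exp (3 * (((2 : ℕ) : ℝ) * (1 + Real.log z)) - ((0 : ℕ) : ℝ)) := by
      rw [Real.one_lt_exp_iff]
      push_cast
      nlinarith
    have h4 : 1 / L ^ (2 * E + V) ≤ 1 := by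
      rw [div_le_one (by positivity)]
      exact one_le_pow₀ hL1
    exact absurd (h3.trans_le (hr1.trans h4)) (lt_irrefl _)
  set r' := 2 * r + 1 with hr'
  have hodd : Odd r' := ⟨r, hr'⟩
  have hTp : ∀ p ∈ pT w z, p.Prime ∧ p ≤ z := fun p hp => ⟨(mem_pT.1 hp).2.2, (mem_pT.1 hp).2.1⟩
  have hTW : ∀ p ∈ pT w z, ¬ p ∣ Wp w := by
    intro p hp hd
    have h3 := (prime_dvd_Wp (mem_pT.1 hp).2.2).1 hd
    have := (mem_pT.1 hp).1
    omega
  have hb := brun (pT w z) z r' hz hodd hTp (uu (Wp w) a h) (fun p _ n => uu_nonneg _ _ _ _ _)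
    (fun p _ n => uu_le_one _ _ _ _ _) (fun p _ n => uu_per _ _ _ _ _) (Real.exp 1) (Real.exp_pos 1) X
  have hVz := Vz_pos z
  have hVw := Vz_pos w
  have hVinv := Vz_inv_le z hz
  -- the tail
  have htail : (Real.exp 1)⁻¹ ^ r' * Real.exp (Real.exp 1 * ∑ p ∈ pT w z, mean (uu (Wp w) a h) p) ≤
      1 / L ^ (2 * E + V) := by
    refine le_trans ?_ hr1
    rw [← Real.exp_neg, ← Real.exp_nat_mul, ← Real.exp_add]
    apply Real.exp_le_exp.2
    have h3 : ∑ p ∈ pT w z, mean (uu (Wp w) a h) p ≤ 2 * (1 + Real.log z) := by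
      calc ∑ p ∈ pT w z, mean (uu (Wp w) a h) p ≤ ∑ p ∈ pT w z, 2 * (1 / (p : ℝ)) := by
            apply sum_le_sum
            intro p hp
            have := mean_le_two (Wp w) a h p (mem_pT.1 hp).2.2 (hTW p hp)
            rw [← mul_div_assoc, mul_one]
            exact this
        _ = 2 * ∑ p ∈ pT w z, 1 / (p : ℝ) := by rw [mul_sum]
        _ ≤ 2 * ∑ p ∈ pz z, 1 / (p : ℝ) := by
            apply mul_le_mul_of_nonneg_left _ (by norm_num)
            exact sum_le_sum_of_subset_of_nonneg (filter_subset _ _) (fun _ _ _ => by positivity)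
        _ ≤ _ := mul_le_mul_of_nonneg_left (sum_pz_le z) (by norm_num)
    have he : Real.exp 1 < 3 := by
      have := Real.exp_one_lt_d9
      linarith
    have he0 : 0 < Real.exp 1 := Real.exp_pos 1
    have h4 : Real.exp 1 * ∑ p ∈ pT w z, mean (uu (Wp w) a h) p ≤ 3 * (2 * (1 + Real.log z)) := by
      have h5 : 0 ≤ 2 * (1 + Real.log z) := by positivity
      calc _ ≤ Real.exp 1 * (2 * (1 + Real.log z)) := mul_le_mul_of_nonneg_left h3 he0.le
        _ ≤ _ := mul_le_mul_of_nonneg_right he.le h5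
    have h5 : (r : ℝ) ≤ r' := by
      rw [hr']
      push_cast
      have : (0 : ℝ) ≤ r := Nat.cast_nonneg r
      linarith
    push_cast
    linarith
  -- the power of z
  have hpow : ((Vz z)⁻¹) ^ 2 * (3 * (z : ℝ) ^ (2 * r')) ≤ √(N : ℝ) := by
    have h3 : (z : ℝ) ≤ z + 1 := by linarith
    have h4 : ((Vz z)⁻¹) ^ 2 ≤ ((z : ℝ) + 1) ^ 2 := by
      apply pow_le_pow_left₀ (inv_pos.2 hVz).le
      linarith
    have h5 : (3 : ℝ) ≤ ((z : ℝ) + 1) ^ 2 := by nlinarith
    have h6 : (z : ℝ) ^ (2 * r') ≤ ((z : ℝ) + 1) ^ (2 * r') := pow_le_pow_left₀ (by linarith) h3 _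
    have h7 : ((Vz z)⁻¹) ^ 2 * (3 * (z : ℝ) ^ (2 * r')) ≤
        ((z : ℝ) + 1) ^ 2 * (((z : ℝ) + 1) ^ 2 * ((z : ℝ) + 1) ^ (2 * r')) := by
      have e0 : 0 ≤ (z : ℝ) ^ (2 * r') := by positivity
      gcongr
    refine h7.trans ?_
    have h8 : ((z : ℝ) + 1) ^ 2 * (((z : ℝ) + 1) ^ 2 * ((z : ℝ) + 1) ^ (2 * r')) =
        ((z : ℝ) + 1) ^ (2 * r' + 4) := by
      rw [← pow_add, ← pow_add]
      congr 1
      omega
    rw [h8]
    have h9 : ((z : ℝ) + 1) ^ (2 * r' + 4) ≤ ((z : ℝ) + 1) ^ (r * 10) :=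
      pow_le_pow_right₀ (by linarith) (by omega)
    refine h9.trans ?_
    apply Real.le_sqrt_of_sq_le
    rw [← pow_mul, show r * 10 * 2 = r * 20 by ring, pow_mul]
    exact hr2
  have hP := prod_mean_le w z (Wp w) a h hTW
  have hsplit := Vz_split hwz
  set Q := ∏ p ∈ pT w z, (1 - 1 / (p : ℝ)) with hQ
  have hQ0 : 0 < Q := prod_pos fun p hp => fac_pos (mem_pT.1 hp).2.2
  have hg := one_le_gw w z h
  have hX0 : (0 : ℝ) ≤ X := Nat.cast_nonneg X
  calc ∑ m ∈ range X, lamz z (a + Wp w * m) * lamz z (a + h + Wp w * m)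
      ≤ ∑ m ∈ range X, ((Vz z)⁻¹) ^ 2 * ∏ p ∈ pT w z, (1 - uu (Wp w) a h p m) :=
        sum_le_sum fun m _ => lamz_mul_le w z (Wp w) a h m
    _ = ((Vz z)⁻¹) ^ 2 * ∑ m ∈ range X, ∏ p ∈ pT w z, (1 - uu (Wp w) a h p m) := by rw [mul_sum]
    _ ≤ ((Vz z)⁻¹) ^ 2 * (X * (Q ^ 2 * gw w z h + 1 / L ^ (2 * E + V)) + 3 * (z : ℝ) ^ (2 * r')) := by
        apply mul_le_mul_of_nonneg_left _ (by positivity)
        refine hb.trans ?_
        gcongr
    _ = X * (((Vz z)⁻¹) ^ 2 * Q ^ 2 * gw w z h) + X * (((Vz z)⁻¹) ^ 2 * (1 / L ^ (2 * E + V))) +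
        ((Vz z)⁻¹) ^ 2 * (3 * (z : ℝ) ^ (2 * r')) := by ring
    _ ≤ X * ((Vz w)⁻¹ ^ 2 * gw w z h) + X / L ^ V + √(N : ℝ) := by
        apply add_le_add (add_le_add _ _) hpow
        · apply le_of_eq
          congr 2
          rw [hsplit]
          field_simp
        · rw [div_eq_mul_inv]
          apply mul_le_mul_of_nonneg_left _ hX0
          have h3 : ((Vz z)⁻¹) ^ 2 ≤ (L ^ E) ^ 2 := by
            apply pow_le_pow_left₀ (inv_pos.2 hVz).le
            exact hVinv.trans hzE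
          calc ((Vz z)⁻¹) ^ 2 * (1 / L ^ (2 * E + V)) ≤ (L ^ E) ^ 2 * (1 / L ^ (2 * E + V)) := by
                gcongr
            _ = (L ^ V)⁻¹ := by
                rw [pow_add, mul_comm 2 E, pow_mul]
                field_simp

end Pool.Agent.TH881
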