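import Mathlib
import Pool.Agent.TH881.Sieve

/-! The average of the singular series over the differences of a set: Hoelder's inequality. -/

set_option autoImplicit false

namespace Pool.Agent.TH881
open Finset
open Pool.Agent.H373R2.T7

/-- sums of products over the prime divisors in a set -/
lemma sum_prod_dvd (s : Finset ℕ) (hs : ∀ p ∈ s, p.Prime) (a : ℕ → ℝ) (ha : ∀ p ∈ s, 0 ≤ a p)
    (J : ℕ) :
    ∑ j ∈ Icc 1 J, ∏ p ∈ s.filter (fun p => p ∣ j), (1 + a p) ≤ J * ∏ p ∈ s, (1 + a p / p) := by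
  have h1 : ∀ j ∈ Icc 1 J, ∏ p ∈ s.filter (fun p => p ∣ j), (1 + a p) =
      ∑ S ∈ s.powerset, if (∏ p ∈ S, p) ∣ j then ∏ p ∈ S, a p else 0 := by
    intro j _
    have h2 : ∏ p ∈ s.filter (fun p => p ∣ j), (1 + a p) = ∏ p ∈ s, (1 + if p ∣ j then a p else 0) := by
      rw [prod_filter]
      apply prod_congr rfl
      intro p _
      split_ifs <;> simp
    rw [h2, prod_one_add]
    apply sum_congr rfl
    intro S hS
    rw [mem_powerset] at hS
    have h3 := prod_dvd_iff S (fun p hp => hs p (hS hp)) j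
    by_cases h4 : (∏ p ∈ S, p) ∣ j
    · rw [if_pos h4]
      apply prod_congr rfl
      intro p hp
      rw [if_pos (h3.2 h4 p hp)]
    · rw [if_neg h4]
      have h5 : ¬ ∀ p ∈ S, p ∣ j := fun h => h4 (h3.1 h)
      push Not at h5
      obtain ⟨p, hp, h6⟩ := h5
      exact prod_eq_zero hp (if_neg h6)
  rw [sum_congr rfl h1, sum_comm]
  have h2 : ∀ S ∈ s.powerset, ∑ j ∈ Icc 1 J, (if (∏ p ∈ S, p) ∣ j then ∏ p ∈ S, a p else 0) ≤
      J * ∏ p ∈ S, (a p / p) := by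
    intro S hS
    rw [mem_powerset] at hS
    have hpos : 0 < ∏ p ∈ S, p := prod_pos fun p hp => (hs p (hS hp)).pos
    have hposr : (0 : ℝ) < ((∏ p ∈ S, p : ℕ) : ℝ) := by exact_mod_cast hpos
    have ha' : 0 ≤ ∏ p ∈ S, a p := prod_nonneg fun p hp => ha p (hS hp)
    rw [← sum_filter, sum_const, nsmul_eq_mul]
    have h3 : ((Icc 1 J).filter (fun j => (∏ p ∈ S, p) ∣ j)).card = J / ∏ p ∈ S, p := by
      have := Nat.Ioc_filter_dvd_card_eq_div J (∏ p ∈ S, p)
      rw [← this]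
      congr 1
    rw [h3]
    have h4 : ((J / ∏ p ∈ S, p : ℕ) : ℝ) ≤ (J : ℝ) / ((∏ p ∈ S, p : ℕ) : ℝ) := Nat.cast_div_le
    calc ((J / ∏ p ∈ S, p : ℕ) : ℝ) * ∏ p ∈ S, a p ≤ (J : ℝ) / ((∏ p ∈ S, p : ℕ) : ℝ) * ∏ p ∈ S, a p :=
          mul_le_mul_of_nonneg_right h4 ha'
      _ = J * ∏ p ∈ S, (a p / p) := by
          rw [prod_div_distrib]
          push_cast
          ring
  refine (sum_le_sum h2).trans ?_
  rw [← mul_sum, prod_one_add]

lemma sum_telescope (y z : ℕ) (hy : 1 ≤ y) :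
    ∑ p ∈ pT y z, 1 / ((p : ℝ) * (p - 1)) ≤ 1 / y := by
  have hy0 : (0 : ℝ) < y := by exact_mod_cast hy
  have h1 : ∀ m : ℕ, ∑ n ∈ Ioc y (y + m), 1 / ((n : ℝ) * (n - 1)) ≤ 1 / y - 1 / (y + m : ℕ) := by
    intro m
    induction m with
    | zero => simp
    | succ m ih =>
      rw [← add_assoc, sum_Ioc_succ_top (by omega)]
      have h2 : (0 : ℝ) < ((y + m : ℕ) : ℝ) := by exact_mod_cast (by omega : 0 < y + m)
      have h3 : 1 / (((y + m + 1 : ℕ) : ℝ) * (((y + m + 1 : ℕ) : ℝ) - 1)) =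
          1 / ((y + m : ℕ) : ℝ) - 1 / ((y + m + 1 : ℕ) : ℝ) := by
        push_cast at h2 ⊢
        have h4 : (y : ℝ) + m + 1 - 1 = y + m := by ring
        rw [h4]
        field_simp
        ring
      rw [h3]
      linarith
  have hsub : pT y z ⊆ Ioc y (y + z) := by
    intro p hp
    rw [mem_pT] at hp
    rw [mem_Ioc]
    omega
  have h2 : ∑ p ∈ pT y z, 1 / ((p : ℝ) * (p - 1)) ≤ ∑ n ∈ Ioc y (y + z), 1 / ((n : ℝ) * (n - 1)) := by
    apply sum_le_sum_of_subset_of_nonneg hsub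
    intro n hn _
    rw [mem_Ioc] at hn
    have : (1 : ℝ) ≤ n := by exact_mod_cast (by omega : 1 ≤ n)
    apply one_div_nonneg.2
    apply mul_nonneg <;> linarith
  have h3 := h1 z
  have h4 : (0 : ℝ) ≤ 1 / ((y + z : ℕ) : ℝ) := by positivity
  linarith

lemma exp_le_lin (t : ℝ) (h0 : 0 ≤ t) (h1 : t ≤ 1) : Real.exp t ≤ 1 + 2 * t := by
  have hconv := convexOn_exp.2 (Set.mem_univ 0) (Set.mem_univ 1) (sub_nonneg.2 h1) h0 (by ring)
  simp only [smul_eq_mul, mul_zero, mul_one, zero_add, Real.exp_zero] at hconv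
  have := Real.exp_one_lt_d9
  nlinarith

/-- moments of the local factors at the large primes -/
lemma moment (y z J : ℕ) (hy : 1 ≤ y) :
    ∑ j ∈ Icc 1 J, gw y z j ^ y ≤ J * Real.exp 2 := by
  have hy0 : (0 : ℝ) < y := by exact_mod_cast hy
  have h1 : ∀ j ∈ Icc 1 J, gw y z j ^ y =
      ∏ p ∈ (pT y z).filter (fun p => p ∣ j), (1 + ((1 - 1 / (p : ℝ))⁻¹ ^ y - 1)) := by
    intro j _
    unfold gw
    rw [← prod_pow]
    apply prod_congr rfl
    intro p _
    ring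
  rw [sum_congr rfl h1]
  have h2 := sum_prod_dvd (pT y z) (fun p hp => (mem_pT.1 hp).2.2)
    (fun p => (1 - 1 / (p : ℝ))⁻¹ ^ y - 1) (fun p hp => by
      have := one_le_pow₀ (n := y) (one_le_fac_inv (mem_pT.1 hp).2.2)
      linarith) J
  refine h2.trans ?_
  apply mul_le_mul_of_nonneg_left _ (Nat.cast_nonneg J)
  have h3 : ∀ p ∈ pT y z, 1 + ((1 - 1 / (p : ℝ))⁻¹ ^ y - 1) / p ≤
      Real.exp (2 * y * (1 / ((p : ℝ) * (p - 1)))) := by
    intro p hp
    have hp' := mem_pT.1 hp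
    have hp2 : (2 : ℝ) ≤ p := by exact_mod_cast hp'.2.2.two_le
    have hpy : (y : ℝ) + 1 ≤ p := by exact_mod_cast hp'.1
    have hp1 : (0 : ℝ) < p - 1 := by linarith
    have e1 : (1 - 1 / (p : ℝ))⁻¹ = 1 + 1 / (p - 1) := by
      have : (p : ℝ) ≠ 0 := by linarith
      have h5 : (p : ℝ) - 1 ≠ 0 := hp1.ne'
      have h6 : 1 - 1 / (p : ℝ) = (p - 1) / p := by field_simp
      rw [h6, inv_div]
      field_simp
      ring
    have e2 : (1 - 1 / (p : ℝ))⁻¹ ≤ Real.exp (1 / (p - 1)) := by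
      rw [e1, add_comm]
      exact Real.add_one_le_exp _
    have e3 : (1 - 1 / (p : ℝ))⁻¹ ^ y ≤ Real.exp (y / (p - 1)) := by
      calc (1 - 1 / (p : ℝ))⁻¹ ^ y ≤ Real.exp (1 / (p - 1)) ^ y :=
            pow_le_pow_left₀ (inv_nonneg.2 (fac_pos hp'.2.2).le) e2 y
        _ = _ := by
            rw [← Real.exp_nat_mul]
            congr 1
            ring
    have e4 : (y : ℝ) / (p - 1) ≤ 1 := by
      rw [div_le_one hp1]
      linarith
    have e5 := exp_le_lin ((y : ℝ) / (p - 1)) (by positivity) e4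
    have e6 : 1 + ((1 - 1 / (p : ℝ))⁻¹ ^ y - 1) / p ≤ 1 + 2 * y * (1 / ((p : ℝ) * (p - 1))) := by
      have e7 : ((1 - 1 / (p : ℝ))⁻¹ ^ y - 1) / p ≤ (2 * (y / (p - 1))) / p := by
        apply div_le_div_of_nonneg_right _ (by linarith)
        linarith
      have e8 : (2 * ((y : ℝ) / (p - 1))) / p = 2 * y * (1 / ((p : ℝ) * (p - 1))) := by
        field_simp
      linarith
    refine e6.trans ?_
    rw [add_comm]
    exact Real.add_one_le_exp _
  calc ∏ p ∈ pT y z, (1 + ((1 - 1 / (p : ℝ))⁻¹ ^ y - 1) / p)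
      ≤ ∏ p ∈ pT y z, Real.exp (2 * y * (1 / ((p : ℝ) * (p - 1)))) := by
        apply prod_le_prod _ h3
        intro p hp
        have h4 := one_le_pow₀ (n := y) (one_le_fac_inv (mem_pT.1 hp).2.2)
        have h5 : 0 ≤ ((1 - 1 / (p : ℝ))⁻¹ ^ y - 1) / p := div_nonneg (by linarith) (Nat.cast_nonneg p)
        linarith
    _ = Real.exp (∑ p ∈ pT y z, 2 * y * (1 / ((p : ℝ) * (p - 1)))) := by rw [Real.exp_sum]
    _ ≤ Real.exp 2 := by
        apply Real.exp_le_exp.2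
        rw [← mul_sum]
        calc 2 * (y : ℝ) * ∑ p ∈ pT y z, 1 / ((p : ℝ) * (p - 1)) ≤ 2 * y * (1 / y) :=
              mul_le_mul_of_nonneg_left (sum_telescope y z hy) (by positivity)
          _ = 2 := by field_simp

/-- the product over the primes in `(w, y]` -/
noncomputable def Gam (w y : ℕ) : ℝ := ∏ p ∈ pT w y, (1 - 1 / (p : ℝ))⁻¹

lemma one_le_Gam (w y : ℕ) : 1 ≤ Gam w y := by
  unfold Gam
  have : ∏ p ∈ pT w y, (1 : ℝ) ≤ ∏ p ∈ pT w y, (1 - 1 / (p : ℝ))⁻¹ :=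
    prod_le_prod (fun _ _ => zero_le_one) fun p hp => one_le_fac_inv (mem_pT.1 hp).2.2
  simpa using this

lemma prod_mono_sub {s t : Finset ℕ} (h : s ⊆ t) (f : ℕ → ℝ) (hf : ∀ p ∈ t, 1 ≤ f p) :
    ∏ p ∈ s, f p ≤ ∏ p ∈ t, f p := by
  rw [← prod_sdiff h]
  have h1 : 1 ≤ ∏ p ∈ t \ s, f p := by
    have : ∏ p ∈ t \ s, (1 : ℝ) ≤ ∏ p ∈ t \ s, f p :=
      prod_le_prod (fun _ _ => zero_le_one) fun p hp => hf p (mem_sdiff.1 hp).1
    simpa using this
  have h2 : 0 ≤ ∏ p ∈ s, f p := prod_nonneg fun p hp => zero_le_one.trans (hf p (h hp))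
  nlinarith

lemma gw_split {w y : ℕ} (hwy : w ≤ y) (z h : ℕ) : gw w z h ≤ Gam w y * gw y z h := by
  unfold gw Gam
  rw [← prod_filter_mul_prod_filter_not ((pT w z).filter (fun p => p ∣ h)) (fun p => p ≤ y)]
  have h1 : ∀ s : Finset ℕ, (∀ p ∈ s, p.Prime) → 0 ≤ ∏ p ∈ s, (1 - 1 / (p : ℝ))⁻¹ := fun s hs =>
    prod_nonneg fun p hp => inv_nonneg.2 (fac_pos (hs p hp)).le
  apply mul_le_mul
  · apply prod_mono_sub
    · intro p hp
      rw [mem_filter, mem_filter, mem_pT] at hp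
      rw [mem_pT]
      exact ⟨hp.1.1.1, hp.2, hp.1.1.2.2⟩
    · intro p hp
      exact one_le_fac_inv (mem_pT.1 hp).2.2
  · apply le_of_eq
    apply prod_congr _ (fun _ _ => rfl)
    ext p
    rw [mem_filter, mem_filter, mem_filter, mem_pT, mem_pT]
    constructor
    · rintro ⟨⟨⟨h1, h2, h3⟩, h4⟩, h5⟩
      exact ⟨⟨by omega, h2, h3⟩, h4⟩
    · rintro ⟨⟨h1, h2, h3⟩, h4⟩
      exact ⟨⟨⟨by omega, h2, h3⟩, h4⟩, by omega⟩
  · exact h1 _ fun p hp => (mem_pT.1 (mem_filter.1 (mem_filter.1 hp).1).1).2.2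
  · exact h1 _ fun p hp => (mem_pT.1 hp).2.2

/-- the factors at large primes do not see `Wp w` -/
lemma gw_mul_W {w y : ℕ} (hwy : w ≤ y) (z j : ℕ) : gw y z (Wp w * j) = gw y z j := by
  unfold gw
  apply prod_congr _ (fun _ _ => rfl)
  apply filter_congr
  intro p hp
  have hp' := mem_pT.1 hp
  rw [hp'.2.2.dvd_mul]
  constructor
  · rintro (h | h)
    · have := (prime_dvd_Wp hp'.2.2).1 h
      omega
    · exact h
  · exact Or.inr

lemma sum_side (B : Finset ℕ) (W M : ℕ) (F : ℕ → ℝ) (hF : ∀ h, 0 ≤ F h)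
    (σ : ℕ → ℕ) (hinj : ∀ x ∈ B, ∀ y ∈ B, σ x = σ y → x = y)
    (hσ : ∀ x ∈ B, 1 ≤ σ x ∧ σ x ≤ M ∧ W ∣ σ x) :
    ∑ x ∈ B, F (σ x) ≤ ∑ j ∈ Icc 1 (M / W), F (W * j) := by
  have h1 : ∀ x ∈ B, W * (σ x / W) = σ x := fun x hx => Nat.mul_div_cancel' (hσ x hx).2.2
  have h2 : ∑ x ∈ B, F (σ x) = ∑ x ∈ B, F (W * (σ x / W)) :=
    sum_congr rfl fun x hx => by rw [h1 x hx]
  rw [h2]
  have hi : Set.InjOn (fun x => σ x / W) (B : Set ℕ) := by
    intro x hx y hy hxy
    apply hinj x hx y hy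
    rw [← h1 x hx, ← h1 y hy]
    simp only at hxy
    rw [hxy]
  rw [← sum_image (f := fun j => F (W * j)) hi]
  apply sum_le_sum_of_subset_of_nonneg
  · intro j hj
    rw [mem_image] at hj
    obtain ⟨x, hx, rfl⟩ := hj
    obtain ⟨h3, h4, h5⟩ := hσ x hx
    rw [mem_Icc]
    refine ⟨?_, Nat.div_le_div_right h4⟩
    rw [Nat.one_le_iff_ne_zero]
    intro h6
    have := h1 x hx
    rw [h6] at this
    omega
  · intro j _ _
    exact hF _

/-- **The average of the local factors.** -/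
theorem avg_gw (w y z M : ℕ) (hwy : w ≤ y) (hy : 1 ≤ y) (B : Finset ℕ) (hB : ∀ b ∈ B, b ≤ M)
    (hc : ∀ b ∈ B, ∀ b' ∈ B, b ≡ b' [MOD Wp w]) (κ : ℝ) (hκ : 0 < κ)
    (hcard : κ * (M / Wp w) ≤ B.card) (b : ℕ) (hb : b ∈ B) :
    ∑ b' ∈ B.erase b, gw w z (Nat.dist b b') ≤
      B.card * ((2 * Real.exp 2 / κ) ^ (1 / (y : ℝ)) * Gam w y) := by
  have hW := Wp_pos w
  have hWr : (0 : ℝ) < Wp w := by exact_mod_cast hW
  have hBc : 0 < B.card := card_pos.2 ⟨b, hb⟩
  have hBr : (0 : ℝ) < B.card := by exact_mod_cast hBc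
  have hy0 : (0 : ℝ) < y := by exact_mod_cast hy
  -- moments
  have hF : ∀ h, 0 ≤ gw y z h ^ y := fun h => pow_nonneg (zero_le_one.trans (one_le_gw y z h)) y
  have h1 : ∑ b' ∈ B.erase b, gw y z (Nat.dist b b') ^ y ≤ 2 * (M / Wp w) * Real.exp 2 := by
    rw [← sum_filter_add_sum_filter_not (B.erase b) (fun x => x < b)]
    have hJ : ∑ j ∈ Icc 1 (M / Wp w), gw y z (Wp w * j) ^ y ≤ (M / Wp w) * Real.exp 2 := by
      calc ∑ j ∈ Icc 1 (M / Wp w), gw y z (Wp w * j) ^ y = ∑ j ∈ Icc 1 (M / Wp w), gw y z j ^ y :=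
            sum_congr rfl fun j _ => by rw [gw_mul_W hwy]
        _ ≤ ((M / Wp w : ℕ) : ℝ) * Real.exp 2 := moment y z _ hy
        _ ≤ _ := mul_le_mul_of_nonneg_right Nat.cast_div_le (Real.exp_pos 2).le
    have hbM := hB b hb
    have h2 : ∑ x ∈ (B.erase b).filter (fun x => x < b), gw y z (Nat.dist b x) ^ y ≤
        ∑ j ∈ Icc 1 (M / Wp w), gw y z (Wp w * j) ^ y := by
      apply sum_side _ (Wp w) M (fun h => gw y z h ^ y) hF (fun x => Nat.dist b x)
      · intro x hx x' hx' h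
        rw [mem_filter] at hx hx'
        simp only [Nat.dist] at h
        omega
      · intro x hx
        rw [mem_filter, mem_erase] at hx
        obtain ⟨⟨hx1, hx2⟩, hx3⟩ := hx
        have e : Nat.dist b x = b - x := by simp only [Nat.dist]; omega
        simp only [e]
        refine ⟨by omega, by omega, ?_⟩
        exact (Nat.modEq_iff_dvd' hx3.le).1 (hc x hx2 b hb)
    have h3 : ∑ x ∈ (B.erase b).filter (fun x => ¬ x < b), gw y z (Nat.dist b x) ^ y ≤
        ∑ j ∈ Icc 1 (M / Wp w), gw y z (Wp w * j) ^ y := by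
      apply sum_side _ (Wp w) M (fun h => gw y z h ^ y) hF (fun x => Nat.dist b x)
      · intro x hx x' hx' h
        rw [mem_filter] at hx hx'
        simp only [Nat.dist] at h
        omega
      · intro x hx
        rw [mem_filter, mem_erase] at hx
        obtain ⟨⟨hx1, hx2⟩, hx3⟩ := hx
        have hxM := hB x hx2
        have e : Nat.dist b x = x - b := by simp only [Nat.dist]; omega
        simp only [e]
        refine ⟨by omega, by omega, ?_⟩
        exact (Nat.modEq_iff_dvd' (by omega)).1 (hc b hb x hx2)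
    linarith
  -- power mean
  obtain ⟨n, rfl⟩ : ∃ n, y = n + 1 := ⟨y - 1, by omega⟩
  have h2 := pow_sum_div_card_le_sum_pow (s := B.erase b) (f := fun b' => gw (n + 1) z (Nat.dist b b'))
    (fun b' _ => zero_le_one.trans (one_le_gw _ _ _)) n
  set Sg := ∑ b' ∈ B.erase b, gw (n + 1) z (Nat.dist b b') with hSg
  have hSg0 : 0 ≤ Sg := sum_nonneg fun b' _ => zero_le_one.trans (one_le_gw _ _ _)
  have h3 : Sg ^ (n + 1) ≤ (B.card : ℝ) ^ (n + 1) * (2 * Real.exp 2 / κ) := by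
    rcases Nat.eq_zero_or_pos (B.erase b).card with h0 | h0
    · have : B.erase b = ∅ := card_eq_zero.1 h0
      rw [hSg, this, sum_empty, zero_pow (by omega)]
      positivity
    · have h0r : (0 : ℝ) < (B.erase b).card := by exact_mod_cast h0
      rw [div_le_iff₀ (by positivity)] at h2
      have h4 : ((B.erase b).card : ℝ) ≤ B.card := by exact_mod_cast card_le_card (erase_subset b B)
      have h5 : ((B.erase b).card : ℝ) ^ n ≤ (B.card : ℝ) ^ n := pow_le_pow_left₀ h0r.le h4 n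
      have h6 : (M : ℝ) / Wp w ≤ B.card / κ := by
        rw [le_div_iff₀ hκ, mul_comm]
        exact hcard
      calc Sg ^ (n + 1) ≤ _ := h2
        _ ≤ (2 * (M / Wp w) * Real.exp 2) * (B.card : ℝ) ^ n := by
            apply mul_le_mul h1 h5 (by positivity)
            have := Real.exp_pos 2
            positivity
        _ ≤ (2 * (B.card / κ) * Real.exp 2) * (B.card : ℝ) ^ n := by
            have := Real.exp_pos 2
            gcongr
        _ = _ := by
            rw [pow_succ]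
            field_simp
  have h4 : Sg ≤ B.card * (2 * Real.exp 2 / κ) ^ (1 / ((n + 1 : ℕ) : ℝ)) := by
    have hpos : 0 < 2 * Real.exp 2 / κ := by have := Real.exp_pos 2; positivity
    have h5 : (B.card * (2 * Real.exp 2 / κ) ^ (1 / ((n + 1 : ℕ) : ℝ))) ^ (n + 1) =
        (B.card : ℝ) ^ (n + 1) * (2 * Real.exp 2 / κ) := by
      rw [mul_pow]
      congr 1
      rw [← Real.rpow_natCast, ← Real.rpow_mul hpos.le, one_div, inv_mul_cancel₀ hy0.ne', Real.rpow_one]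
    rw [← h5] at h3
    exact le_of_pow_le_pow_left₀ (by omega) (by positivity) h3
  have hG := one_le_Gam w (n + 1)
  calc ∑ b' ∈ B.erase b, gw w z (Nat.dist b b')
      ≤ ∑ b' ∈ B.erase b, Gam w (n + 1) * gw (n + 1) z (Nat.dist b b') :=
        sum_le_sum fun b' _ => gw_split hwy z _
    _ = Gam w (n + 1) * Sg := by rw [← mul_sum]
    _ ≤ Gam w (n + 1) * (B.card * (2 * Real.exp 2 / κ) ^ (1 / ((n + 1 : ℕ) : ℝ))) :=
        mul_le_mul_of_nonneg_left h4 (by linarith)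
    _ = _ := by ring

end Pool.Agent.TH881
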