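import Mathlib
import Pool.Agent.TH881.Hol

/-! First and second moments of the convolution of a set with the sieve model. -/

set_option autoImplicit false

namespace Pool.Agent.TH881
open Finset
open Pool.Agent.H373R2.T7

/-- the integers of `(M, M + H]` in the class of `t` modulo `Wp w` -/
def It (w M H t : ℕ) : Finset ℕ := (Ioc M (M + H)).filter (fun n => n ≡ t [MOD Wp w])

lemma totient_Wp (w : ℕ) : ((Nat.totient (Wp w) : ℕ) : ℝ) = Wp w * Vz w := by
  have hsq : (Wp w).primeFactors = pz w := by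
    ext p
    rw [Nat.mem_primeFactors, mem_pz]
    constructor
    · rintro ⟨h1, h2, _⟩
      exact ⟨(prime_dvd_Wp h1).1 h2, h1⟩
    · rintro ⟨h1, h2⟩
      exact ⟨h2, (prime_dvd_Wp h2).2 h1, (Wp_pos w).ne'⟩
  have h1 := Nat.totient_eq_mul_prod_factors (Wp w)
  rw [hsq] at h1
  have h2 : ((Nat.totient (Wp w) : ℕ) : ℝ) = (((Nat.totient (Wp w) : ℕ) : ℚ) : ℝ) := by push_cast; rfl
  rw [h2, h1]
  unfold Vz
  push_cast
  congr 1
  apply prod_congr rfl
  intro p _
  rw [one_div]

/-- second moment -/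
lemma second_moment (E V : ℕ) : ∃ N0 : ℕ, ∀ N : ℕ, N0 ≤ N → ∀ z : ℕ, 1 ≤ z → (z : ℝ) ≤ Real.log N ^ E →
    ∀ w : ℕ, w ≤ z → ∀ y : ℕ, w ≤ y → 1 ≤ y → ∀ M H t : ℕ, M < t → t ≤ M + Wp w →
    ∀ B : Finset ℕ, (∀ b ∈ B, b ≤ M) → (∀ b ∈ B, ∀ b' ∈ B, b ≡ b' [MOD Wp w]) →
    ∀ κ : ℝ, 0 < κ → κ * (M / Wp w) ≤ B.card →
    ∑ n ∈ It w M H t, cv (lamz z) B n ^ 2 ≤
      ((H : ℝ) / Wp w + 1) * ((Vz w)⁻¹ * B.card) ^ 2 * ((2 * Real.exp 2 / κ) ^ (1 / (y : ℝ)) * Gam w y) +
      (B.card : ℝ) ^ 2 * (((H : ℝ) / Wp w + 1) / Real.log N ^ V + √(N : ℝ)) +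
      (B.card : ℝ) * (((H : ℝ) / Wp w + 1) * (z : ℝ) ^ 2) := by
  obtain ⟨N0, h0⟩ := corr E V
  refine ⟨N0, fun N hN z hz hzE w hwz y hwy hy M H t hMt htM B hB hc κ hκ hcard => ?_⟩
  have hcorr := h0 N hN z hz hzE w hwz
  have hW := Wp_pos w
  set W := Wp w with hWd
  have hWr : (0 : ℝ) < W := by exact_mod_cast hW
  set X := H / W + 1 with hX
  have hXr : (X : ℝ) ≤ (H : ℝ) / W + 1 := by
    rw [hX]
    push_cast
    have : ((H / W : ℕ) : ℝ) ≤ (H : ℝ) / W := Nat.cast_div_le
    linarith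
  have hcvt : ∀ m : ℕ, cv (lamz z) B (t + W * m) = ∑ b ∈ B, lamz z (t + W * m - b) := by
    intro m
    unfold cv
    apply sum_congr _ (fun _ _ => rfl)
    apply filter_true_of_mem
    intro b hb
    have := hB b hb
    have : 0 ≤ W * m := Nat.zero_le _
    omega
  -- to the progression
  have h1 : ∑ n ∈ It w M H t, cv (lamz z) B n ^ 2 ≤ ∑ m ∈ range X, cv (lamz z) B (t + W * m) ^ 2 := by
    have hinj : Set.InjOn (fun m => t + W * m) ((range X : Finset ℕ) : Set ℕ) := by
      intro a _ b _ hab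
      simp only at hab
      have : W * a = W * b := by omega
      exact Nat.eq_of_mul_eq_mul_left hW this
    rw [← sum_image (f := fun n => cv (lamz z) B n ^ 2) hinj]
    apply sum_le_sum_of_subset_of_nonneg
    · intro n hn
      unfold It at hn
      rw [mem_filter, mem_Ioc] at hn
      obtain ⟨⟨h1, h2⟩, h3⟩ := hn
      have h4 : t ≤ n := by
        by_contra hcon
        have h5 : n < t := by omega
        have h6 := (Nat.modEq_iff_dvd' h5.le).1 h3
        have := Nat.le_of_dvd (by omega) h6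
        omega
      have h5 := (Nat.modEq_iff_dvd' h4).1 h3.symm
      obtain ⟨m, hm⟩ := h5
      rw [← hWd] at hm
      rw [mem_image]
      refine ⟨m, ?_, by omega⟩
      rw [mem_range, hX]
      have h6 : W * m ≤ H := by omega
      have h7 : m ≤ H / W := (Nat.le_div_iff_mul_le hW).2 (by rw [mul_comm]; exact h6)
      omega
    · intro n _ _
      positivity
  refine h1.trans ?_
  -- expand
  have h2 : ∑ m ∈ range X, cv (lamz z) B (t + W * m) ^ 2 =
      ∑ b ∈ B, (∑ m ∈ range X, lamz z (t + W * m - b) * lamz z (t + W * m - b) +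
        ∑ b' ∈ B.erase b, ∑ m ∈ range X, lamz z (t + W * m - b) * lamz z (t + W * m - b')) := by
    have h3 : ∀ m ∈ range X, cv (lamz z) B (t + W * m) ^ 2 =
        ∑ b ∈ B, ∑ b' ∈ B, lamz z (t + W * m - b) * lamz z (t + W * m - b') := by
      intro m _
      rw [hcvt m, sq, sum_mul_sum]
    rw [sum_congr rfl h3, sum_comm]
    apply sum_congr rfl
    intro b hb
    rw [sum_comm, ← add_sum_erase B _ hb]
  rw [h2]
  have hz0 : (0 : ℝ) ≤ z := Nat.cast_nonneg z
  have hdiag : ∀ b ∈ B, ∑ m ∈ range X, lamz z (t + W * m - b) * lamz z (t + W * m - b) ≤ X * (z : ℝ) ^ 2 := by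
    intro b _
    calc ∑ m ∈ range X, lamz z (t + W * m - b) * lamz z (t + W * m - b) ≤ ∑ m ∈ range X, (z : ℝ) * z := by
          apply sum_le_sum
          intro m _
          exact mul_le_mul (lamz_le z hz _) (lamz_le z hz _) (lamz_nonneg z _) hz0
      _ = _ := by rw [sum_const, card_range, nsmul_eq_mul]; ring
  have hoff : ∀ b ∈ B, ∀ b' ∈ B.erase b, ∑ m ∈ range X, lamz z (t + W * m - b) * lamz z (t + W * m - b') ≤
      X * ((Vz w)⁻¹ ^ 2 * gw w z (Nat.dist b b')) + X / Real.log N ^ V + √(N : ℝ) := by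
    intro b hb b' hb'
    rw [mem_erase] at hb'
    have hbM := hB b hb
    have hbM' := hB b' hb'.2
    rcases lt_or_gt_of_ne hb'.1 with h | h
    · have h3 := hcorr X (t - b) (b - b')
      have e1 : Nat.dist b b' = b - b' := by simp only [Nat.dist]; omega
      rw [e1]
      refine le_trans (le_of_eq ?_) h3
      apply sum_congr rfl
      intro m _
      congr 2
      · omega
      · omega
    · have h3 := hcorr X (t - b') (b' - b)
      have e1 : Nat.dist b b' = b' - b := by simp only [Nat.dist]; omega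
      rw [e1]
      refine le_trans (le_of_eq ?_) h3
      apply sum_congr rfl
      intro m _
      rw [mul_comm]
      congr 2
      · omega
      · omega
  have hV0 : 0 < (Vz w)⁻¹ := inv_pos.2 (Vz_pos w)
  have hX0 : (0 : ℝ) ≤ X := Nat.cast_nonneg X
  set Γ' := (2 * Real.exp 2 / κ) ^ (1 / (y : ℝ)) * Gam w y with hΓ
  have hΓ0 : 0 ≤ Γ' := by
    rw [hΓ]
    have := one_le_Gam w y
    have := Real.exp_pos 2
    positivity
  by_cases hL : 0 ≤ Real.log N ^ V
  swap
  · exfalso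
    apply hL
    apply pow_nonneg
    exact Real.log_natCast_nonneg N
  have hb_total : ∀ b ∈ B, (∑ m ∈ range X, lamz z (t + W * m - b) * lamz z (t + W * m - b) +
        ∑ b' ∈ B.erase b, ∑ m ∈ range X, lamz z (t + W * m - b) * lamz z (t + W * m - b')) ≤
      X * (z : ℝ) ^ 2 + (X * ((Vz w)⁻¹ ^ 2 * (B.card * Γ')) + B.card * (X / Real.log N ^ V + √(N : ℝ))) := by
    intro b hb
    apply add_le_add (hdiag b hb)
    refine (sum_le_sum (hoff b hb)).trans ?_
    have h3 : ∑ b' ∈ B.erase b, (X * ((Vz w)⁻¹ ^ 2 * gw w z (Nat.dist b b')) + X / Real.log N ^ V + √(N : ℝ)) =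
        X * ((Vz w)⁻¹ ^ 2 * ∑ b' ∈ B.erase b, gw w z (Nat.dist b b')) +
          (B.erase b).card * (X / Real.log N ^ V + √(N : ℝ)) := by
      rw [sum_add_distrib, sum_add_distrib, ← mul_sum, ← mul_sum, sum_const, sum_const, nsmul_eq_mul,
        nsmul_eq_mul]
      ring
    rw [h3]
    have h4 := avg_gw w y z M hwy hy B hB hc κ hκ hcard b hb
    have h5 : ((B.erase b).card : ℝ) ≤ B.card := by exact_mod_cast card_le_card (erase_subset b B)
    apply add_le_add
    · apply mul_le_mul_of_nonneg_left _ hX0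
      exact mul_le_mul_of_nonneg_left h4 (by positivity)
    · apply mul_le_mul_of_nonneg_right h5
      positivity
  refine (sum_le_sum hb_total).trans ?_
  rw [sum_const, nsmul_eq_mul]
  have e : (B.card : ℝ) * (X * (z : ℝ) ^ 2 + (X * ((Vz w)⁻¹ ^ 2 * (B.card * Γ')) + B.card * (X / Real.log N ^ V + √(N : ℝ)))) =
      X * ((Vz w)⁻¹ * B.card) ^ 2 * Γ' + (B.card : ℝ) ^ 2 * (X / Real.log N ^ V + √(N : ℝ)) + B.card * (X * (z : ℝ) ^ 2) := by
    ring
  rw [e]
  gcongr

/-- first moment -/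
lemma first_moment (E V : ℕ) : ∃ N0 : ℕ, ∀ N : ℕ, N0 ≤ N → ∀ z : ℕ, 1 ≤ z → (z : ℝ) ≤ Real.log N ^ E →
    ∀ w : ℕ, Wp w ≤ z → ∀ M H t : ℕ, M < t → M + H ≤ N →
    ∀ B : Finset ℕ, (∀ b ∈ B, b ≤ M) → (∀ b ∈ B, (t - b).Coprime (Wp w)) →
    (B.card : ℝ) * ((Vz w)⁻¹ * (H / Wp w) - 2 * (N / Real.log N ^ V)) ≤ ∑ n ∈ It w M H t, cv (lamz z) B n := by
  obtain ⟨N0, h0⟩ := lamz_ap E V
  refine ⟨N0, fun N hN z hz hzE w hWz M H t hMt hMH B hB hcop => ?_⟩
  have hap := h0 N hN z hz hzE (Wp w) (Wp_pos w) hWz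
  have hW := Wp_pos w
  set W := Wp w with hWd
  have hWr : (0 : ℝ) < W := by exact_mod_cast hW
  have h1 : ∑ n ∈ It w M H t, cv (lamz z) B n = ∑ b ∈ B, ∑ n ∈ It w M H t, lamz z (n - b) := by
    rw [sum_comm]
    apply sum_congr rfl
    intro n hn
    unfold cv
    apply sum_congr _ (fun _ _ => rfl)
    apply filter_true_of_mem
    intro b hb
    have := hB b hb
    unfold It at hn
    rw [mem_filter, mem_Ioc] at hn
    omega
  rw [h1, ← nsmul_eq_mul, ← sum_const]
  apply sum_le_sum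
  intro b hb
  have hbM := hB b hb
  have h2 : ∑ n ∈ It w M H t, lamz z (n - b) =
      ∑ k ∈ (Icc 1 (M + H - b)).filter (fun k => k ≡ t - b [MOD W]), lamz z k -
      ∑ k ∈ (Icc 1 (M - b)).filter (fun k => k ≡ t - b [MOD W]), lamz z k := by
    have h3 : (Icc 1 (M + H - b)).filter (fun k => k ≡ t - b [MOD W]) =
        (Icc 1 (M - b)).filter (fun k => k ≡ t - b [MOD W]) ∪
        (It w M H t).image (fun n => n - b) := by
      ext k
      unfold It
      rw [mem_union, mem_filter, mem_filter, mem_image, mem_Icc, mem_Icc]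
      constructor
      · rintro ⟨⟨h1, h2⟩, h3⟩
        by_cases h4 : k ≤ M - b
        · exact Or.inl ⟨⟨h1, h4⟩, h3⟩
        · right
          refine ⟨k + b, ?_, by omega⟩
          rw [mem_filter, mem_Ioc]
          refine ⟨⟨by omega, by omega⟩, ?_⟩
          have h5 := Nat.ModEq.add_right b h3
          have h6 : t - b + b = t := by omega
          rwa [h6] at h5
      · rintro (⟨⟨h1, h2⟩, h3⟩ | ⟨n, hn, rfl⟩)
        · exact ⟨⟨h1, by omega⟩, h3⟩
        · rw [mem_filter, mem_Ioc] at hn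
          obtain ⟨⟨h4, h5⟩, h6⟩ := hn
          refine ⟨⟨by omega, by omega⟩, ?_⟩
          apply Nat.ModEq.add_right_cancel' b
          have h7 : t - b + b = t := by omega
          have h8 : n - b + b = n := by omega
          rw [h7, h8]
          exact h6
    have hdis : Disjoint ((Icc 1 (M - b)).filter (fun k => k ≡ t - b [MOD W]))
        ((It w M H t).image (fun n => n - b)) := by
      rw [disjoint_left]
      intro k hk hk2
      rw [mem_filter, mem_Icc] at hk
      rw [mem_image] at hk2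
      obtain ⟨n, hn, rfl⟩ := hk2
      unfold It at hn
      rw [mem_filter, mem_Ioc] at hn
      omega
    rw [h3, sum_union hdis, add_sub_cancel_left, sum_image]
    intro x hx y hy hxy
    have hx' : x ∈ It w M H t := hx
    have hy' : y ∈ It w M H t := hy
    unfold It at hx' hy'
    rw [mem_filter, mem_Ioc] at hx' hy'
    simp only at hxy
    omega
  rw [h2]
  have h3 := hap (t - b) (M + H - b) (by omega)
  have h4 := hap (t - b) (M - b) (by omega)
  rw [if_pos (hcop b hb)] at h3 h4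
  rw [totient_Wp] at h3 h4
  rw [abs_le] at h3 h4
  have h5 : ((M + H - b : ℕ) : ℝ) = M + H - b := by
    rw [Nat.cast_sub (by omega)]
    push_cast
    ring
  have h6 : ((M - b : ℕ) : ℝ) = M - b := by rw [Nat.cast_sub hbM]
  rw [h5] at h3
  rw [h6] at h4
  have hVw := Vz_pos w
  have h7 : (Vz w)⁻¹ * (H / W) = ((M : ℝ) + H - b) / (W * Vz w) - ((M : ℝ) - b) / (W * Vz w) := by
    rw [← sub_div]
    have : (M : ℝ) + H - b - (M - b) = H := by ring
    rw [this]
    field_simp
  rw [h7]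
  linarith [h3.1, h4.2]

end Pool.Agent.TH881
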