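import Mathlib
import Pool.Agent.TH881.Dens

/-! Periodic sets and the upper bound for `f*`. -/

set_option autoImplicit false

namespace Pool.Agent.TH881
open Finset Filter Topology

/-- the positive integers whose residue class modulo `W` lies in `C` -/
def per (W : ℕ) (C : Finset (ZMod W)) : Set ℕ := {n | 1 ≤ n ∧ (n : ZMod W) ∈ C}

lemma card_class (W n v : ℕ) (hW : 0 < W) :
    |((((Icc 1 n).filter (fun m => m ≡ v [MOD W])).card : ℕ) : ℝ) - n / W| ≤ 1 := by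
  have h1 := Nat.Ioc_filter_modEq_card 0 n hW v
  have h2 : Ioc 0 n = Icc 1 n := by
    ext a; rw [mem_Ioc, mem_Icc]; omega
  rw [h2] at h1
  have hWR : (0 : ℝ) < W := by exact_mod_cast hW
  have h3 : ((((Icc 1 n).filter (fun m => m ≡ v [MOD W])).card : ℕ) : ℝ) =
      max ((⌊((n : ℚ) - v) / W⌋ : ℝ) - ⌊(((0 : ℕ) : ℚ) - v) / W⌋) 0 := by
    have h4 := congrArg (fun z : ℤ => (z : ℝ)) h1
    push_cast at h4 ⊢
    exact h4
  rw [h3]
  have h5 : (⌊((n : ℚ) - v) / W⌋ : ℝ) = (⌊((n : ℝ) - v) / W⌋ : ℝ) := by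
    have : ⌊((n : ℚ) - v) / W⌋ = ⌊((n : ℝ) - v) / W⌋ := by
      rw [← Rat.floor_cast (α := ℝ)]
      push_cast
      rfl
    rw [this]
  have h6 : (⌊(((0 : ℕ) : ℚ) - v) / W⌋ : ℝ) = (⌊((0 : ℝ) - v) / W⌋ : ℝ) := by
    have : ⌊(((0 : ℕ) : ℚ) - v) / W⌋ = ⌊((0 : ℝ) - v) / W⌋ := by
      rw [← Rat.floor_cast (α := ℝ)]
      push_cast
      rfl
    rw [this]
  rw [h5, h6]
  have h7 := Int.floor_le (((n : ℝ) - v) / W)
  have h8 := Int.lt_floor_add_one (((n : ℝ) - v) / W)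
  have h9 := Int.floor_le (((0 : ℝ) - v) / W)
  have h10 := Int.lt_floor_add_one (((0 : ℝ) - v) / W)
  have h11 : ((n : ℝ) - v) / W - ((0 : ℝ) - v) / W = n / W := by ring
  have h12 : (0 : ℝ) ≤ (n : ℝ) / W := by positivity
  rw [abs_le]
  constructor
  · have := le_max_left ((⌊((n : ℝ) - v) / W⌋ : ℝ) - ⌊((0 : ℝ) - v) / W⌋) 0
    linarith
  · rw [sub_le_iff_le_add]
    apply max_le
    · linarith
    · linarith

lemma cnt_per (W : ℕ) (hW : 0 < W) (C : Finset (ZMod W)) (n : ℕ) :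
    |(cnt (per W C) n : ℝ) - (C.card / W : ℝ) * n| ≤ C.card := by
  classical
  have : NeZero W := ⟨hW.ne'⟩
  have h1 : (cnt (per W C) n : ℝ) =
      ∑ c ∈ C, ((((Icc 1 n).filter (fun m => m ≡ c.val [MOD W])).card : ℕ) : ℝ) := by
    rw [← Nat.cast_sum]
    congr 1
    unfold cnt
    rw [card_eq_sum_card_fiberwise (s := (Icc 1 n).filter (fun a => a ∈ per W C)) (t := C)
      (f := fun m : ℕ => (m : ZMod W))]
    · apply sum_congr rfl
      intro c hc
      congr 1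
      ext m
      rw [mem_filter, mem_filter, mem_filter]
      constructor
      · rintro ⟨⟨h2, h3⟩, h4⟩
        refine ⟨h2, ?_⟩
        rw [← ZMod.natCast_eq_natCast_iff, ZMod.natCast_zmod_val]
        exact h4
      · rintro ⟨h2, h3⟩
        rw [← ZMod.natCast_eq_natCast_iff, ZMod.natCast_zmod_val] at h3
        refine ⟨⟨h2, (mem_Icc.1 h2).1, ?_⟩, h3⟩
        rw [h3]
        exact hc
    · intro m hm
      exact (mem_filter.1 hm).2.2
  have h2 : (C.card / W : ℝ) * n = ∑ c ∈ C, (n / W : ℝ) := by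
    rw [sum_const, nsmul_eq_mul]
    ring
  rw [h1, h2, ← sum_sub_distrib]
  refine (abs_sum_le_sum_abs _ _).trans ?_
  calc ∑ c ∈ C, |((((Icc 1 n).filter (fun m => m ≡ c.val [MOD W])).card : ℕ) : ℝ) - n / W|
      ≤ ∑ c ∈ C, (1 : ℝ) := sum_le_sum fun c _ => card_class W n c.val hW
    _ = C.card := by simp

lemma lowerDensity_per (W : ℕ) (hW : 0 < W) (C : Finset (ZMod W)) :
    lowerDensity (per W C) = C.card / W :=
  lowerDensity_of_bounds (cnt_per W hW C)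

/-- the upper bound for `f*` by periodic sets -/
lemma fstar_le_card (W : ℕ) (hW : 0 < W) (C T : Finset (ZMod W))
    (hT : ∀ c ∈ C, ∀ p : ℕ, p.Prime → c + (p : ZMod W) ∈ T) (x : ℝ) (hx0 : 0 < x)
    (hx : x * W ≤ C.card) : fstar x ≤ T.card / W := by
  have hWR : (0 : ℝ) < W := by exact_mod_cast hW
  have hd : x ≤ C.card / W := by rwa [le_div_iff₀ hWR]
  obtain ⟨B, hB, hB1, hBx⟩ := exists_subset (per W C) (fun a ha => ha.1) (C.card / W) C.card
    (lt_of_lt_of_le hx0 hd) (cnt_per W hW C) x hx0.le hd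
  refine (fstar_le hB1 hBx).trans ?_
  rw [← lowerDensity_per W hW T]
  apply lowerDensity_mono
  rintro n ⟨a, ha, p, hp, rfl⟩
  have h1 := hB ha
  refine ⟨?_, ?_⟩
  · have := h1.1
    omega
  · push_cast
    exact hT _ h1.2 p hp

end Pool.Agent.TH881
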