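import Mathlib
import Pool.Agent.TH881.Per
import Pool.Agent.TH881.Mom
import Pool.Agent.TH881.Hol

/-! Explicit periodic sets near `0` and near `1`. -/

set_option autoImplicit false

namespace Pool.Agent.TH881
open Finset Filter Topology

/-- the classes modulo `D` coprime to `W`, and those of the prime factors of `W` -/
def PT (D W : ℕ) : Finset (ZMod D) :=
  ((range D).filter (fun n => W.Coprime n)).image (fun n : ℕ => (n : ZMod D)) ∪
    W.primeFactors.image (fun n : ℕ => (n : ZMod D))

lemma prime_mem_PT {D W p : ℕ} (hD : 0 < D) (hWD : W ∣ D) (hp : p.Prime) :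
    (p : ZMod D) ∈ PT D W := by
  unfold PT
  rw [mem_union, mem_image, mem_image]
  have hW : W ≠ 0 := by
    rintro rfl
    rw [zero_dvd_iff] at hWD
    omega
  by_cases h : p ∣ W
  · right
    exact ⟨p, Nat.mem_primeFactors.2 ⟨hp, h, hW⟩, rfl⟩
  · left
    refine ⟨p % D, ?_, ?_⟩
    · rw [mem_filter, mem_range]
      refine ⟨Nat.mod_lt _ hD, ?_⟩
      have h1 : p % D ≡ p [MOD W] := (Nat.mod_modEq p D).of_dvd hWD
      have h2 : Nat.Coprime p W := (Nat.Prime.coprime_iff_not_dvd hp).2 h
      have h3 := h1.gcd_eq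
      unfold Nat.Coprime at h2 ⊢
      rw [Nat.gcd_comm, h3, h2]
    · exact (ZMod.natCast_eq_natCast_iff _ _ _).2 (Nat.mod_modEq p D)

lemma card_PT_le {W m : ℕ} (hW : 0 < W) :
    (PT (W * m) W).card ≤ W.totient * (m + 1) + W.primeFactors.card := by
  unfold PT
  refine (card_union_le _ _).trans ?_
  apply add_le_add
  · refine card_image_le.trans ?_
    have h1 := Nat.Ico_filter_coprime_le (a := W) 0 (W * m) (by omega)
    rw [zero_add, Nat.Ico_zero_eq_range, Nat.mul_div_cancel_left m hW] at h1
    exact h1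
  · exact card_image_le

/-- small densities -/
lemma fstar_le_zero {W m : ℕ} (hW : 0 < W) (hm : 0 < m) (x : ℝ) (hx : 0 < x)
    (hxm : x * (W * m) ≤ 1) :
    fstar x ≤ (W.totient * (m + 1) + W.primeFactors.card) / (W * m) := by
  have hD : 0 < W * m := Nat.mul_pos hW hm
  have h1 := fstar_le_card (W * m) hD {0} (PT (W * m) W) (by
    intro c hc p hp
    rw [mem_singleton] at hc
    rw [hc, zero_add]
    exact prime_mem_PT hD (Dvd.intro m rfl) hp) x hx (by
    rw [card_singleton]
    push_cast
    exact hxm)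
  refine h1.trans ?_
  have h2 : ((PT (W * m) W).card : ℝ) ≤ W.totient * (m + 1) + W.primeFactors.card := by
    exact_mod_cast card_PT_le hW
  push_cast
  exact div_le_div_of_nonneg_right h2 (by positivity)

/-- densities near one -/
lemma fstar_le_one {W m : ℕ} (hW : 0 < W) (hm : 0 < m) (x : ℝ) (hx : 0 < x)
    (hxm : (W.totient * (m + 1) + W.primeFactors.card) / (W * m) ≤ 1 - x) :
    fstar x ≤ 1 - 1 / (W * m) := by
  classical
  have hD : 0 < W * m := Nat.mul_pos hW hm
  have : NeZero (W * m) := ⟨hD.ne'⟩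
  have hDR : (0 : ℝ) < (W * m : ℝ) := by exact_mod_cast hD
  have hcard : ((PT (W * m) W).card : ℝ) ≤ W.totient * (m + 1) + W.primeFactors.card := by
    exact_mod_cast card_PT_le hW
  have hneg : ((PT (W * m) W).image (fun r => -r)).card ≤ (PT (W * m) W).card := card_image_le
  have h1 := fstar_le_card (W * m) hD ((PT (W * m) W).image (fun r => -r))ᶜ ({0}ᶜ) (by
    intro c hc p hp
    rw [mem_compl, mem_singleton]
    intro h
    rw [mem_compl] at hc
    apply hc
    rw [mem_image]
    exact ⟨(p : ZMod (W * m)), prime_mem_PT hD (Dvd.intro m rfl) hp, (eq_neg_of_add_eq_zero_left h).symm⟩)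
    x hx (by
    rw [card_compl, ZMod.card, Nat.cast_sub (by
      have := card_le_univ ((PT (W * m) W).image (fun r => -r))
      rwa [ZMod.card] at this)]
    have h2 : (((PT (W * m) W).image (fun r => -r)).card : ℝ) ≤ (PT (W * m) W).card := by
      exact_mod_cast hneg
    rw [div_le_iff₀ hDR] at hxm
    push_cast
    nlinarith)
  refine h1.trans (le_of_eq ?_)
  rw [card_compl, ZMod.card, card_singleton, Nat.cast_sub (by omega)]
  push_cast
  field_simp

end Pool.Agent.TH881
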