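import Mathlib

/-! Real inequalities used in `Loc`. -/

set_option autoImplicit false

namespace Pool.Agent.TH881

lemma al_c1 {s n W X ε h : ℝ} (hs : 0 < s) (hss : s * s = n) (hX : 0 < X) (hW : 0 < W) (hε : 0 < ε)
    (h1 : W * X ≤ ε * s) (h2 : n / (W * X) ≤ h) : s ≤ ε * h := by
  have h3 : s ≤ ε * (n / (W * X)) := by
    rw [← mul_div_assoc, le_div_iff₀ (by positivity)]
    calc s * (W * X) ≤ s * (ε * s) := mul_le_mul_of_nonneg_left h1 hs.le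
      _ = ε * n := by rw [← hss]; ring
  exact h3.trans (mul_le_mul_of_nonneg_left h2 hε.le)

lemma al_c3 {s n X Y ε C : ℝ} (hs : 1 ≤ s) (hss : s * s = n) (hX : 0 < X) (hε : 0 < ε)
    (h1 : Y * X ≤ ε * s) (h2 : n / X ≤ C) : Y ≤ ε * C := by
  have h4 : s ≤ n := by rw [← hss]; nlinarith
  have h3 : Y ≤ ε * (n / X) := by
    rw [← mul_div_assoc, le_div_iff₀ hX]
    exact h1.trans (mul_le_mul_of_nonneg_left h4 hε.le)
  exact h3.trans (mul_le_mul_of_nonneg_left h2 hε.le)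

lemma al_c4 {s n X Y ε C : ℝ} (hs : 0 < s) (hss : s * s = n) (hX : 0 < X) (hε : 0 < ε)
    (h1 : Y * X ≤ ε * s) (h2 : n / X ≤ C) : s * Y ≤ ε * C := by
  have h3 : s * Y ≤ ε * (n / X) := by
    rw [← mul_div_assoc, le_div_iff₀ hX]
    calc s * Y * X = s * (Y * X) := by ring
      _ ≤ s * (ε * s) := mul_le_mul_of_nonneg_left h1 hs.le
      _ = ε * n := by rw [← hss]; ring
  exact h3.trans (mul_le_mul_of_nonneg_left h2 hε.le)

lemma al_S1 {n L X W ε h C v S : ℝ} (hL : 1 ≤ L) (hX : 0 < X) (hW : 0 < W) (hε : 0 < ε)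
    (hC : 0 < C) (hv : 1 ≤ v) (hh : 0 < h) (hWL : 2 * W ≤ ε * L) (h2 : n / (W * X) ≤ h)
    (h3 : C * (v * h - 2 * (n / (X * L ^ 2))) ≤ S) : (1 - ε) * (v * C * h) ≤ S := by
  refine le_trans ?_ h3
  have hL0 : 0 < L := by linarith
  have h4 : n / (X * L ^ 2) ≤ W * h / L ^ 2 := by
    rw [← div_div]
    apply div_le_div_of_nonneg_right _ (by positivity)
    calc n / X = W * (n / (W * X)) := by field_simp
      _ ≤ W * h := mul_le_mul_of_nonneg_left h2 hW.le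
  have h5 : L ≤ L ^ 2 := by nlinarith
  have h6 : 2 * (W * h / L ^ 2) ≤ ε * h := by
    rw [← mul_div_assoc, div_le_iff₀ (by positivity)]
    calc 2 * (W * h) = (2 * W) * h := by ring
      _ ≤ (ε * L) * h := mul_le_mul_of_nonneg_right hWL hh.le
      _ ≤ (ε * L ^ 2) * h := by
          apply mul_le_mul_of_nonneg_right _ hh.le
          exact mul_le_mul_of_nonneg_left h5 hε.le
      _ = _ := by ring
  have h7 : ε * h ≤ ε * (v * h) := by
    apply mul_le_mul_of_nonneg_left _ hε.le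
    nlinarith
  calc (1 - ε) * (v * C * h) = C * (v * h - ε * (v * h)) := by ring
    _ ≤ _ := by
      apply mul_le_mul_of_nonneg_left _ hC.le
      linarith

lemma al_S2 {L X ε h C v Γ s Z Q S2 : ℝ} (hε : 0 < ε) (hC : 0 < C) (hv : 1 ≤ v)
    (hh : 1 ≤ h) (hΓ : 1 ≤ Γ) (hs0 : 0 ≤ s) (hs : s ≤ ε * h) (h1h : 1 ≤ ε * h) (hX : 0 < X) (hL : 2 ≤ ε * L)
    (hLX : L ≤ X) (hZ : Z ≤ Q) (hZ0 : 0 ≤ Z) (hQ : 2 * Q ≤ ε * C)
    (h1 : S2 ≤ (h + 1) * (v * C) ^ 2 * Γ + C ^ 2 * ((h + 1) / X + s) + C * ((h + 1) * Z)) :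
    S2 ≤ (1 + 5 * ε) * ((v * C) ^ 2 * Γ * h) := by
  have hh0 : 0 < h := by linarith
  have e1 : h + 1 ≤ (1 + ε) * h := by linarith
  have e2 : (h + 1) / X ≤ ε * h := by
    rw [div_le_iff₀ hX]
    calc h + 1 ≤ 2 * h := by linarith
      _ ≤ (ε * L) * h := mul_le_mul_of_nonneg_right hL hh0.le
      _ ≤ (ε * X) * h := by
          apply mul_le_mul_of_nonneg_right _ hh0.le
          exact mul_le_mul_of_nonneg_left hLX hε.le
      _ = _ := by ring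
  have e3 : C ^ 2 ≤ (v * C) ^ 2 * Γ := by
    have h4 : C ^ 2 ≤ (v * C) ^ 2 := by
      apply pow_le_pow_left₀ hC.le
      nlinarith
    have h5 : 0 ≤ (v * C) ^ 2 := by positivity
    nlinarith
  have e4 : C * ((h + 1) * Z) ≤ ε * (C ^ 2 * h) := by
    have h6 : (h + 1) * Z ≤ (2 * h) * Q := by
      apply mul_le_mul (by linarith) hZ hZ0 (by positivity)
    calc C * ((h + 1) * Z) ≤ C * ((2 * h) * Q) := mul_le_mul_of_nonneg_left h6 hC.le
      _ = C * h * (2 * Q) := by ring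
      _ ≤ C * h * (ε * C) := mul_le_mul_of_nonneg_left hQ (by positivity)
      _ = _ := by ring
  have e5 : (h + 1) * (v * C) ^ 2 * Γ ≤ (1 + ε) * ((v * C) ^ 2 * Γ * h) := by
    calc (h + 1) * (v * C) ^ 2 * Γ ≤ ((1 + ε) * h) * (v * C) ^ 2 * Γ := by
          apply mul_le_mul_of_nonneg_right _ (by linarith)
          exact mul_le_mul_of_nonneg_right e1 (by positivity)
      _ = _ := by ring
  have e6 : C ^ 2 * ((h + 1) / X + s) ≤ 2 * ε * ((v * C) ^ 2 * Γ * h) := by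
    calc C ^ 2 * ((h + 1) / X + s) ≤ C ^ 2 * (ε * h + ε * h) := by
          apply mul_le_mul_of_nonneg_left _ (by positivity)
          linarith
      _ = (2 * ε * h) * C ^ 2 := by ring
      _ ≤ (2 * ε * h) * ((v * C) ^ 2 * Γ) := mul_le_mul_of_nonneg_left e3 (by positivity)
      _ = _ := by ring
  have e7 : ε * (C ^ 2 * h) ≤ ε * ((v * C) ^ 2 * Γ * h) := by
    apply mul_le_mul_of_nonneg_left _ hε.le
    exact mul_le_mul_of_nonneg_right e3 hh0.le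
  have e8 : 0 ≤ ε * ((v * C) ^ 2 * Γ * h) := by positivity
  calc S2 ≤ _ := h1
    _ ≤ (1 + ε) * ((v * C) ^ 2 * Γ * h) + 2 * ε * ((v * C) ^ 2 * Γ * h) + ε * ((v * C) ^ 2 * Γ * h) := by
        linarith
    _ ≤ _ := by linarith

lemma al_bad {n L X W ε h C D T : ℝ} (hL : 1 ≤ L) (hX : 1 ≤ X) (hW : 0 < W) (hε : 0 < ε)
    (hC : 0 < C) (hh : 0 < h) (hn : 0 < n) (hT : 0 ≤ T) (hWL : 2 * W ≤ ε ^ 2 * L) (h2 : n / (W * X) ≤ h)
    (h3 : n / X ≤ C) (hD : D ≤ 2 * h)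
    (h1 : T ^ 2 ≤ D * ((n / (X ^ 2 * L ^ 2)) ^ 2 * C)) : T ≤ ε * (C * h) := by
  have hL0 : 0 < L := by linarith
  have hX0 : 0 < X := by linarith
  have h5 : n ^ 2 / (W * X ^ 2) ≤ C * h := by
    calc n ^ 2 / (W * X ^ 2) = (n / X) * (n / (W * X)) := by field_simp
      _ ≤ C * h := mul_le_mul h3 h2 (by positivity) hC.le
  have h7 : T ^ 2 ≤ (ε * (C * h)) ^ 2 := by
    refine h1.trans ?_
    have h8 : D * ((n / (X ^ 2 * L ^ 2)) ^ 2 * C) ≤ (2 * h) * ((n / (X ^ 2 * L ^ 2)) ^ 2 * C) :=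
      mul_le_mul_of_nonneg_right hD (by positivity)
    refine h8.trans ?_
    have h9 : 2 * (n / (X ^ 2 * L ^ 2)) ^ 2 ≤ ε ^ 2 * (C * h) := by
      refine le_trans ?_ (mul_le_mul_of_nonneg_left h5 (by positivity))
      rw [div_pow, ← mul_div_assoc, ← mul_div_assoc, div_le_div_iff₀ (by positivity) (by positivity)]
      have e1 : L ≤ L ^ 4 := by
        calc L = L ^ 1 := (pow_one L).symm
          _ ≤ L ^ 4 := pow_le_pow_right₀ hL (by norm_num)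
      have e2 : 2 * W ≤ ε ^ 2 * L ^ 4 := hWL.trans (mul_le_mul_of_nonneg_left e1 (by positivity))
      have e3 : (1 : ℝ) ≤ X ^ 2 := one_le_pow₀ hX
      calc 2 * n ^ 2 * (W * X ^ 2) = (2 * W) * (n ^ 2 * X ^ 2) := by ring
        _ ≤ (ε ^ 2 * L ^ 4) * (n ^ 2 * X ^ 2) := mul_le_mul_of_nonneg_right e2 (by positivity)
        _ ≤ (ε ^ 2 * L ^ 4) * (n ^ 2 * X ^ 2) * X ^ 2 := le_mul_of_one_le_right (by positivity) e3
        _ = _ := by ring
    calc (2 * h) * ((n / (X ^ 2 * L ^ 2)) ^ 2 * C) = (2 * (n / (X ^ 2 * L ^ 2)) ^ 2) * (C * h) := by ring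
      _ ≤ (ε ^ 2 * (C * h)) * (C * h) := mul_le_mul_of_nonneg_right h9 (by positivity)
      _ = _ := by ring
  exact (pow_le_pow_iff_left₀ hT (by positivity) (by norm_num)).1 h7

lemma al_fin {ε h C v Γ G A S S2 bd1 bd2 : ℝ} (hε : 0 < ε) (hε1 : ε < 1 / 16) (hC : 0 < C) (hv : 1 ≤ v)
    (hh : 0 < h) (hΓ : 1 ≤ Γ) (hG : 0 ≤ G) (hS1 : (1 - ε) * (v * C * h) ≤ S) (hS : S ≤ A + (bd1 + bd2))
    (hb1 : bd1 ≤ ε * (C * h)) (hb2 : bd2 ≤ ε * (C * h)) (hA : A ^ 2 ≤ G * S2)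
    (hS2 : S2 ≤ (1 + 5 * ε) * ((v * C) ^ 2 * Γ * h)) : (1 - 16 * ε) * h / Γ ≤ G := by
  have hpos : 0 < v * C * h := by positivity
  have hCh : C * h ≤ v * C * h := by
    have : 0 < C * h := by positivity
    nlinarith
  have hA1 : (1 - 3 * ε) * (v * C * h) ≤ A := by
    have : ε * (C * h) ≤ ε * (v * C * h) := mul_le_mul_of_nonneg_left hCh hε.le
    linarith
  have h13 : 0 < 1 - 3 * ε := by linarith
  have hfin : ((1 - 3 * ε) * (v * C * h)) ^ 2 ≤ G * ((1 + 5 * ε) * ((v * C) ^ 2 * Γ * h)) :=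
    calc ((1 - 3 * ε) * (v * C * h)) ^ 2 ≤ A ^ 2 := pow_le_pow_left₀ (by positivity) hA1 2
      _ ≤ G * S2 := hA
      _ ≤ _ := mul_le_mul_of_nonneg_left hS2 hG
  have hfin2 : (1 - 3 * ε) ^ 2 * h ≤ G * ((1 + 5 * ε) * Γ) := by
    have h1 : 0 < (v * C) ^ 2 * h := by positivity
    have h2 : ((1 - 3 * ε) ^ 2 * h) * ((v * C) ^ 2 * h) ≤ (G * ((1 + 5 * ε) * Γ)) * ((v * C) ^ 2 * h) := by
      calc ((1 - 3 * ε) ^ 2 * h) * ((v * C) ^ 2 * h) = ((1 - 3 * ε) * (v * C * h)) ^ 2 := by ring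
        _ ≤ _ := hfin
        _ = _ := by ring
    exact le_of_mul_le_mul_right h2 h1
  have hΓ0 : 0 < Γ := by linarith
  rw [div_le_iff₀ hΓ0]
  have h5 : (1 - 16 * ε) * (1 + 5 * ε) ≤ (1 - 3 * ε) ^ 2 := by nlinarith
  have h6 : 0 < 1 + 5 * ε := by linarith
  have h7 : (1 - 16 * ε) * h * (1 + 5 * ε) ≤ (G * Γ) * (1 + 5 * ε) := by
    calc (1 - 16 * ε) * h * (1 + 5 * ε) = ((1 - 16 * ε) * (1 + 5 * ε)) * h := by ring
      _ ≤ (1 - 3 * ε) ^ 2 * h := mul_le_mul_of_nonneg_right h5 hh.le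
      _ ≤ _ := hfin2
      _ = _ := by ring
  exact le_of_mul_le_mul_right h7 h6

/-- the numerical requirements -/
lemma numeric (U K w W : ℕ) (hW : 1 ≤ W) (ε : ℝ) (hε : 0 < ε) (hε1 : ε < 1) : ∃ N0 : ℕ, ∀ N : ℕ, N0 ≤ N →
    4 ≤ Real.log N ∧ (W : ℝ) ≤ Real.log N ∧ (w : ℝ) ≤ Real.log N ∧ 2 * (W : ℝ) ≤ ε ^ 2 * Real.log N ∧
      2 * (W : ℝ) ≤ ε * Real.log N ∧ 2 ≤ ε * Real.log N ∧
      W * Real.log N ^ U ≤ ε * √(N : ℝ) ∧ (2 * Real.log N ^ K) * Real.log N ^ U ≤ ε * √(N : ℝ) ∧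
      (4 * Real.log N) * Real.log N ^ U ≤ ε * √(N : ℝ) := by
  have hW1 : (1 : ℝ) ≤ W := by exact_mod_cast hW
  have hlim : Filter.Tendsto (fun N : ℕ => Real.log (N : ℝ)) Filter.atTop Filter.atTop :=
    Real.tendsto_log_atTop.comp (tendsto_natCast_atTop_atTop (R := ℝ))
  have hev : ∀ (k : ℕ) (c : ℝ), 0 < c → ∀ᶠ N : ℕ in Filter.atTop, c * Real.log N ^ k ≤ √(N : ℝ) := by
    intro k c hc
    have h := (isLittleO_log_rpow_rpow_atTop (k : ℝ) (show (0 : ℝ) < 1 / 2 by norm_num)).bound (show 0 < 1 / c by positivity)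
    have h2 := (tendsto_natCast_atTop_atTop (R := ℝ)).eventually h
    filter_upwards [h2, Filter.eventually_ge_atTop 1] with x h3 hx
    have hx1 : (1 : ℝ) ≤ x := by exact_mod_cast hx
    have hl : 0 ≤ Real.log x := Real.log_nonneg hx1
    rw [Real.norm_of_nonneg (by positivity), Real.norm_of_nonneg (by positivity), Real.rpow_natCast, ← Real.sqrt_eq_rpow] at h3
    calc c * Real.log x ^ k ≤ c * (1 / c * √x) := mul_le_mul_of_nonneg_left h3 hc.le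
      _ = _ := by field_simp
  have hA := hlim.eventually_ge_atTop (2 * W / ε ^ 2 + W + w + 4)
  have hB := hev U (W / ε) (by positivity)
  have hC := hev (K + U) (2 / ε) (by positivity)
  have hD := hev (1 + U) (4 / ε) (by positivity)
  obtain ⟨N0, h0⟩ := Filter.eventually_atTop.1 (hA.and (hB.and (hC.and hD)))
  refine ⟨N0, fun N hN => ?_⟩
  obtain ⟨hA, hB, hC, hD⟩ := h0 N hN
  have q0 : 0 < 2 * (W : ℝ) / ε ^ 2 := by positivity
  have w0 : (0 : ℝ) ≤ w := Nat.cast_nonneg w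
  have hL : 4 ≤ Real.log N := by linarith
  have r1 : 2 * (W : ℝ) ≤ ε ^ 2 * Real.log N := by
    have h1 : 2 * (W : ℝ) / ε ^ 2 ≤ Real.log N := by linarith
    rw [div_le_iff₀ (by positivity)] at h1
    linarith
  have r2 : ε ^ 2 * Real.log N ≤ ε * Real.log N := by
    apply mul_le_mul_of_nonneg_right _ (by linarith)
    nlinarith
  have tr : ∀ (c : ℝ) (k : ℕ), c / ε * Real.log N ^ k ≤ √(N : ℝ) → c * Real.log N ^ k ≤ ε * √(N : ℝ) := by
    intro c k h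
    calc c * Real.log N ^ k = ε * (c / ε * Real.log N ^ k) := by field_simp
      _ ≤ _ := mul_le_mul_of_nonneg_left h hε.le
  refine ⟨hL, by linarith, by linarith, r1, r1.trans r2, by linarith, tr _ _ hB, ?_, ?_⟩
  · have := tr _ _ hC
    rw [pow_add] at this
    calc _ = 2 * (Real.log N ^ K * Real.log N ^ U) := by ring
      _ ≤ _ := this
  · have := tr _ _ hD
    rw [pow_add, pow_one] at this
    calc _ = 4 * (Real.log N * Real.log N ^ U) := by ring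
      _ ≤ _ := this

end Pool.Agent.TH881
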