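import Mathlib
import Pool.Agent.TH881.Mom
import Pool.Agent.TH881.Alg

/-! The sums of a set and the primes in a progression: lower bound for their number. -/

set_option autoImplicit false

namespace Pool.Agent.TH881
open Finset
open Pool.Agent.H373R2.T7
open Pool.Agent.H807R2.Dav

/-- `n` is the sum of an element of `B` and a prime -/
def Hit (B : Finset ℕ) (n : ℕ) : Prop := ∃ b ∈ B, ∃ p : ℕ, p.Prime ∧ b + p = n

/-- if `n` is not in `B + P` the von Mangoldt convolution is small -/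
lemma cv_not_hit (B : Finset ℕ) (N n : ℕ) (hN : 1 ≤ N) (hn : n ≤ N) (h : ¬ Hit B n) :
    cv (fun k => ArithmeticFunction.vonMangoldt k) B n ≤ 2 * √(N : ℝ) * Real.log N := by
  have hN1 : (1 : ℝ) ≤ N := by exact_mod_cast hN
  have h1 := Chebyshev.psi_sub_theta_eq_sum_not_prime (N : ℝ)
  have h2 := Chebyshev.psi_sub_theta_le hN1
  rw [h1, Nat.floor_natCast] at h2
  refine le_trans ?_ h2
  unfold cv
  have hinj : Set.InjOn (fun b => n - b) ((B.filter (· < n) : Finset ℕ) : Set ℕ) := by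
    intro a ha b hb hab
    rw [Finset.mem_coe, mem_filter] at ha hb
    simp only at hab
    omega
  rw [← sum_image (f := fun k => ArithmeticFunction.vonMangoldt k) hinj]
  apply sum_le_sum_of_subset_of_nonneg
  · intro k hk
    rw [mem_image] at hk
    obtain ⟨b, hb, rfl⟩ := hk
    rw [mem_filter] at hb
    rw [mem_filter, mem_Ioc]
    refine ⟨⟨by omega, by omega⟩, ?_⟩
    intro hp
    apply h
    exact ⟨b, hb.1, n - b, hp, by omega⟩
  · intro _ _ _
    exact ArithmeticFunction.vonMangoldt_nonneg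

lemma cv_sub (f g : ℕ → ℝ) (B : Finset ℕ) (n : ℕ) :
    cv (fun k => f k - g k) B n = cv f B n - cv g B n := by
  unfold cv
  rw [sum_sub_distrib]

lemma cv_nonneg (f : ℕ → ℝ) (hf : ∀ k, 0 ≤ f k) (B : Finset ℕ) (n : ℕ) : 0 ≤ cv f B n :=
  sum_nonneg fun _ _ => hf _

lemma card_It_le (w M H t : ℕ) (hMt : M < t) (htM : t ≤ M + Wp w) :
    ((It w M H t).card : ℝ) ≤ (H : ℝ) / Wp w + 1 := by
  have hW := Wp_pos w
  set W := Wp w with hWd
  have h1 : It w M H t ⊆ (range (H / W + 1)).image (fun m => t + W * m) := by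
    intro n hn
    unfold It at hn
    rw [mem_filter, mem_Ioc] at hn
    obtain ⟨⟨h1, h2⟩, h3⟩ := hn
    have h4 : t ≤ n := by
      by_contra hcon
      have h5 : n < t := by omega
      have h6 := (Nat.modEq_iff_dvd' h5.le).1 h3
      have := Nat.le_of_dvd (by omega) h6
      omega
    have h5 := (Nat.modEq_iff_dvd' h4).1 h3.symm
    obtain ⟨m, hm⟩ := h5
    rw [← hWd] at hm
    rw [mem_image]
    refine ⟨m, ?_, by omega⟩
    rw [mem_range]
    have h6 : W * m ≤ H := by omega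
    have h7 : m ≤ H / W := (Nat.le_div_iff_mul_le hW).2 (by rw [mul_comm]; exact h6)
    omega
  have h2 := (card_le_card h1).trans card_image_le
  rw [card_range] at h2
  calc ((It w M H t).card : ℝ) ≤ ((H / W + 1 : ℕ) : ℝ) := by exact_mod_cast h2
    _ = ((H / W : ℕ) : ℝ) + 1 := by push_cast; ring
    _ ≤ _ := by
      have : ((H / W : ℕ) : ℝ) ≤ (H : ℝ) / W := Nat.cast_div_le
      linarith

open Classical in
/-- the integers which are not hit carry a small part of the model -/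
lemma bad_part (B : Finset ℕ) (N z : ℕ) (hN : 1 ≤ N) (hB : ∀ b ∈ B, b ≤ N) (D : ℝ)
    (hsup : ∀ α : ℝ, ‖∑ n ∈ Icc 1 N, ((ArithmeticFunction.vonMangoldt n - lamz z n : ℝ) : ℂ) *
      ee ((n : ℝ) * α)‖ ≤ D) (I : Finset ℕ) (hI : I ⊆ Icc 1 N) (hbad : ∀ n ∈ I, ¬ Hit B n) :
    ∃ T : ℝ, 0 ≤ T ∧ T ^ 2 ≤ I.card * (D ^ 2 * B.card) ∧
      ∑ n ∈ I, cv (lamz z) B n ≤ I.card * (2 * √(N : ℝ) * Real.log N) + T := by
  have hl2 := l2conv (fun k => ArithmeticFunction.vonMangoldt k - lamz z k) N B hB D hsup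
  refine ⟨∑ n ∈ I, |cv (fun k => ArithmeticFunction.vonMangoldt k - lamz z k) B n|,
    sum_nonneg fun _ _ => abs_nonneg _, ?_, ?_⟩
  · refine (sq_sum_le_card_mul_sum_sq).trans ?_
    apply mul_le_mul_of_nonneg_left _ (Nat.cast_nonneg _)
    refine le_trans ?_ hl2
    simp_rw [sq_abs]
    exact sum_le_sum_of_subset_of_nonneg hI fun _ _ _ => by positivity
  · rw [← nsmul_eq_mul, ← sum_const, ← sum_add_distrib]
    apply sum_le_sum
    intro n hn
    have hnN := (mem_Icc.1 (hI hn)).2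
    have h1 := cv_not_hit B N n hN hnN (hbad n hn)
    have h2 := cv_sub (fun k => ArithmeticFunction.vonMangoldt k) (lamz z) B n
    have h3 := neg_abs_le (cv (fun k => ArithmeticFunction.vonMangoldt k - lamz z k) B n)
    rw [h2] at h3 ⊢
    linarith

open Classical in
/-- **Sums with primes in a progression.** -/
theorem primes_local (U w : ℕ) (ε : ℝ) (hε : 0 < ε) (hε1 : ε < 1) :
    ∃ N0 : ℕ, ∀ N : ℕ, N0 ≤ N → ∀ y : ℕ, w ≤ y → 1 ≤ y → ∀ M H t : ℕ, M < t → t ≤ M + Wp w →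
    M + H ≤ N → (N : ℝ) / Real.log N ^ U ≤ H →
    ∀ B : Finset ℕ, (∀ b ∈ B, b ≤ M) → (∀ b ∈ B, ∀ b' ∈ B, b ≡ b' [MOD Wp w]) →
    (∀ b ∈ B, (t - b).Coprime (Wp w)) → (N : ℝ) / Real.log N ^ U ≤ B.card →
    ∀ κ : ℝ, 0 < κ → κ ≤ 1 → κ * (M / Wp w) ≤ B.card →
    (1 - ε) * ((H : ℝ) / Wp w) / ((2 * Real.exp 2 / κ) ^ (1 / (y : ℝ)) * Gam w y) ≤
      (((It w M H t).filter (fun n => Hit B n)).card : ℝ) := by
  obtain ⟨ε1, hε1d⟩ : ∃ e : ℝ, e = ε / 16 := ⟨_, rfl⟩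
  have he0 : 0 < ε1 := by rw [hε1d]; positivity
  have he1 : ε1 < 1 / 16 := by rw [hε1d]; linarith
  obtain ⟨B0, hsup⟩ := sup_diff (2 * U + 2)
  obtain ⟨m1, hsup⟩ := hsup (B0 + 2)
  obtain ⟨m2, hsec⟩ := second_moment (B0 + 2) (U + 2)
  obtain ⟨m3, hfir⟩ := first_moment (B0 + 2) (U + 2)
  obtain ⟨m4, hnum⟩ := numeric U (2 * (B0 + 2)) w (Wp w) (Wp_pos w) ε1 he0 (by linarith)
  refine ⟨max (max m1 m2) (max m3 (max m4 3)), ?_⟩
  intro N hN y hwy hy M H t hMt htM hMH hH B hB hcls hcop hBc κ hκ hκ1 hcard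
  have hm1 : m1 ≤ N := le_trans (le_trans (le_max_left _ _) (le_max_left _ _)) hN
  have hm2 : m2 ≤ N := le_trans (le_trans (le_max_right _ _) (le_max_left _ _)) hN
  have hm3 : m3 ≤ N := le_trans (le_trans (le_max_left _ _) (le_max_right _ _)) hN
  have hm4 : m4 ≤ N := le_trans (le_trans (le_trans (le_max_left _ _) (le_max_right _ _)) (le_max_right _ _)) hN
  have hN3 : 3 ≤ N := le_trans (le_trans (le_trans (le_max_right _ _) (le_max_right _ _)) (le_max_right _ _)) hN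
  have a := hnum N hm4
  have b1 := hsup N hm1
  have b2 := hsec N hm2
  have b3 := hfir N hm3
  clear hnum hsup hsec hfir hN hm1 hm2 hm3 hm4
  have hWpos := Wp_pos w
  generalize hWd : Wp w = W at *
  have hN1 : 1 ≤ N := by omega
  have hNr : (3 : ℝ) ≤ N := by exact_mod_cast hN3
  have hN0 : (0 : ℝ) < N := by linarith
  have hW1 : (1 : ℝ) ≤ W := by exact_mod_cast hWpos
  have hWr : (0 : ℝ) < W := by linarith
  generalize hLd : Real.log (N : ℝ) = L at *
  obtain ⟨hL4, hLW, hLw, a1, a2, a3, a4, a5, a6⟩ := a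
  have hL0 : 0 < L := by linarith
  have hL1' : 1 ≤ L := by linarith
  -- the level
  obtain ⟨z, hz⟩ : ∃ z : ℕ, z = ⌈L ^ (B0 + 1)⌉₊ := ⟨_, rfl⟩
  have hLB : L ≤ L ^ (B0 + 1) := by
    calc L = L ^ 1 := (pow_one L).symm
      _ ≤ L ^ (B0 + 1) := pow_le_pow_right₀ hL1' (by omega)
  have hz1 : L ^ (B0 + 1) ≤ z := by rw [hz]; exact Nat.le_ceil _
  have hz2 : (z : ℝ) ≤ L ^ (B0 + 2) := by
    have h1 : (z : ℝ) ≤ L ^ (B0 + 1) + 1 := by
      rw [hz]
      exact (Nat.ceil_lt_add_one (by positivity)).le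
    have h2 : L ^ (B0 + 2) = L ^ (B0 + 1) * L := pow_succ _ _
    have h3 : L ^ (B0 + 1) * 4 ≤ L ^ (B0 + 1) * L := mul_le_mul_of_nonneg_left hL4 (by positivity)
    rw [h2]
    linarith
  have hz0 : L ^ B0 ≤ z := (pow_le_pow_right₀ hL1' (by omega)).trans hz1
  have hz1' : 1 ≤ z := by
    have : (1 : ℝ) ≤ z := by linarith
    exact_mod_cast this
  have hWz : W ≤ z := by
    have : (W : ℝ) ≤ z := by linarith
    exact_mod_cast this
  have hwz : w ≤ z := by
    have : (w : ℝ) ≤ z := by linarith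
    exact_mod_cast this
  have b1 := b1 z hz0 hz2
  have b2 := b2 z hz1' hz2 w hwz y hwy hy M H t hMt (by rw [hWd]; exact htM) B hB (by rw [hWd]; exact hcls)
    κ hκ (by rw [hWd]; exact hcard)
  have b3 := b3 z hz1' hz2 w (by rw [hWd]; exact hWz) M H t hMt hMH B hB (by rw [hWd]; exact hcop)
  rw [hWd] at b2 b3
  have hs0 := card_It_le w M H t hMt (by rw [hWd]; exact htM)
  rw [hWd] at hs0
  have hsN : √(N : ℝ) * √(N : ℝ) = N := Real.mul_self_sqrt hN0.le
  have hsN0 : 0 < √(N : ℝ) := Real.sqrt_pos.2 hN0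
  have hsN1 : 1 ≤ √(N : ℝ) := by
    rw [Real.one_le_sqrt]
    linarith
  have hLU : 0 < L ^ U := by positivity
  have hLU1 : 1 ≤ L ^ U := one_le_pow₀ hL1'
  have hC0 : (0 : ℝ) < B.card := lt_of_lt_of_le (by positivity) hBc
  have hv1 : 1 ≤ (Vz w)⁻¹ := (one_le_inv₀ (Vz_pos w)).2 (Vz_le_one w)
  have hh0 : (N : ℝ) / (W * L ^ U) ≤ (H : ℝ) / W := by
    rw [le_div_iff₀ hWr]
    calc (N : ℝ) / (W * L ^ U) * W = N / L ^ U := by field_simp
      _ ≤ H := hH
  have hhpos : 0 < (H : ℝ) / W := lt_of_lt_of_le (by positivity) hh0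
  have c1 := al_c1 hsN0 hsN hLU hWr he0 a4 hh0
  have c2 : 1 ≤ ε1 * ((H : ℝ) / W) := hsN1.trans c1
  have hh1 : 1 ≤ (H : ℝ) / W := by
    have : ε1 * ((H : ℝ) / W) ≤ 1 * ((H : ℝ) / W) := mul_le_mul_of_nonneg_right (by linarith) hhpos.le
    linarith
  have c3 := al_c3 hsN1 hsN hLU he0 a5 hBc
  have c4 := al_c4 hsN0 hsN hLU he0 a6 hBc
  have hΓ1 : 1 ≤ (2 * Real.exp 2 / κ) ^ (1 / (y : ℝ)) * Gam w y := by
    have h1 : 1 ≤ (2 * Real.exp 2 / κ) ^ (1 / (y : ℝ)) := by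
      apply Real.one_le_rpow _ (by positivity)
      rw [le_div_iff₀ hκ]
      have : (1 : ℝ) ≤ Real.exp 2 := Real.one_le_exp (by norm_num)
      linarith
    exact one_le_mul_of_one_le_of_one_le h1 (one_le_Gam w y)
  have hS1 : (1 - ε1) * ((Vz w)⁻¹ * B.card * ((H : ℝ) / W)) ≤ ∑ n ∈ It w M H t, cv (lamz z) B n := by
    apply al_S1 (n := (N : ℝ)) hL1' hLU hWr he0 hC0 hv1 hhpos a2 hh0
    rw [← pow_add]
    exact b3
  have hS2 := al_S2 (L := L) (X := L ^ (U + 2)) (Q := L ^ (2 * (B0 + 2))) he0 hC0 hv1 hh1 hΓ1 hsN0.le c1 c2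
    (by positivity) a3 (by
      calc L = L ^ 1 := (pow_one L).symm
        _ ≤ L ^ (U + 2) := pow_le_pow_right₀ hL1' (by omega))
    (by
      calc (z : ℝ) ^ 2 ≤ (L ^ (B0 + 2)) ^ 2 := pow_le_pow_left₀ (Nat.cast_nonneg z) hz2 2
        _ = _ := by rw [← pow_mul]; congr 1; ring) (by positivity) c3 b2
  -- the bad integers
  have hIsub : (It w M H t).filter (fun n => ¬ Hit B n) ⊆ Icc 1 N := by
    intro n hn
    rw [mem_filter] at hn
    have h1 := hn.1
    unfold It at h1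
    rw [mem_filter, mem_Ioc] at h1
    rw [mem_Icc]
    omega
  obtain ⟨T, hT0, hT1, hT2⟩ := bad_part B N z hN1 (fun b hb => (hB b hb).trans (by omega))
    (N / L ^ (2 * U + 2)) b1 _ hIsub (fun n hn => (mem_filter.1 hn).2)
  rw [hLd] at hT2
  have hBdc : ((((It w M H t).filter (fun n => ¬ Hit B n)).card : ℕ) : ℝ) ≤ 2 * ((H : ℝ) / W) := by
    have h2 : ((((It w M H t).filter (fun n => ¬ Hit B n)).card : ℕ) : ℝ) ≤ ((It w M H t).card : ℝ) := by
      exact_mod_cast card_le_card (filter_subset _ _)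
    linarith
  have hTb := al_bad (n := (N : ℝ)) (L := L) (X := L ^ U) (W := W) (ε := ε1) (h := (H : ℝ) / W) (C := B.card)
    (D := ((((It w M H t).filter (fun n => ¬ Hit B n)).card : ℕ) : ℝ)) (T := T) hL1' hLU1 hWr he0 hC0 hhpos hN0
    hT0 a1 hh0 hBc hBdc (by
      have e : (L ^ U) ^ 2 * L ^ 2 = L ^ (2 * U + 2) := by rw [← pow_mul, ← pow_add]; congr 1; ring
      rw [e]
      exact hT1)
  have hb1 : ((((It w M H t).filter (fun n => ¬ Hit B n)).card : ℕ) : ℝ) * (2 * √(N : ℝ) * L) ≤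
      ε1 * (B.card * ((H : ℝ) / W)) := by
    calc _ ≤ (2 * ((H : ℝ) / W)) * (2 * √(N : ℝ) * L) := mul_le_mul_of_nonneg_right hBdc (by positivity)
      _ = ((H : ℝ) / W) * (√(N : ℝ) * (4 * L)) := by ring
      _ ≤ ((H : ℝ) / W) * (ε1 * B.card) := mul_le_mul_of_nonneg_left c4 hhpos.le
      _ = _ := by ring
  have hsplit := sum_filter_add_sum_filter_not (It w M H t) (fun n => Hit B n) (fun n => cv (lamz z) B n)
  have hgood : (∑ n ∈ (It w M H t).filter (fun n => Hit B n), cv (lamz z) B n) ^ 2 ≤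
      (((It w M H t).filter (fun n => Hit B n)).card : ℝ) * ∑ n ∈ It w M H t, cv (lamz z) B n ^ 2 := by
    refine (sq_sum_le_card_mul_sum_sq).trans ?_
    apply mul_le_mul_of_nonneg_left _ (Nat.cast_nonneg _)
    exact sum_le_sum_of_subset_of_nonneg (filter_subset _ _) fun _ _ _ => by positivity
  have hε16 : 1 - ε = 1 - 16 * ε1 := by rw [hε1d]; ring
  rw [hε16]
  exact al_fin he0 he1 hC0 hv1 hhpos hΓ1 (Nat.cast_nonneg _) hS1
    (by rw [← hsplit]; exact add_le_add le_rfl hT2) hb1 hTb hgood hS2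

end Pool.Agent.TH881
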