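import Mathlib
import Pool.Agent.TH881.Loc
import Pool.Agent.TH881.Dens

/-! Windows: sets `B + P` in long intervals. -/

set_option autoImplicit false

namespace Pool.Agent.TH881
open Finset Filter Topology

/-- the lower bound for the density of `B + P` -/
noncomputable def dens1 (κ : ℝ) (y : ℕ) : ℝ :=
  1 / ((2 * Real.exp 2 / κ) ^ (1 / (y : ℝ)) * Gam 1 y)

lemma dens1_nonneg {κ : ℝ} (hκ : 0 < κ) (y : ℕ) : 0 ≤ dens1 κ y := by
  have h1 := one_le_Gam 1 y
  have h2 : 0 < (2 * Real.exp 2 / κ) ^ (1 / (y : ℝ)) := Real.rpow_pos_of_pos (by positivity) _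
  unfold dens1
  positivity

lemma Wp_one : Wp 1 = 1 := by decide

open Classical in
lemma window1 (U : ℕ) (ε : ℝ) (hε : 0 < ε) (hε1 : ε < 1) :
    ∃ N0 : ℕ, ∀ N : ℕ, N0 ≤ N → ∀ y : ℕ, 1 ≤ y → ∀ M H : ℕ, M + H ≤ N →
    (N : ℝ) / Real.log N ^ U ≤ H → ∀ B : Finset ℕ, (∀ b ∈ B, b ≤ M) →
    (N : ℝ) / Real.log N ^ U ≤ B.card → ∀ κ : ℝ, 0 < κ → κ ≤ 1 → κ * M ≤ B.card →
    (1 - ε) * H * dens1 κ y ≤ ((Ioc M (M + H)).filter (Hit B)).card := by
  obtain ⟨N0, hN0⟩ := primes_local U 1 ε hε hε1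
  refine ⟨N0, ?_⟩
  intro N hN y hy M H hMH hH B hB hBc κ hκ hκ1 hκB
  have hW : Wp 1 = 1 := Wp_one
  have h1 := hN0 N hN y hy hy M H (M + 1) (by omega) (by rw [hW]) hMH hH B hB
    (by intro b _ b' _; rw [hW]; exact Nat.modEq_one) (by intro b _; rw [hW]; exact Nat.coprime_one_right _)
    hBc κ hκ hκ1 (by rw [hW]; simpa using hκB)
  have h2 : It 1 M H (M + 1) = Ioc M (M + H) := by
    unfold It
    apply filter_true_of_mem
    intro a _
    rw [hW]
    exact Nat.modEq_one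
  rw [h2, hW] at h1
  refine le_trans (le_of_eq ?_) h1
  unfold dens1
  push_cast
  ring

open Classical in
/-- consecutive windows -/
lemma blocks (K : ℕ) (ε κ : ℝ) (hε : 0 < ε) (hε1 : ε < 1) (hκ : 0 < κ) (hκ1 : κ ≤ 1) :
    ∃ L0 : ℕ, ∀ L : ℕ, L0 ≤ L → ∀ S : Finset ℕ, ∀ y : ℕ, 1 ≤ y → ∀ k0 : ℕ, 1 ≤ k0 → k0 ≤ K →
    (∀ k, k0 ≤ k → k < K → κ * (k * L) ≤ ((S.filter (fun a => a ≤ k * L)).card : ℝ)) →
    ((K : ℝ) - k0) * ((1 - ε) * L * dens1 κ y) ≤
      (((Ioc (k0 * L) (K * L)).filter (Hit S)).card : ℝ) := by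
  obtain ⟨N0, hN0⟩ := window1 1 ε hε hε1
  have hlog : ∀ᶠ n : ℕ in atTop, (K : ℝ) / κ ≤ Real.log (n : ℝ) :=
    (Real.tendsto_log_atTop.comp tendsto_natCast_atTop_atTop).eventually_ge_atTop _
  obtain ⟨n1, hn1⟩ := eventually_atTop.1 hlog
  refine ⟨N0 + n1 + 1, ?_⟩
  intro L hL S y hy k0 hk0 hk0K hS
  have hKpos : 1 ≤ K := hk0.trans hk0K
  have hLpos : (0 : ℝ) < L := by
    have : 1 ≤ L := by omega
    exact_mod_cast this
  have hKL : L ≤ K * L := Nat.le_mul_of_pos_left L (by omega)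
  have hlogN : (K : ℝ) / κ ≤ Real.log ((K * L : ℕ) : ℝ) := hn1 (K * L) (by omega)
  have hK1 : (1 : ℝ) ≤ K := by exact_mod_cast hKpos
  have hKκ : (1 : ℝ) ≤ (K : ℝ) / κ := by
    rw [le_div_iff₀ hκ]
    linarith
  have hlogpos : 0 < Real.log ((K * L : ℕ) : ℝ) := by linarith
  have hNlog : ((K * L : ℕ) : ℝ) / Real.log ((K * L : ℕ) : ℝ) ^ 1 ≤ κ * L := by
    rw [pow_one, div_le_iff₀ hlogpos]
    have h1 : (K : ℝ) ≤ Real.log ((K * L : ℕ) : ℝ) * κ := by
      rw [div_le_iff₀ hκ] at hlogN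
      exact hlogN
    push_cast at h1 ⊢
    nlinarith
  have hκL : κ * L ≤ L := by nlinarith
  have key : ∀ k, k0 ≤ k → k ≤ K → ((k : ℝ) - k0) * ((1 - ε) * L * dens1 κ y) ≤
      (((Ioc (k0 * L) (k * L)).filter (Hit S)).card : ℝ) := by
    intro k hk
    induction k, hk using Nat.le_induction with
    | base =>
      intro _
      rw [sub_self, zero_mul]
      positivity
    | succ k hk ih =>
      intro hkK
      have h1 := ih (by omega)
      have h2 := hN0 (K * L) (by omega) y hy (k * L) L (by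
        have : (k + 1) * L ≤ K * L := Nat.mul_le_mul_right L hkK
        linarith [this, Nat.succ_mul k L]) (hNlog.trans hκL)
        (S.filter (fun a => a ≤ k * L)) (fun b hb => (mem_filter.1 hb).2) (by
          refine hNlog.trans (le_trans ?_ (hS k hk (by omega)))
          have : (1 : ℝ) ≤ k := by exact_mod_cast hk0.trans hk
          nlinarith [mul_pos hκ hLpos]) κ hκ hκ1 (by
          have := hS k hk (by omega)
          push_cast
          exact this)
      have h3 : ((Ioc (k * L) (k * L + L)).filter (Hit (S.filter (fun a => a ≤ k * L)))).card ≤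
          ((Ioc (k * L) (k * L + L)).filter (Hit S)).card := by
        apply card_le_card
        intro n hn
        rw [mem_filter] at hn ⊢
        obtain ⟨h4, b, hb, p, hp, hbp⟩ := hn
        exact ⟨h4, b, (mem_filter.1 hb).1, p, hp, hbp⟩
      have h3' : (((Ioc (k * L) (k * L + L)).filter (Hit (S.filter (fun a => a ≤ k * L)))).card : ℝ) ≤
          ((Ioc (k * L) (k * L + L)).filter (Hit S)).card := by exact_mod_cast h3
      have h5 : ((Ioc (k0 * L) ((k + 1) * L)).filter (Hit S)).card =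
          ((Ioc (k0 * L) (k * L)).filter (Hit S)).card +
          ((Ioc (k * L) (k * L + L)).filter (Hit S)).card := by
        rw [← card_union_of_disjoint, ← filter_union, Nat.succ_mul,
          Ioc_union_Ioc_eq_Ioc (Nat.mul_le_mul_right L hk) (Nat.le_add_right _ _)]
        rw [disjoint_left]
        intro n hn hn'
        rw [mem_filter, mem_Ioc] at hn hn'
        omega
      rw [h5]
      push_cast
      linarith
  exact key K hk0K le_rfl

end Pool.Agent.TH881
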