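import Mathlib
import Pool.Agent.TH881.Win

/-! The lower bound for the lower density of `A + P`. -/

set_option autoImplicit false

namespace Pool.Agent.TH881
open Finset Filter Topology

lemma le_of_forall_cube {c d : ℝ} (h : ∀ ε : ℝ, 0 < ε → ε < 1 → (1 - ε) ^ 3 * c ≤ d) : c ≤ d := by
  have h1 : Tendsto (fun ε : ℝ => (1 - ε) ^ 3 * c) (𝓝[>] 0) (𝓝 ((1 - 0) ^ 3 * c)) :=
    (Continuous.tendsto (by fun_prop) 0).mono_left nhdsWithin_le_nhds
  have h2 : (1 - 0 : ℝ) ^ 3 * c = c := by ring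
  rw [h2] at h1
  apply le_of_tendsto h1
  filter_upwards [Ioo_mem_nhdsGT (show (0 : ℝ) < 1 by norm_num)] with ε hε
  exact h ε hε.1 hε.2

lemma density_lower (A : Set ℕ) (κ : ℝ) (hκ : 0 < κ) (hκ1 : κ ≤ 1)
    (hA : κ < lowerDensity A) (y : ℕ) (hy : 1 ≤ y) : dens1 κ y ≤ lowerDensity (plusPrimes A) := by
  classical
  apply le_of_forall_cube
  intro ε hε hε1
  obtain ⟨K, hK⟩ := exists_nat_ge (1 / ε)
  have hKε : 1 ≤ (K : ℝ) * ε := by rwa [div_le_iff₀ hε] at hK
  have hKpos : (0 : ℝ) < K := by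
    by_contra h
    push Not at h
    nlinarith
  have hK1 : 1 ≤ K := by exact_mod_cast hKpos
  obtain ⟨L0, hL0⟩ := blocks K ε κ hε hε1 hκ hκ1
  obtain ⟨n1, hn1⟩ := eventually_atTop.1 (eventually_of_lt hA)
  obtain ⟨n2, hn2⟩ := exists_nat_ge ((K : ℝ) / ε)
  have hd := dens1_nonneg hκ y
  apply le_of_eventually
  filter_upwards [eventually_ge_atTop (K * (L0 + n1 + 1) + n2)] with n hn
  have hL : L0 + n1 + 1 ≤ n / K := by
    rw [Nat.le_div_iff_mul_le (by omega)]
    linarith [Nat.mul_comm K (L0 + n1 + 1)]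
  have h1 := hL0 (n / K) (by omega) ((Icc 1 n).filter (fun a => a ∈ A)) y hy 1 le_rfl hK1 (by
    intro k hk hkK
    have h2 : n1 ≤ k * (n / K) := by
      have : 1 * (n / K) ≤ k * (n / K) := Nat.mul_le_mul_right _ hk
      omega
    have h3 := hn1 (k * (n / K)) h2
    have h4 : ((Icc 1 n).filter (fun a => a ∈ A)).filter (fun a => a ≤ k * (n / K)) =
        (Icc 1 (k * (n / K))).filter (fun a => a ∈ A) := by
      ext a
      rw [mem_filter, mem_filter, mem_filter, mem_Icc, mem_Icc]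
      have h5 : k * (n / K) ≤ n := by
        have h6 : k * (n / K) ≤ K * (n / K) := Nat.mul_le_mul_right _ (by omega)
        exact h6.trans (Nat.mul_div_le n K)
      constructor
      · rintro ⟨⟨⟨h6, h7⟩, h8⟩, h9⟩
        exact ⟨⟨h6, h9⟩, h8⟩
      · rintro ⟨⟨h6, h7⟩, h8⟩
        exact ⟨⟨⟨h6, h7.trans h5⟩, h8⟩, h7⟩
    rw [h4]
    have h5 : ((Icc 1 (k * (n / K))).filter (fun a => a ∈ A)).card = cnt A (k * (n / K)) := rfl
    rw [h5]
    push_cast at h3
    exact h3)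
  have h2 : ((Ioc (1 * (n / K)) (K * (n / K))).filter (Hit ((Icc 1 n).filter (fun a => a ∈ A)))).card ≤
      cnt (plusPrimes A) n := by
    unfold cnt
    apply card_le_card
    intro m hm
    rw [mem_filter] at hm ⊢
    obtain ⟨hm1, b, hb, p, hp, hbp⟩ := hm
    rw [mem_Ioc] at hm1
    rw [mem_Icc]
    refine ⟨⟨by omega, hm1.2.trans (Nat.mul_div_le n K)⟩, b, (mem_filter.1 hb).2, p, hp, hbp⟩
  have h2' : (((Ioc (1 * (n / K)) (K * (n / K))).filter
      (Hit ((Icc 1 n).filter (fun a => a ∈ A)))).card : ℝ) ≤ cnt (plusPrimes A) n := by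
    exact_mod_cast h2
  refine le_trans ?_ (h1.trans h2')
  have h3 : (1 - ε) * n ≤ K * (n / K : ℕ) := by
    have h4 : (n : ℝ) < K * (n / K : ℕ) + K := by
      have := Nat.lt_div_mul_add (a := n) (b := K) (by omega)
      have h5 : n < K * (n / K) + K := by linarith [Nat.mul_comm (n / K) K]
      exact_mod_cast h5
    have h5 : (K : ℝ) ≤ ε * n := by
      rw [div_le_iff₀ hε] at hn2
      have h6 : (n2 : ℝ) ≤ n := by
        have : n2 ≤ n := by omega
        exact_mod_cast this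
      nlinarith
    linarith
  have h4 : (1 - ε) * ((K : ℝ) * (n / K : ℕ)) ≤ ((K : ℝ) - (1 : ℕ)) * (n / K : ℕ) := by
    have h5 : (0 : ℝ) ≤ (n / K : ℕ) := by positivity
    push_cast
    nlinarith
  have h5 : 0 ≤ (1 - ε) * dens1 κ y := mul_nonneg (by linarith) hd
  calc (1 - ε) ^ 3 * dens1 κ y * n = (1 - ε) * dens1 κ y * ((1 - ε) * ((1 - ε) * n)) := by ring
    _ ≤ (1 - ε) * dens1 κ y * ((1 - ε) * (K * (n / K : ℕ))) := by
        apply mul_le_mul_of_nonneg_left _ h5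
        apply mul_le_mul_of_nonneg_left h3
        linarith
    _ ≤ (1 - ε) * dens1 κ y * (((K : ℝ) - (1 : ℕ)) * (n / K : ℕ)) :=
        mul_le_mul_of_nonneg_left h4 h5
    _ = ((K : ℝ) - (1 : ℕ)) * ((1 - ε) * (n / K : ℕ) * dens1 κ y) := by ring

end Pool.Agent.TH881
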