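import Mathlib
import Pool.Agent.TH881.Ext
import Pool.Agent.TH881.Low
import Pool.Agent.H305R2.MertensE

/-! Mertens and the two model functions. -/

set_option autoImplicit false

namespace Pool.Agent.TH881
open Finset Filter Topology
open Pool.Agent.H373R2.T7

lemma pT_one (N : ℕ) : pT 1 N = pz N := by
  unfold pT
  apply filter_true_of_mem
  intro p hp
  unfold pz at hp
  exact (mem_filter.1 hp).2.one_lt

lemma mert : Tendsto (fun N : ℕ => Gam 1 N / Real.log N) atTop
    (𝓝 (Real.exp Real.eulerMascheroniConstant)) := by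
  refine Pool.Agent.H305R2.mertens_three.congr ?_
  intro N
  unfold Gam
  rw [pT_one]
  unfold pz
  congr 1
  apply prod_congr rfl
  intro p _
  rw [one_div]

lemma mert' : Tendsto (fun N : ℕ => Real.log N / Gam 1 N) atTop
    (𝓝 (Real.exp (-Real.eulerMascheroniConstant))) := by
  rw [Real.exp_neg]
  refine (mert.inv₀ (Real.exp_pos _).ne').congr ?_
  intro N
  rw [inv_div]

lemma Gam_mul_Vz (w : ℕ) : Gam 1 w * Vz w = 1 := by
  unfold Gam Vz
  rw [pT_one, ← prod_mul_distrib]
  apply prod_eq_one
  intro p hp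
  unfold pz at hp
  exact inv_mul_cancel₀ (fac_pos (mem_filter.1 hp).2).ne'

lemma totient_div (w : ℕ) : ((Wp w).totient : ℝ) = Wp w / Gam 1 w := by
  have h := Gam_mul_Vz w
  have h1 : (0 : ℝ) < Gam 1 w := lt_of_lt_of_le one_pos (one_le_Gam 1 w)
  rw [totient_Wp, eq_div_iff h1.ne', mul_assoc, mul_comm (Vz w), h, mul_one]

lemma Wp_le (w : ℕ) : Wp w ≤ 4 ^ w := by
  refine le_trans (le_of_eq ?_) (primorial_le_four_pow w)
  unfold Wp pz primorial
  apply prod_congr _ (fun _ _ => rfl)
  ext p
  rw [mem_filter, mem_filter, mem_Icc, mem_range]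
  constructor
  · rintro ⟨h1, h2⟩
    exact ⟨by omega, h2⟩
  · rintro ⟨h1, h2⟩
    have := h2.one_lt
    exact ⟨by omega, h2⟩

lemma omega_le (w : ℕ) : (Wp w).primeFactors.card ≤ w := by
  have h1 : (Wp w).primeFactors ⊆ Icc 1 w := by
    intro p hp
    rw [Nat.mem_primeFactors] at hp
    rw [mem_Icc]
    exact ⟨hp.1.pos, (prime_dvd_Wp hp.1).1 hp.2.1⟩
  refine (card_le_card h1).trans ?_
  rw [Nat.card_Icc]
  omega

/-- the choice of the parameter in the lower bound -/
noncomputable def yy (L : ℝ) : ℕ := ⌈L * Real.log L⌉₊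

lemma loglog_small : Tendsto (fun L : ℝ => Real.log (Real.log L) / Real.log L) atTop (𝓝 0) := by
  have h := Real.isLittleO_log_id_atTop.tendsto_div_nhds_zero
  exact h.comp Real.tendsto_log_atTop

lemma inv_log_small : Tendsto (fun L : ℝ => 1 / Real.log L) atTop (𝓝 0) := by
  have h := Real.tendsto_log_atTop.inv_tendsto_atTop
  refine h.congr ?_
  intro L
  rw [Pi.inv_apply, one_div]

lemma tendsto_yy : Tendsto yy atTop atTop := by
  have h1 : Tendsto (fun L : ℝ => L * Real.log L) atTop atTop :=
    tendsto_id.atTop_mul_atTop₀ Real.tendsto_log_atTop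
  exact tendsto_nat_ceil_atTop.comp h1

lemma log_yy : Tendsto (fun L : ℝ => Real.log L / Real.log (yy L)) atTop (𝓝 1) := by
  have h : Tendsto (fun L : ℝ => Real.log (yy L) / Real.log L) atTop (𝓝 1) := by
    have hup : Tendsto (fun L : ℝ => 1 + (Real.log 2 * (1 / Real.log L) +
        Real.log (Real.log L) / Real.log L)) atTop (𝓝 (1 + (Real.log 2 * 0 + 0))) :=
      tendsto_const_nhds.add ((inv_log_small.const_mul _).add loglog_small)
    rw [mul_zero, add_zero, add_zero] at hup
    apply tendsto_of_tendsto_of_tendsto_of_le_of_le' tendsto_const_nhds hup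
    · filter_upwards [eventually_ge_atTop (Real.exp 1)] with L hL
      have hlog : 1 ≤ Real.log L := by
        rw [Real.le_log_iff_exp_le (lt_of_lt_of_le (Real.exp_pos 1) hL)]
        exact hL
      have hL0 : 0 < L := lt_of_lt_of_le (Real.exp_pos 1) hL
      rw [le_div_iff₀ (by linarith), one_mul]
      apply Real.log_le_log hL0
      refine le_trans ?_ (Nat.le_ceil _)
      nlinarith
    · filter_upwards [eventually_ge_atTop (Real.exp 1)] with L hL
      have hlog : 1 ≤ Real.log L := by
        rw [Real.le_log_iff_exp_le (lt_of_lt_of_le (Real.exp_pos 1) hL)]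
        exact hL
      have hL0 : 0 < L := lt_of_lt_of_le (Real.exp_pos 1) hL
      have hL1 : 1 ≤ L := le_trans (by linarith [Real.add_one_le_exp (1 : ℝ)]) hL
      have h1 : (yy L : ℝ) ≤ 2 * (L * Real.log L) := by
        have h2 := Nat.ceil_lt_add_one (show 0 ≤ L * Real.log L by positivity)
        unfold yy
        nlinarith
      have h3 : 0 < (yy L : ℝ) := by
        have : L * Real.log L ≤ yy L := Nat.le_ceil _
        have : 0 < L * Real.log L := by positivity
        linarith
      have h2 := Real.log_le_log h3 h1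
      rw [Real.log_mul (by norm_num) (by positivity), Real.log_mul hL0.ne' (by positivity)] at h2
      have h4 : Real.log (yy L) / Real.log L ≤
          (Real.log 2 + (Real.log L + Real.log (Real.log L))) / Real.log L :=
        div_le_div_of_nonneg_right h2 (by linarith)
      refine h4.trans (le_of_eq ?_)
      field_simp
      ring
  have h2 := h.inv₀ one_ne_zero
  rw [inv_one] at h2
  refine h2.congr ?_
  intro L
  rw [inv_div]

/-- the model lower bound for density `exp (-L)` -/
noncomputable def Glow (L : ℝ) : ℝ := dens1 (Real.exp (-L) / 2) (yy L)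

lemma pow_lim : Tendsto (fun L : ℝ => (2 * Real.exp 2 / (Real.exp (-L) / 2)) ^ (1 / (yy L : ℝ)))
    atTop (𝓝 1) := by
  have h1 : Tendsto (fun L : ℝ => (Real.log 4 + 2 + L) / (yy L : ℝ)) atTop (𝓝 0) := by
    have hup : Tendsto (fun L : ℝ => (Real.log 4 + 3) * (1 / Real.log L)) atTop
        (𝓝 ((Real.log 4 + 3) * 0)) := inv_log_small.const_mul _
    rw [mul_zero] at hup
    apply tendsto_of_tendsto_of_tendsto_of_le_of_le' tendsto_const_nhds hup
    · filter_upwards [eventually_ge_atTop 0] with L hL
      have : 0 ≤ Real.log 4 := Real.log_nonneg (by norm_num)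
      positivity
    · filter_upwards [eventually_ge_atTop (Real.exp 1)] with L hL
      have hlog : 1 ≤ Real.log L := by
        rw [Real.le_log_iff_exp_le (lt_of_lt_of_le (Real.exp_pos 1) hL)]
        exact hL
      have hL0 : 0 < L := lt_of_lt_of_le (Real.exp_pos 1) hL
      have hL1 : 1 ≤ L := le_trans (by linarith [Real.add_one_le_exp (1 : ℝ)]) hL
      have h4 : 0 ≤ Real.log 4 := Real.log_nonneg (by norm_num)
      have h2 : L * Real.log L ≤ yy L := Nat.le_ceil _
      have h3 : 0 < L * Real.log L := by positivity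
      rw [div_le_iff₀ (by linarith)]
      have h5 : Real.log 4 + 2 + L ≤ (Real.log 4 + 3) * L := by nlinarith
      refine h5.trans ?_
      have h6 : (Real.log 4 + 3) * L = (Real.log 4 + 3) * (1 / Real.log L) * (L * Real.log L) := by
        field_simp
      rw [h6]
      apply mul_le_mul_of_nonneg_left h2
      positivity
  have h2 := (Real.continuous_exp.tendsto 0).comp h1
  rw [Real.exp_zero] at h2
  refine h2.congr ?_
  intro L
  have h3 : 2 * Real.exp 2 / (Real.exp (-L) / 2) = Real.exp (Real.log 4 + 2 + L) := by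
    rw [Real.exp_add, Real.exp_add, Real.exp_log (by norm_num), Real.exp_neg]
    field_simp
    norm_num
  rw [Function.comp_apply, h3, ← Real.exp_mul]
  congr 1
  ring

lemma Glow_lim : Tendsto (fun L : ℝ => Glow L * Real.log L) atTop
    (𝓝 (Real.exp (-Real.eulerMascheroniConstant))) := by
  have h1 := mert'.comp tendsto_yy
  have h2 := (pow_lim.inv₀ one_ne_zero).mul (h1.mul log_yy)
  rw [inv_one, one_mul, mul_one] at h2
  refine h2.congr' ?_
  filter_upwards [tendsto_yy.eventually_ge_atTop 2] with L hL
  have h3 : 0 < Real.log (yy L) := Real.log_pos (by exact_mod_cast hL)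
  unfold Glow dens1
  rw [Function.comp_apply]
  have h4 : (0 : ℝ) < Gam 1 (yy L) := lt_of_lt_of_le one_pos (one_le_Gam 1 _)
  have h5 : 0 < (2 * Real.exp 2 / (Real.exp (-L) / 2)) ^ (1 / (yy L : ℝ)) :=
    Real.rpow_pos_of_pos (by positivity) _
  field_simp

end Pool.Agent.TH881
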