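import Mathlib
import Pool.Agent.TH881.Asy

/-! Iterated primes. -/

set_option autoImplicit false

namespace Pool.Agent.TH881
open Finset Filter Topology

/-- the `x`-th prime, for `x ≥ 1` -/
noncomputable def pr (x : ℕ) : ℕ := Nat.nth Nat.Prime (x - 1)

lemma pr_prime (x : ℕ) : (pr x).Prime := Nat.prime_nth_prime _

lemma pr_lt {x y : ℕ} (hx : 1 ≤ x) (hxy : x < y) : pr x < pr y :=
  Nat.nth_strictMono Nat.infinite_setOfPred_prime (by omega)

lemma pr_le {x M : ℕ} (hx : 1 ≤ x) (h : x ≤ Nat.primeCounting M) : pr x ≤ M := by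
  have h1 : x - 1 < Nat.count Nat.Prime (M + 1) := by
    have h2 : Nat.primeCounting M = Nat.count Nat.Prime (M + 1) := rfl
    omega
  have := Nat.nth_lt_of_lt_count h1
  unfold pr
  omega

lemma pr_pos (x : ℕ) : 1 ≤ pr x := (pr_prime x).pos

lemma iter_pos (j : ℕ) {x : ℕ} (hx : 1 ≤ x) : 1 ≤ pr^[j] x := by
  induction j with
  | zero => exact hx
  | succ j _ =>
    rw [Function.iterate_succ_apply']
    exact pr_pos _

lemma iter_lt (j : ℕ) {x y : ℕ} (hx : 1 ≤ x) (hxy : x < y) : pr^[j] x < pr^[j] y := by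
  induction j with
  | zero => exact hxy
  | succ j ih =>
    rw [Function.iterate_succ_apply', Function.iterate_succ_apply']
    exact pr_lt (iter_pos j hx) ih

lemma iter_le (j : ℕ) : ∀ {x M : ℕ}, 1 ≤ x → x ≤ Nat.primeCounting^[j] M → pr^[j] x ≤ M := by
  induction j with
  | zero => intro x M _ h; exact h
  | succ j ih =>
    intro x M hx h
    rw [Function.iterate_succ_apply'] at h
    rw [Function.iterate_succ_apply]
    exact ih (pr_pos x) (pr_le hx h)

lemma pi_le_self (Q : ℕ) : Nat.primeCounting Q ≤ Q := by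
  have h1 : Nat.primeCounting Q = Nat.count Nat.Prime (Q + 1) := rfl
  rw [h1, Nat.count_eq_card_filter_range]
  have h2 : (range (Q + 1)).filter Nat.Prime ⊆ Icc 1 Q := by
    intro p hp
    rw [mem_filter, mem_range] at hp
    rw [mem_Icc]
    exact ⟨hp.2.pos, by omega⟩
  refine (card_le_card h2).trans ?_
  rw [Nat.card_Icc]
  omega

lemma pi_half : ∀ᶠ n : ℕ in atTop, (n : ℝ) / (2 * Real.log n) ≤ Nat.primeCounting n := by
  have h1 : Tendsto (fun n : ℕ => Real.log ((n : ℝ) + 1) / ((n : ℝ) + 1)) atTop (𝓝 0) := by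
    have h := Real.isLittleO_log_id_atTop.tendsto_div_nhds_zero
    have h2 : Tendsto (fun n : ℕ => (n : ℝ) + 1) atTop atTop :=
      tendsto_atTop_add_const_right _ _ tendsto_natCast_atTop_atTop
    exact h.comp h2
  filter_upwards [h1.eventually (eventually_le_nhds (show (0 : ℝ) < 1 / 20 by norm_num)),
    eventually_ge_atTop 3] with n h2 h3
  have h4 := Chebyshev.pi_ge n
  have hn : (3 : ℝ) ≤ n := by exact_mod_cast h3
  have hlog : 0 < Real.log n := Real.log_pos (by linarith)
  refine le_trans ?_ h4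
  rw [div_le_iff₀ (by linarith)] at h2
  rw [div_le_div_iff₀ (by positivity) hlog]
  have h5 := Real.log_two_gt_d9
  have h6 : (n : ℝ) ≤ (n * Real.log 2 - Real.log (n + 1)) * 2 := by nlinarith
  nlinarith

lemma tendsto_div_log_pow (j : ℕ) :
    Tendsto (fun M : ℕ => (M : ℝ) / (2 * Real.log M) ^ j) atTop atTop := by
  have h1 : Tendsto (fun x : ℝ => x / Real.log x ^ j) atTop atTop := by
    have h := (isLittleO_log_rpow_rpow_atTop (s := 1) (j : ℝ) one_pos).tendsto_div_nhds_zero
    have h2 : Tendsto (fun x : ℝ => Real.log x ^ (j : ℝ) / x ^ (1 : ℝ)) atTop (𝓝[>] 0) := by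
      rw [tendsto_nhdsWithin_iff]
      refine ⟨h, ?_⟩
      filter_upwards [eventually_gt_atTop 1] with x hx
      have := Real.log_pos hx
      have h3 : 0 < x := by linarith
      exact div_pos (Real.rpow_pos_of_pos this _) (Real.rpow_pos_of_pos h3 _)
    refine (tendsto_inv_nhdsGT_zero.comp h2).congr ?_
    intro x
    rw [Function.comp_apply, inv_div, Real.rpow_one, Real.rpow_natCast]
  have h2 := (h1.comp tendsto_natCast_atTop_atTop).atTop_mul_const
    (show (0 : ℝ) < 1 / 2 ^ j by positivity)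
  refine h2.congr ?_
  intro M
  rw [Function.comp_apply, mul_pow]
  by_cases h : Real.log (M : ℝ) ^ j = 0
  · rw [h]; simp
  · field_simp

lemma iter_pi (j : ℕ) : ∀ᶠ M : ℕ in atTop,
    (M : ℝ) / (2 * Real.log M) ^ j ≤ (Nat.primeCounting^[j] M : ℕ) := by
  induction j with
  | zero =>
    filter_upwards with M
    simp
  | succ j ih =>
    obtain ⟨n0, hn0⟩ := eventually_atTop.1 pi_half
    filter_upwards [ih, (tendsto_div_log_pow j).eventually_ge_atTop ((n0 : ℝ) + 3),
      eventually_ge_atTop 3] with M h1 h2 h3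
    rw [Function.iterate_succ_apply']
    obtain ⟨P, hP⟩ : ∃ P : ℕ, P = Nat.primeCounting^[j] M := ⟨_, rfl⟩
    rw [← hP] at h1 ⊢
    have hPn : (n0 : ℝ) + 3 ≤ P := h2.trans h1
    have hP2 : n0 + 3 ≤ P := by exact_mod_cast hPn
    have h4 := hn0 P (by omega)
    refine le_trans ?_ h4
    have hPM : P ≤ M := by
      rw [hP]
      clear * -
      induction j with
      | zero => exact le_rfl
      | succ j ih =>
        rw [Function.iterate_succ_apply']
        refine le_trans ?_ ih
        exact pi_le_self _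
    have hlogP : 0 < Real.log P := Real.log_pos (by linarith [(Nat.cast_nonneg n0 : (0 : ℝ) ≤ n0)])
    have hlogPM : Real.log P ≤ Real.log M :=
      Real.log_le_log (by linarith [(Nat.cast_nonneg n0 : (0 : ℝ) ≤ n0)]) (by exact_mod_cast hPM)
    have hlogM : 0 < Real.log M := lt_of_lt_of_le hlogP hlogPM
    calc (M : ℝ) / (2 * Real.log M) ^ (j + 1) = (M : ℝ) / (2 * Real.log M) ^ j / (2 * Real.log M) := by
          rw [pow_succ]; field_simp
      _ ≤ P / (2 * Real.log M) := div_le_div_of_nonneg_right h1 (by positivity)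
      _ ≤ P / (2 * Real.log P) := by
          apply div_le_div_of_nonneg_left (by positivity) (by positivity)
          linarith

end Pool.Agent.TH881
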