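import Mathlib
import Pool.Agent.TH881.Asy

/-! The function `f*` near zero. -/

set_option autoImplicit false

namespace Pool.Agent.TH881
open Finset Filter Topology
open Pool.Agent.H373R2.T7

/-- the sieving level in the upper bound -/
noncomputable def ww (L : ℝ) : ℕ := ⌊L / (2 * Real.log 4)⌋₊

/-- the dilation in the upper bound -/
noncomputable def mm (L : ℝ) : ℕ := ⌊Real.exp (L / 2)⌋₊

lemma log4_pos : 0 < Real.log 4 := Real.log_pos (by norm_num)

lemma tendsto_ww : Tendsto ww atTop atTop := by
  have h1 : Tendsto (fun L : ℝ => L / (2 * Real.log 4)) atTop atTop :=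
    tendsto_id.atTop_div_const (by have := log4_pos; positivity)
  exact tendsto_nat_floor_atTop.comp h1

lemma tendsto_mm : Tendsto mm atTop atTop := by
  have h1 : Tendsto (fun L : ℝ => Real.exp (L / 2)) atTop atTop :=
    Real.tendsto_exp_atTop.comp (tendsto_id.atTop_div_const (by norm_num))
  exact tendsto_nat_floor_atTop.comp h1

lemma ww_le {L : ℝ} (hL : 0 ≤ L) : (ww L : ℝ) ≤ L := by
  have h4 : 1 ≤ 2 * Real.log 4 := by
    have h1 : Real.log 4 = 2 * Real.log 2 := by
      rw [show (4 : ℝ) = 2 ^ 2 by norm_num, Real.log_pow]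
      norm_num
    have := Real.log_two_gt_d9
    rw [h1]
    linarith
  have h1 := Nat.floor_le (show 0 ≤ L / (2 * Real.log 4) by positivity)
  refine h1.trans ?_
  rw [div_le_iff₀ (by linarith)]
  nlinarith

lemma log_ww : Tendsto (fun L : ℝ => Real.log L / Real.log (ww L)) atTop (𝓝 1) := by
  have hc : 0 < 1 / (4 * Real.log 4) := by have := log4_pos; positivity
  have h : Tendsto (fun L : ℝ => Real.log (ww L) / Real.log L) atTop (𝓝 1) := by
    have hlow : Tendsto (fun L : ℝ => Real.log (1 / (4 * Real.log 4)) * (1 / Real.log L) + 1) atTop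
        (𝓝 (Real.log (1 / (4 * Real.log 4)) * 0 + 1)) :=
      (inv_log_small.const_mul _).add tendsto_const_nhds
    rw [mul_zero, zero_add] at hlow
    apply tendsto_of_tendsto_of_tendsto_of_le_of_le' hlow tendsto_const_nhds
    · filter_upwards [eventually_ge_atTop (Real.exp 1), eventually_ge_atTop (4 * Real.log 4)]
        with L hL hL2
      have hlog : 1 ≤ Real.log L := by
        rw [Real.le_log_iff_exp_le (lt_of_lt_of_le (Real.exp_pos 1) hL)]
        exact hL
      have hL0 : 0 < L := lt_of_lt_of_le (Real.exp_pos 1) hL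
      have h1 : 1 / (4 * Real.log 4) * L ≤ ww L := by
        have h2 := Nat.lt_floor_add_one (L / (2 * Real.log 4))
        have h3 : L / (2 * Real.log 4) = 1 / (4 * Real.log 4) * L + L / (4 * Real.log 4) := by
          have := log4_pos
          field_simp
          ring
        have h4 : 1 ≤ L / (4 * Real.log 4) := by
          rw [le_div_iff₀ (by have := log4_pos; positivity), one_mul]
          exact hL2
        unfold ww
        linarith
      have h2 := Real.log_le_log (by positivity) h1
      rw [Real.log_mul hc.ne' hL0.ne'] at h2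
      have h3 : (Real.log (1 / (4 * Real.log 4)) + Real.log L) / Real.log L ≤
          Real.log (ww L) / Real.log L := div_le_div_of_nonneg_right h2 (by linarith)
      refine le_trans (le_of_eq ?_) h3
      field_simp
    · filter_upwards [eventually_ge_atTop (Real.exp 1), tendsto_ww.eventually_ge_atTop 1]
        with L hL hL2
      have hlog : 1 ≤ Real.log L := by
        rw [Real.le_log_iff_exp_le (lt_of_lt_of_le (Real.exp_pos 1) hL)]
        exact hL
      have hL0 : 0 < L := lt_of_lt_of_le (Real.exp_pos 1) hL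
      rw [div_le_one (by linarith)]
      apply Real.log_le_log
      · exact_mod_cast hL2
      · exact ww_le hL0.le
  have h2 := h.inv₀ one_ne_zero
  rw [inv_one] at h2
  refine h2.congr ?_
  intro L
  rw [inv_div]

/-- the model upper bound -/
noncomputable def Vup (L : ℝ) : ℝ := 1 / Gam 1 (ww L) * (1 + 1 / (mm L : ℝ)) + (ww L : ℝ) / mm L

lemma tail_lim : Tendsto (fun L : ℝ => (ww L : ℝ) / mm L * Real.log L) atTop (𝓝 0) := by
  have h1 : Tendsto (fun L : ℝ => 8 * ((L / 2) ^ 2 * Real.exp (-(L / 2)))) atTop (𝓝 (8 * 0)) := by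
    apply Tendsto.const_mul
    exact (Real.tendsto_pow_mul_exp_neg_atTop_nhds_zero 2).comp
      (tendsto_id.atTop_div_const (by norm_num))
  rw [mul_zero] at h1
  apply tendsto_of_tendsto_of_tendsto_of_le_of_le' tendsto_const_nhds h1
  · filter_upwards [eventually_ge_atTop 1] with L hL
    have := Real.log_nonneg hL
    positivity
  · filter_upwards [eventually_ge_atTop 2] with L hL
    have h2 : Real.log L ≤ L := (Real.log_le_sub_one_of_pos (by linarith)).trans (by linarith)
    have h3 : 0 ≤ Real.log L := Real.log_nonneg (by linarith)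
    have h4 : (ww L : ℝ) ≤ L := ww_le (by linarith)
    have h5 : Real.exp (L / 2) / 2 ≤ mm L := by
      have h6 := Nat.lt_floor_add_one (Real.exp (L / 2))
      have h7 := Real.add_one_le_exp (L / 2)
      unfold mm
      linarith
    have h8 : 0 < Real.exp (L / 2) := Real.exp_pos _
    calc (ww L : ℝ) / mm L * Real.log L ≤ L / (Real.exp (L / 2) / 2) * L := by
          apply mul_le_mul _ h2 h3 (by positivity)
          apply div_le_div₀ (by linarith) h4 (by positivity) h5
      _ = 8 * ((L / 2) ^ 2 * Real.exp (-(L / 2))) := by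
          rw [Real.exp_neg]
          field_simp
          ring

lemma Vup_lim : Tendsto (fun L : ℝ => Vup L * Real.log L) atTop
    (𝓝 (Real.exp (-Real.eulerMascheroniConstant))) := by
  have h1 := mert'.comp tendsto_ww
  have h2 : Tendsto (fun L : ℝ => 1 + 1 / (mm L : ℝ)) atTop (𝓝 (1 + 0)) := by
    apply tendsto_const_nhds.add
    exact (tendsto_one_div_atTop_nhds_zero_nat (𝕜 := ℝ)).comp tendsto_mm
  have h3 := ((h1.mul log_ww).mul h2).add tail_lim
  rw [mul_one, add_zero, add_zero, mul_one] at h3
  refine h3.congr' ?_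
  filter_upwards [tendsto_ww.eventually_ge_atTop 2] with L hL
  have h3 : 0 < Real.log (ww L) := Real.log_pos (by exact_mod_cast hL)
  have h4 : (0 : ℝ) < Gam 1 (ww L) := lt_of_lt_of_le one_pos (one_le_Gam 1 _)
  unfold Vup
  rw [Function.comp_apply, add_mul]
  congr 1
  field_simp

lemma fstar_le_Vup {x : ℝ} (hx : 0 < x) (hm : 1 ≤ mm (Real.log (1 / x)))
    (hL : 0 ≤ Real.log (1 / x)) : fstar x ≤ Vup (Real.log (1 / x)) := by
  set L := Real.log (1 / x) with hLd
  have hmR : (1 : ℝ) ≤ mm L := by exact_mod_cast hm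
  have hW := Wp_pos (ww L)
  have hWR : (1 : ℝ) ≤ Wp (ww L) := by exact_mod_cast hW
  have h1 := fstar_le_zero hW (show 0 < mm L by omega) x hx (by
    have h2 : (Wp (ww L) : ℝ) ≤ Real.exp (L / 2) := by
      have h3 : (Wp (ww L) : ℝ) ≤ (4 : ℝ) ^ (ww L) := by exact_mod_cast Wp_le (ww L)
      refine h3.trans ?_
      have h5 : (4 : ℝ) ^ (ww L) = Real.exp (Real.log 4 * ww L) := by
        rw [mul_comm, Real.exp_nat_mul, Real.exp_log (by norm_num)]
      rw [h5, Real.exp_le_exp]
      have h6 : (ww L : ℝ) ≤ L / (2 * Real.log 4) := Nat.floor_le (by have := log4_pos; positivity)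
      have h7 := log4_pos
      rw [le_div_iff₀ (by positivity)] at h6
      linarith
    have h3 : (mm L : ℝ) ≤ Real.exp (L / 2) := Nat.floor_le (Real.exp_pos _).le
    have h4 : (Wp (ww L) : ℝ) * mm L ≤ Real.exp (L / 2) * Real.exp (L / 2) :=
      mul_le_mul h2 h3 (by positivity) (Real.exp_pos _).le
    rw [← Real.exp_add, add_halves, hLd, Real.exp_log (by positivity)] at h4
    calc x * ((Wp (ww L) : ℝ) * mm L) ≤ x * (1 / x) := mul_le_mul_of_nonneg_left h4 hx.le
      _ = 1 := by field_simp)
  refine h1.trans ?_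
  have hG : (0 : ℝ) < Gam 1 (ww L) := lt_of_lt_of_le one_pos (one_le_Gam 1 _)
  have hω : ((Wp (ww L)).primeFactors.card : ℝ) ≤ ww L := by exact_mod_cast omega_le (ww L)
  rw [totient_div, add_div]
  unfold Vup
  apply add_le_add
  · apply le_of_eq
    field_simp
  · apply div_le_div₀ (by positivity) hω (by linarith)
    nlinarith

/-- the asymptotic behaviour of `f*` at zero -/
theorem fstar_zero : Tendsto (fun x : ℝ => fstar x * Real.log (Real.log (1 / x))) (𝓝[>] 0)
    (𝓝 (Real.exp (-Real.eulerMascheroniConstant))) := by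
  have hL : Tendsto (fun x : ℝ => Real.log (1 / x)) (𝓝[>] 0) atTop := by
    have h1 := Real.tendsto_log_atTop.comp (tendsto_inv_nhdsGT_zero (𝕜 := ℝ))
    refine h1.congr ?_
    intro x
    rw [Function.comp_apply, one_div]
  apply tendsto_of_tendsto_of_tendsto_of_le_of_le' (Glow_lim.comp hL) (Vup_lim.comp hL)
  · filter_upwards [Ioo_mem_nhdsGT (show (0 : ℝ) < 1 by norm_num), hL.eventually_ge_atTop 1,
      (tendsto_yy.comp hL).eventually_ge_atTop 1] with x hx hx1 hx2
    rw [Function.comp_apply]
    apply mul_le_mul_of_nonneg_right _ (Real.log_nonneg hx1)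
    apply le_fstar hx.1.le hx.2.le
    intro A hA hAx
    have h2 : Real.exp (-Real.log (1 / x)) / 2 = x / 2 := by
      rw [← Real.log_inv, one_div, inv_inv, Real.exp_log hx.1]
    unfold Glow
    rw [h2]
    exact density_lower A (x / 2) (by linarith [hx.1]) (by linarith [hx.2])
      (by rw [hAx]; linarith [hx.1]) _ hx2
  · filter_upwards [Ioo_mem_nhdsGT (show (0 : ℝ) < 1 by norm_num), hL.eventually_ge_atTop 1,
      (tendsto_mm.comp hL).eventually_ge_atTop 1] with x hx hx1 hx2
    rw [Function.comp_apply]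
    apply mul_le_mul_of_nonneg_right _ (Real.log_nonneg hx1)
    exact fstar_le_Vup hx.1 hx2 (by linarith)

end Pool.Agent.TH881
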