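import Mathlib
import Pool.Agent.TH881.Iter
import Pool.Agent.TH881.Zero

/-! Sums of a prime and an iterated prime. -/

set_option autoImplicit false

namespace Pool.Agent.TH881
open Finset Filter Topology

open Classical in
/-- consecutive windows, general form -/
lemma blocksU (U : ℕ) (ε : ℝ) (hε : 0 < ε) (hε1 : ε < 1) :
    ∃ N0 : ℕ, ∀ K L : ℕ, 1 ≤ K → N0 ≤ K * L → ∀ κ : ℝ, 0 < κ → κ ≤ 1 →
    ((K * L : ℕ) : ℝ) / Real.log ((K * L : ℕ) : ℝ) ^ U ≤ κ * L →
    ∀ S : Finset ℕ, ∀ y : ℕ, 1 ≤ y → ∀ k0 : ℕ, 1 ≤ k0 → k0 ≤ K →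
    (∀ k, k0 ≤ k → k < K → κ * (k * L) ≤ ((S.filter (fun a => a ≤ k * L)).card : ℝ)) →
    ((K : ℝ) - k0) * ((1 - ε) * L * dens1 κ y) ≤
      (((Ioc (k0 * L) (K * L)).filter (Hit S)).card : ℝ) := by
  obtain ⟨N0, hN0⟩ := window1 U ε hε hε1
  refine ⟨N0, ?_⟩
  intro K L hKpos hKLN κ hκ hκ1 hNlog S y hy k0 hk0 hk0K hS
  have hLR : (0 : ℝ) ≤ L := Nat.cast_nonneg L
  have hκL : κ * L ≤ L := by nlinarith
  have key : ∀ k, k0 ≤ k → k ≤ K → ((k : ℝ) - k0) * ((1 - ε) * L * dens1 κ y) ≤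
      (((Ioc (k0 * L) (k * L)).filter (Hit S)).card : ℝ) := by
    intro k hk
    induction k, hk using Nat.le_induction with
    | base =>
      intro _
      rw [sub_self, zero_mul]
      positivity
    | succ k hk ih =>
      intro hkK
      have h1 := ih (by omega)
      have h2 := hN0 (K * L) (by omega) y hy (k * L) L (by
        have : (k + 1) * L ≤ K * L := Nat.mul_le_mul_right L hkK
        linarith [this, Nat.succ_mul k L]) (hNlog.trans hκL)
        (S.filter (fun a => a ≤ k * L)) (fun b hb => (mem_filter.1 hb).2) (by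
          refine hNlog.trans (le_trans ?_ (hS k hk (by omega)))
          have : (1 : ℝ) ≤ k := by exact_mod_cast hk0.trans hk
          have h3 : 0 ≤ κ * L := by positivity
          nlinarith) κ hκ hκ1 (by
          have := hS k hk (by omega)
          push_cast
          exact this)
      have h3 : ((Ioc (k * L) (k * L + L)).filter (Hit (S.filter (fun a => a ≤ k * L)))).card ≤
          ((Ioc (k * L) (k * L + L)).filter (Hit S)).card := by
        apply card_le_card
        intro n hn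
        rw [mem_filter] at hn ⊢
        obtain ⟨h4, b, hb, p, hp, hbp⟩ := hn
        exact ⟨h4, b, (mem_filter.1 hb).1, p, hp, hbp⟩
      have h3' : (((Ioc (k * L) (k * L + L)).filter (Hit (S.filter (fun a => a ≤ k * L)))).card : ℝ) ≤
          ((Ioc (k * L) (k * L + L)).filter (Hit S)).card := by exact_mod_cast h3
      have h5 : ((Ioc (k0 * L) ((k + 1) * L)).filter (Hit S)).card =
          ((Ioc (k0 * L) (k * L)).filter (Hit S)).card +
          ((Ioc (k * L) (k * L + L)).filter (Hit S)).card := by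
        rw [← card_union_of_disjoint, ← filter_union, Nat.succ_mul,
          Ioc_union_Ioc_eq_Ioc (Nat.mul_le_mul_right L hk) (Nat.le_add_right _ _)]
        rw [disjoint_left]
        intro n hn hn'
        rw [mem_filter, mem_Ioc] at hn hn'
        omega
      rw [h5]
      push_cast
      linarith
  exact key K hk0K le_rfl

open Classical in
/-- the `a`-primes in `(2, X]` -/
noncomputable def aP (a X : ℕ) : Finset ℕ :=
  (Ioc 2 X).filter (fun b => ∃ x : ℕ, 1 ≤ x ∧ pr^[a + 1] x = b)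

/-- the exponent -/
noncomputable def ell (a : ℕ) (X : ℝ) : ℝ := ((a : ℝ) + 1) * Real.log (2 * Real.log X)

lemma exp_ell (a : ℕ) {X : ℝ} (hX : 1 < X) :
    Real.exp (-(ell a X)) / 2 = 1 / (2 * (2 * Real.log X) ^ (a + 1)) := by
  have h : 0 < 2 * Real.log X := by have := Real.log_pos hX; linarith
  unfold ell
  rw [Real.exp_neg]
  have h2 : Real.exp (((a : ℝ) + 1) * Real.log (2 * Real.log X)) = (2 * Real.log X) ^ (a + 1) := by
    rw [show ((a : ℝ) + 1) = ((a + 1 : ℕ) : ℝ) by push_cast; ring, Real.exp_nat_mul, Real.exp_log h]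
  rw [h2]
  field_simp

lemma aP_card (a : ℕ) : ∀ᶠ M : ℕ in atTop, ∀ X : ℕ, M ≤ X →
    (M : ℝ) / (2 * (2 * Real.log X) ^ (a + 1)) ≤
      (((aP a X).filter (fun b => b ≤ M)).card : ℝ) := by
  classical
  filter_upwards [iter_pi (a + 1), (tendsto_div_log_pow (a + 1)).eventually_ge_atTop 2,
    eventually_ge_atTop 3] with M h1 h2 h3 X hX
  have hMR : (3 : ℝ) ≤ M := by exact_mod_cast h3
  have hlogM : 0 < Real.log M := Real.log_pos (by linarith)
  have hlogX : Real.log M ≤ Real.log X := Real.log_le_log (by linarith) (by exact_mod_cast hX)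
  obtain ⟨Q, hQ⟩ : ∃ Q : ℕ, Q = Nat.primeCounting^[a + 1] M := ⟨_, rfl⟩
  rw [← hQ] at h1
  have hcard : Q ≤ ((aP a X).filter (fun b => b ≤ M)).card + 1 := by
    have h4 : Q = ((Icc 1 Q).image (fun x => pr^[a + 1] x)).card := by
      rw [card_image_of_injOn, Nat.card_Icc]
      · omega
      · intro x hx y hy hxy
        rw [mem_coe, mem_Icc] at hx hy
        rcases lt_trichotomy x y with h | h | h
        · have := iter_lt (a + 1) hx.1 h
          have h5 : pr^[a + 1] x = pr^[a + 1] y := hxy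
          omega
        · exact h
        · have := iter_lt (a + 1) hy.1 h
          have h5 : pr^[a + 1] x = pr^[a + 1] y := hxy
          omega
    have h5 : (Icc 1 Q).image (fun x => pr^[a + 1] x) ⊆
        insert 2 ((aP a X).filter (fun b => b ≤ M)) := by
      intro b hb
      rw [mem_image] at hb
      obtain ⟨x, hx, rfl⟩ := hb
      rw [mem_Icc] at hx
      rw [mem_insert, mem_filter]
      have h6 : pr^[a + 1] x ≤ M := iter_le (a + 1) hx.1 (by rw [← hQ]; exact hx.2)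
      have h7 : 2 ≤ pr^[a + 1] x := by
        rw [Function.iterate_succ_apply']
        exact (pr_prime _).two_le
      rcases Nat.eq_or_lt_of_le h7 with h8 | h8
      · left; exact h8.symm
      · right
        refine ⟨?_, h6⟩
        unfold aP
        rw [mem_filter, mem_Ioc]
        exact ⟨⟨h8, h6.trans hX⟩, x, hx.1, rfl⟩
    calc Q = ((Icc 1 Q).image (fun x => pr^[a + 1] x)).card := h4
      _ ≤ (insert 2 ((aP a X).filter (fun b => b ≤ M))).card := card_le_card h5
      _ ≤ _ := card_insert_le _ _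
  have hcard' : (Q : ℝ) ≤ (((aP a X).filter (fun b => b ≤ M)).card : ℝ) + 1 := by
    exact_mod_cast hcard
  have h6 : (M : ℝ) / (2 * (2 * Real.log X) ^ (a + 1)) ≤ (M : ℝ) / (2 * Real.log M) ^ (a + 1) / 2 := by
    rw [div_div, mul_comm ((2 * Real.log M) ^ (a + 1)) 2]
    apply div_le_div_of_nonneg_left (by positivity) (by positivity)
    have := pow_le_pow_left₀ (show 0 ≤ 2 * Real.log M by linarith)
      (show 2 * Real.log M ≤ 2 * Real.log X by linarith) (a + 1)
    linarith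
  linarith

open Classical in
lemma rep_count (a : ℕ) (ε : ℝ) (hε : 0 < ε) (hε1 : ε < 1) : ∀ᶠ X : ℕ in atTop,
    1 ≤ yy (ell a X) →
    (1 - ε) ^ 3 * Glow (ell a X) * X ≤ (((Icc 1 X).filter (Hit (aP a X))).card : ℝ) := by
  obtain ⟨K, hK⟩ := exists_nat_ge (1 / ε)
  have hKε : 1 ≤ (K : ℝ) * ε := by rwa [div_le_iff₀ hε] at hK
  have hKpos : (0 : ℝ) < K := by
    by_contra h
    push Not at h
    nlinarith
  have hK1 : 1 ≤ K := by exact_mod_cast hKpos
  have hK1R : (1 : ℝ) ≤ K := by exact_mod_cast hK1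
  obtain ⟨N0, hN0⟩ := blocksU (a + 2) ε hε hε1
  obtain ⟨n1, hn1⟩ := eventually_atTop.1 (aP_card a)
  obtain ⟨n2, hn2⟩ := exists_nat_ge ((K : ℝ) / ε)
  have hlogev : ∀ᶠ X : ℕ in atTop, (2 : ℝ) * K * 2 ^ (a + 1) * 2 ^ (a + 2) ≤ Real.log (X : ℝ) :=
    (Real.tendsto_log_atTop.comp tendsto_natCast_atTop_atTop).eventually_ge_atTop _
  filter_upwards [eventually_ge_atTop (K * (n1 + 2) + 2 * N0 + n2 + 4), hlogev] with X hX hlog hyy
  obtain ⟨L, hL⟩ : ∃ L : ℕ, L = X / K := ⟨_, rfl⟩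
  have hLn1 : n1 + 2 ≤ L := by
    rw [hL, Nat.le_div_iff_mul_le (by omega)]
    linarith [Nat.mul_comm K (n1 + 2)]
  have hKLX : K * L ≤ X := by rw [hL]; exact Nat.mul_div_le X K
  have hXn2 : (n2 : ℝ) ≤ X := by
    have : n2 ≤ X := by omega
    exact_mod_cast this
  have hXR : (4 : ℝ) ≤ X := by
    have : 4 ≤ X := by omega
    exact_mod_cast this
  have hXL' : X < K * L + K := by
    have := Nat.lt_div_mul_add (a := X) (b := K) (by omega)
    rw [← hL] at this
    linarith [Nat.mul_comm L K]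
  have hXL : (X : ℝ) < K * L + K := by exact_mod_cast hXL'
  have hL2 : 2 ≤ L := by omega
  have hLR : (2 : ℝ) ≤ L := by exact_mod_cast hL2
  have hX2KL : X ≤ 2 * (K * L) := by nlinarith
  have hX2 : (X : ℝ) ≤ 2 * (K * L) := by exact_mod_cast hX2KL
  have hlogX : 0 < Real.log (X : ℝ) := Real.log_pos (by linarith)
  have hKL0 : (0 : ℝ) < ((K * L : ℕ) : ℝ) := by push_cast; positivity
  have hlogKL : Real.log (X : ℝ) / 2 ≤ Real.log ((K * L : ℕ) : ℝ) := by
    have h1 : (X : ℝ) ≤ ((K * L : ℕ) : ℝ) ^ 2 := by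
      push_cast
      have h3 : (2 : ℝ) ≤ K * L := by nlinarith
      nlinarith
    have h2 := Real.log_le_log (by linarith) h1
    rw [Real.log_pow] at h2
    push_cast at h2 ⊢
    linarith
  have hκeq := exp_ell a (show (1 : ℝ) < X by linarith)
  obtain ⟨κ, hκd⟩ : ∃ κ : ℝ, κ = Real.exp (-(ell a X)) / 2 := ⟨_, rfl⟩
  have hκeq' : κ = 1 / (2 * (2 * Real.log X) ^ (a + 1)) := by rw [hκd, hκeq]
  have hκ0 : 0 < κ := by rw [hκeq']; positivity
  have hlog1 : 1 ≤ 2 * Real.log X := by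
    have h1 : (1 : ℝ) ≤ 2 * K * 2 ^ (a + 1) * 2 ^ (a + 2) := by
      have h2 : (1 : ℝ) ≤ 2 ^ (a + 1) := one_le_pow₀ (by norm_num)
      have h3 : (1 : ℝ) ≤ 2 ^ (a + 2) := one_le_pow₀ (by norm_num)
      have h4 : (1 : ℝ) ≤ 2 * K * 2 ^ (a + 1) := by nlinarith
      nlinarith
    linarith
  have hκ1 : κ ≤ 1 := by
    rw [hκeq', div_le_one (by positivity)]
    have := one_le_pow₀ hlog1 (n := a + 1)
    linarith
  have hcond : ((K * L : ℕ) : ℝ) / Real.log ((K * L : ℕ) : ℝ) ^ (a + 2) ≤ κ * L := by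
    have h1 : (Real.log (X : ℝ) / 2) ^ (a + 2) ≤ Real.log ((K * L : ℕ) : ℝ) ^ (a + 2) :=
      pow_le_pow_left₀ (by linarith) hlogKL _
    have h2 : ((K * L : ℕ) : ℝ) / Real.log ((K * L : ℕ) : ℝ) ^ (a + 2) ≤
        ((K * L : ℕ) : ℝ) / (Real.log (X : ℝ) / 2) ^ (a + 2) :=
      div_le_div_of_nonneg_left hKL0.le (by positivity) h1
    refine h2.trans ?_
    rw [hκeq', div_mul_eq_mul_div, one_mul]
    rw [div_le_div_iff₀ (by positivity) (by positivity)]
    push_cast
    have h3 : (2 : ℝ) * (2 * Real.log X) ^ (a + 1) = 2 * 2 ^ (a + 1) * Real.log X ^ (a + 1) := by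
      rw [mul_pow]; ring
    have h4 : (Real.log (X : ℝ) / 2) ^ (a + 2) = Real.log X ^ (a + 1) * Real.log X / 2 ^ (a + 2) := by
      rw [div_pow, pow_succ (Real.log (X : ℝ)) (a + 1)]
    rw [h3, h4, mul_div_assoc', le_div_iff₀ (by positivity)]
    have h5 : 0 ≤ (L : ℝ) * Real.log X ^ (a + 1) := by positivity
    calc (K : ℝ) * L * (2 * 2 ^ (a + 1) * Real.log X ^ (a + 1)) * 2 ^ (a + 2)
        = (L * Real.log X ^ (a + 1)) * (2 * K * 2 ^ (a + 1) * 2 ^ (a + 2)) := by ring
      _ ≤ (L * Real.log X ^ (a + 1)) * Real.log X := mul_le_mul_of_nonneg_left hlog h5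
      _ = L * (Real.log X ^ (a + 1) * Real.log X) := by ring
  have h1 := hN0 K L hK1 (by omega) κ hκ0 hκ1 hcond (aP a X) (yy (ell a X)) hyy 1 le_rfl hK1 (by
    intro k hk hkK
    have h2 : n1 ≤ k * L := by
      have : 1 * L ≤ k * L := Nat.mul_le_mul_right _ hk
      omega
    have h3 : k * L ≤ X := by
      have : k * L ≤ K * L := Nat.mul_le_mul_right _ (by omega)
      omega
    have h4 := hn1 (k * L) h2 X h3
    rw [hκeq']
    refine le_trans (le_of_eq ?_) h4
    push_cast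
    ring)
  have h2 : (((Ioc (1 * L) (K * L)).filter (Hit (aP a X))).card : ℝ) ≤
      (((Icc 1 X).filter (Hit (aP a X))).card : ℝ) := by
    have : ((Ioc (1 * L) (K * L)).filter (Hit (aP a X))).card ≤
        ((Icc 1 X).filter (Hit (aP a X))).card := by
      apply card_le_card
      apply filter_subset_filter
      intro n hn
      rw [mem_Ioc] at hn
      rw [mem_Icc]
      omega
    exact_mod_cast this
  refine le_trans ?_ (h1.trans h2)
  have hG : Glow (ell a X) = dens1 κ (yy (ell a X)) := by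
    unfold Glow
    rw [← hκd]
  rw [hG]
  have hd := dens1_nonneg hκ0 (yy (ell a X))
  obtain ⟨d, hdd⟩ : ∃ d : ℝ, d = dens1 κ (yy (ell a X)) := ⟨_, rfl⟩
  rw [← hdd] at hd ⊢
  have h3 : (1 - ε) * X ≤ K * L := by
    have h5 : (K : ℝ) ≤ ε * X := by
      rw [div_le_iff₀ hε] at hn2
      nlinarith
    linarith
  have h4 : (1 - ε) * ((K : ℝ) * L) ≤ ((K : ℝ) - (1 : ℕ)) * L := by
    push_cast
    nlinarith
  have h5 : 0 ≤ (1 - ε) * d := mul_nonneg (by linarith) hd
  calc (1 - ε) ^ 3 * d * X = (1 - ε) * d * ((1 - ε) * ((1 - ε) * X)) := by ring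
    _ ≤ (1 - ε) * d * ((1 - ε) * (K * L)) := by
        apply mul_le_mul_of_nonneg_left _ h5
        apply mul_le_mul_of_nonneg_left h3
        linarith
    _ ≤ (1 - ε) * d * (((K : ℝ) - (1 : ℕ)) * L) := mul_le_mul_of_nonneg_left h4 h5
    _ = ((K : ℝ) - (1 : ℕ)) * ((1 - ε) * L * d) := by ring

end Pool.Agent.TH881
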