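import Mathlib
import Pool.Agent.TH881.Rep

/-! The number of even numbers which are a sum of a prime and an iterated prime. -/

set_option autoImplicit false

namespace Pool.Agent.TH881
open Finset Filter Topology

/-- `m` is a sum of an `a`-prime and a different `b`-prime -/
def IsRep (a b m : ℕ) : Prop :=
  ∃ x y : ℕ, 0 < x ∧ 0 < y ∧ pr^[a + 1] x ≠ pr^[b + 1] y ∧ pr^[a + 1] x + pr^[b + 1] y = m

lemma exists_pr {p : ℕ} (hp : p.Prime) : ∃ y : ℕ, 0 < y ∧ pr y = p := by
  refine ⟨Nat.count Nat.Prime p + 1, by omega, ?_⟩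
  unfold pr
  rw [Nat.add_sub_cancel]
  exact Nat.nth_count hp

open Classical in
lemma hits_subset (a X : ℕ) : ((Icc 1 X).filter (Hit (aP a X))) ⊆
    ((Icc 1 X).filter (fun m => Even m ∧ IsRep a 0 m)) ∪
      ((aP a X).image (fun b => b + 2) ∪ (aP a X).image (fun b => 2 * b)) := by
  intro m hm
  rw [mem_filter] at hm
  obtain ⟨hm1, b, hb, p, hp, hbp⟩ := hm
  rw [mem_union, mem_union, mem_image, mem_image, mem_filter]
  by_cases h2 : p = 2
  · right; left
    exact ⟨b, hb, by rw [← hbp, h2]⟩
  by_cases h3 : b = p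
  · right; right
    exact ⟨b, hb, by rw [← hbp, ← h3]; ring⟩
  left
  unfold aP at hb
  rw [mem_filter, mem_Ioc] at hb
  obtain ⟨⟨hb2, -⟩, x, hx, hxb⟩ := hb
  have hbp' : b.Prime := by
    rw [← hxb, Function.iterate_succ_apply']
    exact pr_prime _
  refine ⟨hm1, ?_, ?_⟩
  · rw [← hbp]
    exact (hbp'.odd_of_ne_two (by omega)).add_odd (hp.odd_of_ne_two h2)
  · obtain ⟨y, hy, hyp⟩ := exists_pr hp
    refine ⟨x, y, hx, hy, ?_, ?_⟩
    · rw [hxb, zero_add, Function.iterate_one, hyp]
      exact h3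
    · rw [hxb, zero_add, Function.iterate_one, hyp]
      exact hbp

open Classical in
lemma aP_card_le (a : ℕ) : ∀ᶠ X : ℕ in atTop,
    ((aP a X).card : ℝ) ≤ 3 * (X / Real.log X) := by
  have h2 := (tendsto_natCast_atTop_atTop (R := ℝ)).eventually
    (Chebyshev.eventually_primeCounting_le (ε := 1) one_pos)
  filter_upwards [h2, eventually_ge_atTop 3] with X hX hX3
  have hXR : (3 : ℝ) ≤ X := by exact_mod_cast hX3
  have hlog : 0 < Real.log (X : ℝ) := Real.log_pos (by linarith)
  rw [Nat.floor_natCast] at hX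
  have h3 : (aP a X).card ≤ Nat.primeCounting X := by
    have h4 : Nat.primeCounting X = Nat.count Nat.Prime (X + 1) := rfl
    rw [h4, Nat.count_eq_card_filter_range]
    apply card_le_card
    intro b hb
    unfold aP at hb
    rw [mem_filter, mem_Ioc] at hb
    obtain ⟨⟨hb2, hb3⟩, x, hx, hxb⟩ := hb
    rw [mem_filter, mem_range]
    refine ⟨by omega, ?_⟩
    rw [← hxb, Function.iterate_succ_apply']
    exact pr_prime _
  have h4 : ((aP a X).card : ℝ) ≤ Nat.primeCounting X := by exact_mod_cast h3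
  refine h4.trans (hX.trans ?_)
  have h5 : Real.log 4 ≤ 2 := by
    have h1 : Real.log 4 = 2 * Real.log 2 := by
      rw [show (4 : ℝ) = 2 ^ 2 by norm_num, Real.log_pow]
      norm_num
    have := Real.log_two_lt_d9
    rw [h1]
    linarith
  rw [mul_div_assoc]
  apply mul_le_mul_of_nonneg_right _ (by positivity)
  linarith

lemma ell_ratio (a : ℕ) : Tendsto (fun X : ℕ => Real.log (Real.log (Real.log X)) /
    Real.log (ell a X)) atTop (𝓝 1) := by
  have hz : Tendsto (fun X : ℕ => Real.log (Real.log (X : ℝ))) atTop atTop :=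
    Real.tendsto_log_atTop.comp (Real.tendsto_log_atTop.comp tendsto_natCast_atTop_atTop)
  have h : Tendsto (fun X : ℕ => Real.log (ell a X) / Real.log (Real.log (Real.log X))) atTop
      (𝓝 1) := by
    have hup : Tendsto (fun X : ℕ => Real.log (2 * ((a : ℝ) + 1)) *
        (1 / Real.log (Real.log (Real.log (X : ℝ)))) + 1) atTop
        (𝓝 (Real.log (2 * ((a : ℝ) + 1)) * 0 + 1)) :=
      ((inv_log_small.comp hz).const_mul _).add tendsto_const_nhds
    rw [mul_zero, zero_add] at hup
    apply tendsto_of_tendsto_of_tendsto_of_le_of_le' tendsto_const_nhds hup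
    · filter_upwards [hz.eventually_ge_atTop (Real.exp 1), eventually_ge_atTop 3] with X hX hX3
      have hXR : (3 : ℝ) ≤ X := by exact_mod_cast hX3
      have hlogX : 0 < Real.log (X : ℝ) := Real.log_pos (by linarith)
      obtain ⟨z, hzd⟩ : ∃ z : ℝ, z = Real.log (Real.log (X : ℝ)) := ⟨_, rfl⟩
      rw [← hzd] at hX ⊢
      have hz0 : 0 < z := lt_of_lt_of_le (Real.exp_pos 1) hX
      have hlogz : 1 ≤ Real.log z := by
        rw [Real.le_log_iff_exp_le hz0]
        exact hX
      rw [le_div_iff₀ (by linarith), one_mul]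
      apply Real.log_le_log hz0
      unfold ell
      rw [Real.log_mul (by norm_num) hlogX.ne', ← hzd]
      have h2 : 0 < Real.log 2 := Real.log_pos (by norm_num)
      have h3 : (0 : ℝ) ≤ a := Nat.cast_nonneg a
      nlinarith
    · filter_upwards [hz.eventually_ge_atTop (Real.exp 1), eventually_ge_atTop 3] with X hX hX3
      have hXR : (3 : ℝ) ≤ X := by exact_mod_cast hX3
      have hlogX : 0 < Real.log (X : ℝ) := Real.log_pos (by linarith)
      obtain ⟨z, hzd⟩ : ∃ z : ℝ, z = Real.log (Real.log (X : ℝ)) := ⟨_, rfl⟩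
      rw [← hzd] at hX ⊢
      have hz0 : 0 < z := lt_of_lt_of_le (Real.exp_pos 1) hX
      have hz1 : 1 ≤ z := le_trans (by linarith [Real.add_one_le_exp (1 : ℝ)]) hX
      have hlogz : 1 ≤ Real.log z := by
        rw [Real.le_log_iff_exp_le hz0]
        exact hX
      have h3 : (0 : ℝ) ≤ a := Nat.cast_nonneg a
      have h2 : 0 < Real.log 2 := Real.log_pos (by norm_num)
      have h2' : Real.log 2 < 1 := by have := Real.log_two_lt_d9; linarith
      have h4 : ell a X ≤ 2 * ((a : ℝ) + 1) * z := by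
        unfold ell
        rw [Real.log_mul (by norm_num) hlogX.ne', ← hzd]
        nlinarith
      have h5 : 0 < ell a X := by
        unfold ell
        rw [Real.log_mul (by norm_num) hlogX.ne', ← hzd]
        positivity
      have h6 := Real.log_le_log h5 h4
      rw [Real.log_mul (by positivity) hz0.ne'] at h6
      rw [div_le_iff₀ (by linarith)]
      have h7 : (Real.log (2 * ((a : ℝ) + 1)) * (1 / Real.log z) + 1) * Real.log z =
          Real.log (2 * ((a : ℝ) + 1)) + Real.log z := by
        field_simp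
      rw [h7]
      exact h6
  have h2 := h.inv₀ one_ne_zero
  rw [inv_one] at h2
  refine h2.congr ?_
  intro L
  rw [inv_div]

lemma tendsto_ell (a : ℕ) : Tendsto (fun X : ℕ => ell a X) atTop atTop := by
  have h1 : Tendsto (fun X : ℕ => 2 * Real.log (X : ℝ)) atTop atTop :=
    (Real.tendsto_log_atTop.comp tendsto_natCast_atTop_atTop).const_mul_atTop (by norm_num)
  exact (Real.tendsto_log_atTop.comp h1).const_mul_atTop (by positivity)

open Classical in
/-- many even numbers are sums of a prime and an `a`-prime -/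
theorem rep_many (a : ℕ) (c : ℝ) (hc : c < Real.exp (-Real.eulerMascheroniConstant)) :
    ∀ᶠ X : ℕ in atTop, c * (X / Real.log (Real.log (Real.log X))) ≤
      (((Icc 1 X).filter (fun m => Even m ∧ IsRep a 0 m)).card : ℝ) := by
  have hE : 0 < Real.exp (-Real.eulerMascheroniConstant) := Real.exp_pos _
  obtain ⟨ε, hε, hε1, hεc⟩ : ∃ ε : ℝ, 0 < ε ∧ ε < 1 ∧
      c < (1 - ε) ^ 3 * Real.exp (-Real.eulerMascheroniConstant) := by
    have h1 : Tendsto (fun ε : ℝ => (1 - ε) ^ 3 * Real.exp (-Real.eulerMascheroniConstant)) (𝓝[>] 0)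
        (𝓝 ((1 - 0) ^ 3 * Real.exp (-Real.eulerMascheroniConstant))) :=
      (Continuous.tendsto (by fun_prop) 0).mono_left nhdsWithin_le_nhds
    have h2 : (1 - 0 : ℝ) ^ 3 * Real.exp (-Real.eulerMascheroniConstant) =
        Real.exp (-Real.eulerMascheroniConstant) := by ring
    rw [h2] at h1
    have h3 := h1.eventually (eventually_gt_nhds hc)
    have h4 : ∀ᶠ ε : ℝ in 𝓝[>] 0, ε ∈ Set.Ioo (0 : ℝ) 1 := Ioo_mem_nhdsGT (by norm_num)
    obtain ⟨ε, h5, h6⟩ := (h3.and h4).exists
    exact ⟨ε, h6.1, h6.2, h5⟩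
  have hlll : Tendsto (fun X : ℕ => Real.log (Real.log (Real.log (X : ℝ)))) atTop atTop :=
    Real.tendsto_log_atTop.comp (Real.tendsto_log_atTop.comp
      (Real.tendsto_log_atTop.comp tendsto_natCast_atTop_atTop))
  have hll : Tendsto (fun X : ℕ => Real.log (Real.log (X : ℝ))) atTop atTop :=
    Real.tendsto_log_atTop.comp (Real.tendsto_log_atTop.comp tendsto_natCast_atTop_atTop)
  have hlog : Tendsto (fun X : ℕ => Real.log (X : ℝ)) atTop atTop :=
    Real.tendsto_log_atTop.comp tendsto_natCast_atTop_atTop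
  have herr : Tendsto (fun X : ℕ => 6 * (Real.log (Real.log (Real.log (X : ℝ))) / Real.log X))
      atTop (𝓝 0) := by
    have h1 : Tendsto (fun X : ℕ => 6 * (Real.log (Real.log (X : ℝ)) / Real.log X)) atTop
        (𝓝 (6 * 0)) := (loglog_small.comp tendsto_natCast_atTop_atTop).const_mul _
    rw [mul_zero] at h1
    apply tendsto_of_tendsto_of_tendsto_of_le_of_le' tendsto_const_nhds h1
    · filter_upwards [hlll.eventually_ge_atTop 0, hlog.eventually_ge_atTop 1] with X h2 h3
      positivity
    · filter_upwards [hll.eventually_ge_atTop 1, hlog.eventually_ge_atTop 1] with X h2 h3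
      have h4 : Real.log (Real.log (Real.log (X : ℝ))) ≤ Real.log (Real.log (X : ℝ)) :=
        (Real.log_le_sub_one_of_pos (by linarith)).trans (by linarith)
      apply mul_le_mul_of_nonneg_left _ (by norm_num)
      exact div_le_div_of_nonneg_right h4 (by linarith)
  have hmain : Tendsto (fun X : ℕ => (1 - ε) ^ 3 * (Glow (ell a X) * Real.log (ell a X) *
      (Real.log (Real.log (Real.log X)) / Real.log (ell a X))) -
      6 * (Real.log (Real.log (Real.log (X : ℝ))) / Real.log X)) atTop
      (𝓝 ((1 - ε) ^ 3 * (Real.exp (-Real.eulerMascheroniConstant) * 1) - 0)) :=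
    (((Glow_lim.comp (tendsto_ell a)).mul (ell_ratio a)).const_mul _).sub herr
  rw [mul_one, sub_zero] at hmain
  filter_upwards [hmain.eventually (eventually_gt_nhds hεc), rep_count a ε hε hε1, aP_card_le a,
    hlll.eventually_ge_atTop 1, (tendsto_yy.comp (tendsto_ell a)).eventually_ge_atTop 1,
    (tendsto_ell a).eventually_ge_atTop (Real.exp 1), eventually_ge_atTop 3]
    with X h1 h2 h3 h4 h5 h6 h7
  have h8 := h2 h5
  have hXR : (3 : ℝ) ≤ X := by exact_mod_cast h7
  have hlogX : 0 < Real.log (X : ℝ) := Real.log_pos (by linarith)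
  have hlell : 1 ≤ Real.log (ell a X) := by
    rw [Real.le_log_iff_exp_le (lt_of_lt_of_le (Real.exp_pos 1) h6)]
    exact h6
  obtain ⟨T, hT⟩ : ∃ T : ℝ, T = Real.log (Real.log (Real.log (X : ℝ))) := ⟨_, rfl⟩
  rw [← hT] at h1 h4 ⊢
  have h9 : (((Icc 1 X).filter (Hit (aP a X))).card : ℝ) ≤
      (((Icc 1 X).filter (fun m => Even m ∧ IsRep a 0 m)).card : ℝ) + 2 * ((aP a X).card : ℝ) := by
    have h10 := card_le_card (hits_subset a X)
    have h11 := h10.trans (card_union_le _ _)
    have h12 := card_union_le ((aP a X).image (fun b => b + 2)) ((aP a X).image (fun b => 2 * b))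
    have h13 : ((aP a X).image (fun b => b + 2)).card ≤ (aP a X).card := card_image_le
    have h14 : ((aP a X).image (fun b => 2 * b)).card ≤ (aP a X).card := card_image_le
    have h15 : ((Icc 1 X).filter (Hit (aP a X))).card ≤
      ((Icc 1 X).filter (fun m => Even m ∧ IsRep a 0 m)).card + 2 * (aP a X).card := by omega
    exact_mod_cast h15
  have h10 : Glow (ell a X) * Real.log (ell a X) * (T / Real.log (ell a X)) =
      Glow (ell a X) * T := by
    field_simp
  rw [h10] at h1
  have h11 : c * (X / T) ≤ ((1 - ε) ^ 3 * (Glow (ell a X) * T) - 6 * (T / Real.log X)) * (X / T) :=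
    mul_le_mul_of_nonneg_right h1.le (by positivity)
  have h12 : ((1 - ε) ^ 3 * (Glow (ell a X) * T) - 6 * (T / Real.log X)) * (X / T) =
      (1 - ε) ^ 3 * Glow (ell a X) * X - 6 * (X / Real.log X) := by
    field_simp
  rw [h12] at h11
  linarith

end Pool.Agent.TH881
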