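import Mathlib
import Pool.Agent.TH881.Low

/-! The complement of `A + P`, and the lower bound for the complement of `A`. -/

set_option autoImplicit false

namespace Pool.Agent.TH881
open Finset Filter Topology

lemma le_of_forall_cube' {c d : ℝ} (h : ∀ ε : ℝ, 0 < ε → ε < 1 → (1 - ε) ^ 3 * c ≤ d + 2 * ε) :
    c ≤ d := by
  have h1 : Tendsto (fun ε : ℝ => (1 - ε) ^ 3 * c - 2 * ε) (𝓝[>] 0)
      (𝓝 ((1 - 0) ^ 3 * c - 2 * 0)) :=
    (Continuous.tendsto (by fun_prop) 0).mono_left nhdsWithin_le_nhds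
  have h2 : (1 - 0 : ℝ) ^ 3 * c - 2 * 0 = c := by ring
  rw [h2] at h1
  apply le_of_tendsto h1
  filter_upwards [Ioo_mem_nhdsGT (show (0 : ℝ) < 1 by norm_num)] with ε hε
  linarith [h ε hε.1 hε.2]

lemma cnt_interval (R : Set ℕ) (a b : ℕ) (hab : a ≤ b) :
    ∃ T : Finset ℕ, (∀ m, m ∈ T ↔ (a < m ∧ m ≤ b) ∧ m ∉ R) ∧ T.card + cnt R b = (b - a) + cnt R a := by
  classical
  refine ⟨(Ioc a b).filter (fun m => m ∉ R), ?_, ?_⟩
  · intro m
    rw [mem_filter, mem_Ioc]
  · have h1 : cnt R b = cnt R a + ((Ioc a b).filter (fun m => m ∈ R)).card := by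
      unfold cnt
      rw [← card_union_of_disjoint]
      · congr 1
        ext m
        rw [mem_union, mem_filter, mem_filter, mem_filter, mem_Icc, mem_Icc, mem_Ioc]
        constructor
        · rintro ⟨⟨h1, h2⟩, h3⟩
          by_cases h4 : m ≤ a
          · left; exact ⟨⟨h1, h4⟩, h3⟩
          · right; exact ⟨⟨by omega, h2⟩, h3⟩
        · rintro (⟨⟨h1, h2⟩, h3⟩ | ⟨⟨h1, h2⟩, h3⟩)
          · exact ⟨⟨h1, by omega⟩, h3⟩
          · exact ⟨⟨by omega, h2⟩, h3⟩
      · rw [disjoint_left]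
        intro m hm hm'
        rw [mem_filter, mem_Icc] at hm
        rw [mem_filter, mem_Ioc] at hm'
        omega
    have h2 := card_filter_add_card_filter_not (s := Ioc a b) (fun m => m ∈ R)
    rw [Nat.card_Ioc] at h2
    omega

lemma diff_lower (A : Set ℕ) (κ : ℝ) (hκ : 0 < κ) (hκ1 : κ ≤ 1)
    (hAP : κ < 1 - lowerDensity (plusPrimes A)) (y : ℕ) (hy : 1 ≤ y) :
    dens1 κ y ≤ 1 - lowerDensity A := by
  classical
  apply le_of_forall_cube'
  intro ε hε hε1
  obtain ⟨K, hK⟩ := exists_nat_ge (1 / ε)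
  have hKε : 1 ≤ (K : ℝ) * ε := by rwa [div_le_iff₀ hε] at hK
  have hKpos : (0 : ℝ) < K := by
    by_contra h
    push Not at h
    nlinarith
  have hK1 : 1 ≤ K := by exact_mod_cast hKpos
  obtain ⟨d, hd⟩ : ∃ d : ℝ, d = lowerDensity (plusPrimes A) := ⟨_, rfl⟩
  obtain ⟨x, hx⟩ : ∃ x : ℝ, x = lowerDensity A := ⟨_, rfl⟩
  rw [← hd] at hAP
  rw [← hx]
  have hd1 : d ≤ 1 := by rw [hd]; exact lowerDensity_le_one _
  have hd0 : 0 ≤ d := by rw [hd]; exact lowerDensity_nonneg _
  obtain ⟨g, hg⟩ : ∃ g : ℝ, g = 1 - d - κ := ⟨_, rfl⟩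
  have hg0 : 0 < g := by rw [hg]; linarith
  obtain ⟨η, hη⟩ : ∃ η : ℝ, η = g / (8 * K) := ⟨_, rfl⟩
  have hη0 : 0 < η := by rw [hη]; positivity
  have hηK : 8 * K * η = g := by rw [hη]; field_simp
  obtain ⟨L0, hL0⟩ := blocks K ε κ hε hε1 hκ hκ1
  obtain ⟨n1, hn1⟩ := eventually_atTop.1 (eventually_of_lt (A := plusPrimes A) (c := d - η)
    (by rw [← hd]; linarith))
  obtain ⟨n3, hn3⟩ := eventually_atTop.1 (eventually_of_lt (A := A) (c := x - ε)
    (by rw [← hx]; linarith))
  obtain ⟨n2, hn2⟩ := exists_nat_ge ((K : ℝ) / ε + 4 * K * n1 / g + 1 / ε)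
  have hfr := frequently_of_lt (A := plusPrimes A) (c := d + η) (by rw [← hd]; linarith)
  have hdd := dens1_nonneg hκ y
  obtain ⟨N, hN1, hN2⟩ := (hfr.and_eventually
    (eventually_ge_atTop (K * (L0 + 2) + n2 + n3 + 1))).exists
  obtain ⟨L, hL⟩ : ∃ L : ℕ, L = N / K := ⟨_, rfl⟩
  have hLL0 : L0 + 2 ≤ L := by
    rw [hL, Nat.le_div_iff_mul_le (by omega)]
    linarith [Nat.mul_comm K (L0 + 2)]
  have hKL : K * L ≤ N := by rw [hL]; exact Nat.mul_div_le N K
  have hNn2 : (n2 : ℝ) ≤ N := by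
    have : n2 ≤ N := by omega
    exact_mod_cast this
  have hNL : (N : ℝ) < K * L + K := by
    have := Nat.lt_div_mul_add (a := N) (b := K) (by omega)
    rw [← hL] at this
    have h5 : N < K * L + K := by linarith [Nat.mul_comm L K]
    exact_mod_cast h5
  have hLR : (2 : ℝ) ≤ L := by
    have : 2 ≤ L := by omega
    exact_mod_cast this
  have hN2L : (N : ℝ) ≤ 2 * K * L := by nlinarith
  have hall : ∀ n : ℕ, (d - η) * n ≤ cnt (plusPrimes A) n + n1 := by
    intro n
    rcases le_or_gt n1 n with h | h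
    · have h1 := hn1 n h
      have h2 : (0 : ℝ) ≤ n1 := by positivity
      linarith
    · have h1 : (n : ℝ) ≤ n1 := by exact_mod_cast h.le
      have h2 : (0 : ℝ) ≤ cnt (plusPrimes A) n := by positivity
      have h3 : (0 : ℝ) ≤ n := by positivity
      nlinarith
  have hpos1 : 0 ≤ (K : ℝ) / ε := by positivity
  have hpos2 : 0 ≤ 4 * (K : ℝ) * n1 / g := by positivity
  have hpos3 : 0 ≤ 1 / ε := by positivity
  have h1 := hL0 L (by omega) ((range N).filter (fun s => N - s ∉ plusPrimes A)) y hy 1 le_rfl hK1 (by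
    intro k hk hkK
    have hkL : k * L + L ≤ N := by
      have h2 : (k + 1) * L ≤ K * L := Nat.mul_le_mul_right L hkK
      linarith [Nat.succ_mul k L]
    obtain ⟨T, hT, hTc⟩ := cnt_interval (plusPrimes A) (N - k * L - 1) N (by omega)
    have h2 : T.card ≤ (((range N).filter (fun s => N - s ∉ plusPrimes A)).filter
        (fun a => a ≤ k * L)).card := by
      apply card_le_card_of_injOn (fun m => N - m)
      · intro m hm
        have hm' := (hT m).1 hm
        rw [mem_coe, mem_filter, mem_filter, mem_range]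
        beta_reduce
        refine ⟨⟨by omega, ?_⟩, by omega⟩
        rw [show N - (N - m) = m by omega]
        exact hm'.2
      · intro m hm m' hm' h
        have h3 := (hT m).1 hm
        have h4 := (hT m').1 hm'
        have h5 : N - m = N - m' := h
        omega
    have h3 : (T.card : ℝ) ≤ (((range N).filter (fun s => N - s ∉ plusPrimes A)).filter
        (fun a => a ≤ k * L)).card := by exact_mod_cast h2
    refine le_trans ?_ h3
    have h4 : (T.card : ℝ) + cnt (plusPrimes A) N =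
        (k * L + 1) + cnt (plusPrimes A) (N - k * L - 1) := by
      rw [show N - (N - k * L - 1) = k * L + 1 by omega] at hTc
      exact_mod_cast hTc
    have h5 := hall (N - k * L - 1)
    have h6 : ((N - k * L - 1 : ℕ) : ℝ) = (N : ℝ) - k * L - 1 := by
      rw [Nat.cast_sub (by omega), Nat.cast_sub (by omega)]
      push_cast
      ring
    rw [h6] at h5
    have hkR : (1 : ℝ) ≤ k := by exact_mod_cast hk
    have h7 : g * L ≤ g * (k * L) := by
      apply mul_le_mul_of_nonneg_left _ hg0.le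
      nlinarith
    have h8 : 2 * η * N ≤ g * L / 2 := by
      rw [← hηK]
      nlinarith
    have h9 : (n1 : ℝ) ≤ g * L / 2 := by
      have h10 : 4 * (K : ℝ) * n1 / g ≤ N := by linarith
      rw [div_le_iff₀ hg0] at h10
      nlinarith
    nlinarith)
  have h2 : (((Ioc (1 * L) (K * L)).filter
      (Hit ((range N).filter (fun s => N - s ∉ plusPrimes A)))).card : ℝ) ≤ N + 1 - cnt A N := by
    have h3 : ((Ioc (1 * L) (K * L)).filter
        (Hit ((range N).filter (fun s => N - s ∉ plusPrimes A)))).card ≤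
        (range (N + 1) \ (Icc 1 N).filter (fun a => a ∈ A)).card := by
      apply card_le_card_of_injOn (fun m => N - m)
      · intro m hm
        rw [mem_coe, mem_filter, mem_Ioc] at hm
        obtain ⟨hm1, s, hs, p, hp, hsp⟩ := hm
        rw [mem_filter, mem_range] at hs
        rw [mem_coe, Finset.mem_sdiff, mem_range]
        beta_reduce
        refine ⟨by omega, ?_⟩
        intro h
        rw [mem_filter] at h
        apply hs.2
        exact ⟨N - m, h.2, p, hp, by omega⟩
      · intro m hm m' hm' h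
        rw [mem_coe, mem_filter, mem_Ioc] at hm hm'
        have h5 : N - m = N - m' := h
        omega
    rw [card_sdiff_of_subset (by
      intro a ha
      rw [mem_filter, mem_Icc] at ha
      rw [mem_range]
      omega), card_range] at h3
    have h4 : ((Icc 1 N).filter (fun a => a ∈ A)).card = cnt A N := rfl
    rw [h4] at h3
    have h5 := cnt_le A N
    have h6 : (((Ioc (1 * L) (K * L)).filter
        (Hit ((range N).filter (fun s => N - s ∉ plusPrimes A)))).card : ℝ) ≤
        ((N + 1 - cnt A N : ℕ) : ℝ) := by exact_mod_cast h3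
    rw [Nat.cast_sub (by omega)] at h6
    push_cast at h6
    exact h6
  have h3 := hn3 N (by omega)
  have hNpos : (0 : ℝ) < N := by
    have : 1 ≤ N := by omega
    exact_mod_cast this
  have h4 : (1 - ε) * N ≤ K * L := by
    have h5 : (K : ℝ) ≤ ε * N := by
      have h6 : (K : ℝ) / ε ≤ N := by linarith
      rw [div_le_iff₀ hε] at h6
      linarith
    linarith
  have h5 : (1 - ε) * ((K : ℝ) * L) ≤ ((K : ℝ) - (1 : ℕ)) * L := by
    push_cast
    nlinarith
  have h6 : 0 ≤ (1 - ε) * dens1 κ y := mul_nonneg (by linarith) hdd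
  have h7 : (1 - ε) ^ 3 * dens1 κ y * N ≤ (1 - x + 2 * ε) * N := by
    calc (1 - ε) ^ 3 * dens1 κ y * N = (1 - ε) * dens1 κ y * ((1 - ε) * ((1 - ε) * N)) := by ring
      _ ≤ (1 - ε) * dens1 κ y * ((1 - ε) * (K * L)) := by
          apply mul_le_mul_of_nonneg_left _ h6
          apply mul_le_mul_of_nonneg_left h4
          linarith
      _ ≤ (1 - ε) * dens1 κ y * (((K : ℝ) - (1 : ℕ)) * L) :=
          mul_le_mul_of_nonneg_left h5 h6
      _ = ((K : ℝ) - (1 : ℕ)) * ((1 - ε) * L * dens1 κ y) := by ring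
      _ ≤ N + 1 - cnt A N := h1.trans h2
      _ ≤ (1 - x + 2 * ε) * N := by
          have h8 : 1 / ε ≤ N := by linarith
          rw [div_le_iff₀ hε] at h8
          nlinarith
  exact le_of_mul_le_mul_right h7 hNpos

end Pool.Agent.TH881
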