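import Mathlib
import Pool.Agent.TH881.Asy
import Pool.Agent.TH881.Diff

/-! The function `f*` near one. -/

set_option autoImplicit false

namespace Pool.Agent.TH881
open Finset Filter Topology
open Pool.Agent.H373R2.T7

/-- the model bound for the complement -/
noncomputable def UU (w : ℕ) : ℝ := 1 / Gam 1 w * (1 + 1 / 4 ^ w) + (w : ℝ) / 4 ^ w

lemma four_lim : Tendsto (fun w : ℕ => (1 : ℝ) / 4 ^ w) atTop (𝓝 0) := by
  have h := tendsto_pow_atTop_nhds_zero_of_lt_one (show (0 : ℝ) ≤ 1 / 4 by norm_num)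
    (show (1 / 4 : ℝ) < 1 by norm_num)
  refine h.congr ?_
  intro w
  rw [div_pow, one_pow]

lemma sq_four_lim : Tendsto (fun w : ℕ => ((w : ℝ) ^ 2) / 4 ^ w) atTop (𝓝 0) := by
  have h := tendsto_pow_const_mul_const_pow_of_abs_lt_one 2 (show |(1 / 4 : ℝ)| < 1 by
    rw [abs_of_pos (by norm_num)]; norm_num)
  refine h.congr ?_
  intro w
  rw [div_pow, one_pow]
  ring

lemma UU_pos (w : ℕ) : 0 < UU w := by
  have h4 : (0 : ℝ) < Gam 1 w := lt_of_lt_of_le one_pos (one_le_Gam 1 _)
  unfold UU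
  positivity

lemma UU_log : Tendsto (fun w : ℕ => UU w * Real.log w) atTop
    (𝓝 (Real.exp (-Real.eulerMascheroniConstant))) := by
  have h2 : Tendsto (fun w : ℕ => (w : ℝ) / 4 ^ w * Real.log w) atTop (𝓝 0) := by
    apply tendsto_of_tendsto_of_tendsto_of_le_of_le' tendsto_const_nhds sq_four_lim
    · filter_upwards [eventually_ge_atTop 1] with w hw
      have : 0 ≤ Real.log (w : ℝ) := Real.log_nonneg (by exact_mod_cast hw)
      positivity
    · filter_upwards [eventually_ge_atTop 1] with w hw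
      have hw0 : (0 : ℝ) < w := by exact_mod_cast hw
      have h3 : Real.log (w : ℝ) ≤ w := (Real.log_le_sub_one_of_pos hw0).trans (by linarith)
      have h4 : (w : ℝ) / 4 ^ w * Real.log w ≤ (w : ℝ) / 4 ^ w * w :=
        mul_le_mul_of_nonneg_left h3 (by positivity)
      refine h4.trans (le_of_eq ?_)
      ring
  have h3 : Tendsto (fun w : ℕ => (1 : ℝ) + 1 / 4 ^ w) atTop (𝓝 (1 + 0)) :=
    tendsto_const_nhds.add four_lim
  have h4 := (mert'.mul h3).add h2
  rw [add_zero, add_zero, mul_one] at h4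
  refine h4.congr ?_
  intro w
  unfold UU
  ring

lemma UU_zero : Tendsto UU atTop (𝓝 0) := by
  have h1 : Tendsto (fun w : ℕ => 1 / Real.log (w : ℝ)) atTop (𝓝 0) :=
    inv_log_small.comp tendsto_natCast_atTop_atTop
  have h2 := UU_log.mul h1
  rw [mul_zero] at h2
  refine h2.congr' ?_
  filter_upwards [eventually_ge_atTop 2] with w hw
  have h3 : 0 < Real.log (w : ℝ) := Real.log_pos (by exact_mod_cast hw)
  field_simp

/-- the least admissible sieving level -/
noncomputable def wu (u : ℝ) : ℕ := sInf {w : ℕ | UU w ≤ u}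

lemma wu_mem {u : ℝ} (hu : 0 < u) : UU (wu u) ≤ u := by
  have hne : {w : ℕ | UU w ≤ u}.Nonempty := by
    have h := UU_zero.eventually (eventually_le_nhds hu)
    obtain ⟨w, hw⟩ := h.exists
    exact ⟨w, hw⟩
  exact Nat.sInf_mem hne

lemma lt_UU {u : ℝ} {w : ℕ} (h : w < wu u) : u < UU w := by
  have := Nat.notMem_of_lt_sInf h
  rw [Set.mem_ofPred_eq, not_le] at this
  exact this

lemma tendsto_wu : Tendsto wu (𝓝[>] 0) atTop := by
  rw [tendsto_atTop]
  intro k
  have h : ∀ᶠ u : ℝ in 𝓝[>] 0, ∀ w ∈ range k, u < UU w := by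
    rw [eventually_all_finset]
    intro w _
    exact (eventually_lt_nhds (UU_pos w)).filter_mono nhdsWithin_le_nhds
  filter_upwards [h, self_mem_nhdsWithin] with u hu hu0
  by_contra hlt
  push Not at hlt
  have h1 := hu (wu u) (mem_range.2 hlt)
  have h2 := wu_mem hu0
  linarith

lemma prod_le (w : ℕ) : ((Wp w : ℝ) * ((4 ^ w : ℕ) : ℝ)) ≤ 16 ^ w := by
  have h3 : (Wp w : ℝ) ≤ (4 : ℝ) ^ w := by exact_mod_cast Wp_le w
  push_cast
  calc (Wp w : ℝ) * 4 ^ w ≤ 4 ^ w * 4 ^ w := mul_le_mul_of_nonneg_right h3 (by positivity)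
    _ = 16 ^ w := by rw [← mul_pow]; norm_num

lemma fstar_gap {x : ℝ} (hx : 0 < x) (hx1 : x < 1) :
    1 / (16 : ℝ) ^ (wu (1 - x)) ≤ 1 - fstar x := by
  set w := wu (1 - x) with hw
  have hW := Wp_pos w
  have hWR : (1 : ℝ) ≤ Wp w := by exact_mod_cast hW
  have hG : (0 : ℝ) < Gam 1 w := lt_of_lt_of_le one_pos (one_le_Gam 1 _)
  have hω : ((Wp w).primeFactors.card : ℝ) ≤ w := by exact_mod_cast omega_le w
  have h1 := fstar_le_one hW (show 0 < 4 ^ w by positivity) x hx (by
    refine le_trans ?_ (wu_mem (show 0 < 1 - x by linarith))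
    rw [← hw, totient_div, add_div]
    unfold UU
    push_cast
    apply add_le_add
    · apply le_of_eq
      field_simp
    · apply div_le_div₀ (by positivity) hω (by positivity)
      have : (0 : ℝ) < 4 ^ w := by positivity
      nlinarith)
  have h2 : 1 / (16 : ℝ) ^ w ≤ 1 / ((Wp w : ℝ) * ((4 ^ w : ℕ) : ℝ)) := by
    apply one_div_le_one_div_of_le _ (prod_le w)
    positivity
  linarith

lemma dens1_le_of_lt {x : ℝ} (hx0 : 0 ≤ x) (hx1 : x ≤ 1) {κ : ℝ} (hκ : 0 < κ)
    (h : κ < 1 - fstar x) (y : ℕ) (hy : 1 ≤ y) : dens1 κ y ≤ 1 - x := by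
  obtain ⟨A0, hA0, hA0x⟩ := exists_density x hx0 hx1
  have hlt : sInf {d | ∃ A : Set ℕ, (∀ a ∈ A, 1 ≤ a) ∧ lowerDensity A = x ∧
      d = lowerDensity (plusPrimes A)} < 1 - κ := by
    have h1 : fstar x < 1 - κ := by linarith
    exact h1
  have hne : {d | ∃ A : Set ℕ, (∀ a ∈ A, 1 ≤ a) ∧ lowerDensity A = x ∧
      d = lowerDensity (plusPrimes A)}.Nonempty := ⟨_, A0, hA0, hA0x, rfl⟩
  obtain ⟨d, ⟨A, hA, hAx, rfl⟩, hd⟩ := exists_lt_of_csInf_lt hne hlt
  have h2 := diff_lower A κ hκ (by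
    have := lowerDensity_nonneg (plusPrimes A)
    linarith) (by linarith) y hy
  rwa [hAx] at h2

lemma fstar_one_sub_le {x : ℝ} (hx0 : 0 ≤ x) (hx1 : x ≤ 1) :
    1 - fstar x ≤ 2 * Real.exp 2 * (1 - x) := by
  by_contra h
  push Not at h
  have hE : 0 < 2 * Real.exp 2 := by positivity
  have h0 : 0 ≤ 2 * Real.exp 2 * (1 - x) := mul_nonneg hE.le (by linarith)
  obtain ⟨κ, h1, h2⟩ := exists_between h
  have hκ : 0 < κ := lt_of_le_of_lt h0 h1
  have h3 := dens1_le_of_lt hx0 hx1 hκ h2 1 le_rfl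
  have h4 : dens1 κ 1 = κ / (2 * Real.exp 2) := by
    unfold dens1 Gam
    rw [pT_one]
    have : pz 1 = ∅ := by decide
    rw [this, prod_empty]
    norm_num
  rw [h4, div_le_iff₀ hE] at h3
  linarith

/-- the asymptotic behaviour of `f*` at one -/
theorem fstar_one : Tendsto (fun x : ℝ => (1 - x) * Real.log (Real.log (1 / (1 - fstar x))))
    (𝓝[<] 1) (𝓝 (Real.exp (-Real.eulerMascheroniConstant))) := by
  have hu : Tendsto (fun x : ℝ => 1 - x) (𝓝[<] 1) (𝓝[>] 0) := by
    rw [tendsto_nhdsWithin_iff]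
    constructor
    · have h1 : Tendsto (fun x : ℝ => 1 - x) (𝓝 1) (𝓝 (1 - 1)) :=
        (Continuous.tendsto (by fun_prop) 1)
      rw [sub_self] at h1
      exact h1.mono_left nhdsWithin_le_nhds
    · filter_upwards [self_mem_nhdsWithin] with x hx
      have : x < 1 := hx
      exact sub_pos.2 this
  have hmem : ∀ᶠ x : ℝ in 𝓝[<] 1, 0 < x ∧ x < 1 := by
    filter_upwards [Ioo_mem_nhdsLT (show (0 : ℝ) < 1 by norm_num)] with x hx
    exact hx
  have hδ : Tendsto (fun x : ℝ => 1 - fstar x) (𝓝[<] 1) (𝓝[>] 0) := by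
    rw [tendsto_nhdsWithin_iff]
    constructor
    · have h1 : Tendsto (fun x : ℝ => 2 * Real.exp 2 * (1 - x)) (𝓝[<] 1) (𝓝 (2 * Real.exp 2 * 0)) :=
        (hu.mono_right nhdsWithin_le_nhds).const_mul _
      rw [mul_zero] at h1
      apply tendsto_of_tendsto_of_tendsto_of_le_of_le' tendsto_const_nhds h1
      · filter_upwards [hmem] with x hx
        have h2 := fstar_gap hx.1 hx.2
        have h3 : 0 < 1 / (16 : ℝ) ^ (wu (1 - x)) := by positivity
        linarith
      · filter_upwards [hmem] with x hx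
        exact fstar_one_sub_le hx.1.le hx.2.le
    · filter_upwards [hmem] with x hx
      have h2 := fstar_gap hx.1 hx.2
      have h3 : 0 < 1 / (16 : ℝ) ^ (wu (1 - x)) := by positivity
      exact lt_of_lt_of_le h3 h2
  have hL : Tendsto (fun x : ℝ => Real.log (1 / (1 - fstar x))) (𝓝[<] 1) atTop := by
    have h1 := Real.tendsto_log_atTop.comp ((tendsto_inv_nhdsGT_zero (𝕜 := ℝ)).comp hδ)
    refine h1.congr ?_
    intro x
    rw [Function.comp_apply, Function.comp_apply, one_div]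
  have hw : Tendsto (fun x : ℝ => wu (1 - x)) (𝓝[<] 1) atTop := tendsto_wu.comp hu
  have hup : Tendsto (fun w : ℕ => UU w * (Real.log w + (Real.log 2 + Real.log (Real.log 16))))
      atTop (𝓝 (Real.exp (-Real.eulerMascheroniConstant))) := by
    have h1 := UU_log.add (UU_zero.mul_const (Real.log 2 + Real.log (Real.log 16)))
    rw [zero_mul, add_zero] at h1
    refine h1.congr ?_
    intro w
    ring
  have hw1 : Tendsto (fun x : ℝ => wu (1 - x) - 1) (𝓝[<] 1) atTop :=
    (tendsto_sub_atTop_nat 1).comp hw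
  apply tendsto_of_tendsto_of_tendsto_of_le_of_le' (Glow_lim.comp hL) (hup.comp hw1)
  · filter_upwards [hmem, hL.eventually_ge_atTop 1, (tendsto_yy.comp hL).eventually_ge_atTop 1,
      hδ.eventually self_mem_nhdsWithin] with x hx hx1 hx2 hx3
    have hx4 : 0 < 1 - fstar x := hx3
    rw [Function.comp_apply]
    apply mul_le_mul_of_nonneg_right _ (Real.log_nonneg hx1)
    have h2 : Real.exp (-Real.log (1 / (1 - fstar x))) / 2 = (1 - fstar x) / 2 := by
      rw [← Real.log_inv, one_div, inv_inv, Real.exp_log hx4]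
    unfold Glow
    rw [h2]
    exact dens1_le_of_lt hx.1.le hx.2.le (by linarith) (by linarith) _ hx2
  · filter_upwards [hmem, hL.eventually_ge_atTop 1, hw.eventually_ge_atTop 2,
      hδ.eventually self_mem_nhdsWithin] with x hx hx1 hx2 hx3
    have hx4 : 0 < 1 - fstar x := hx3
    rw [Function.comp_apply]
    obtain ⟨v, hv⟩ : ∃ v : ℕ, v = wu (1 - x) - 1 := ⟨_, rfl⟩
    have hv1 : wu (1 - x) = v + 1 := by omega
    have hv2 : 1 ≤ v := by omega
    have hvR : (1 : ℝ) ≤ v := by exact_mod_cast hv2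
    rw [← hv]
    have h1 : 1 - x < UU v := lt_UU (by omega)
    have h2 := fstar_gap hx.1 hx.2
    rw [hv1] at h2
    have h16 : 0 < Real.log 16 := Real.log_pos (by norm_num)
    have h3 : Real.log (1 / (1 - fstar x)) ≤ 2 * v * Real.log 16 := by
      have h4 : 1 / (1 - fstar x) ≤ 16 ^ (v + 1) := by
        rw [div_le_iff₀ hx4]
        rw [div_le_iff₀ (by positivity)] at h2
        linarith
      have h5 := Real.log_le_log (by positivity) h4
      rw [Real.log_pow] at h5
      push_cast at h5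
      nlinarith
    have h4 : Real.log (Real.log (1 / (1 - fstar x))) ≤
        Real.log v + (Real.log 2 + Real.log (Real.log 16)) := by
      have h5 := Real.log_le_log (by linarith) h3
      rw [Real.log_mul (by positivity) h16.ne', Real.log_mul (by norm_num) (by positivity)] at h5
      linarith
    have h5 : 0 ≤ Real.log (Real.log (1 / (1 - fstar x))) := Real.log_nonneg hx1
    exact mul_le_mul h1.le h4 h5 (UU_pos v).le

end Pool.Agent.TH881
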