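import Mathlib
import Pool.Agent.TH881.Per
import Pool.Agent.TH881.Ext

/-! The local extremal function and its chord inequalities. -/

set_option autoImplicit false

namespace Pool.Agent.TH881
open Finset

/-- the sumset of `C` and the residue classes modulo `W` of the primes -/
def plusClasses (W : ℕ) (C : Finset (ZMod W)) : Set (ZMod W) :=
  {n | ∃ c ∈ C, ∃ p : ℕ, p.Prime ∧ c + (p : ZMod W) = n}

/-- the local extremal function: the infimum of `|C + P mod W| / W` over all moduli `W` and all sets
`C` of at least `x W` residue classes -/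
noncomputable def localMin (x : ℝ) : ℝ :=
  sInf {r | ∃ W : ℕ, 0 < W ∧ ∃ C : Finset (ZMod W), x * W ≤ C.card ∧
    r = ((plusClasses W C).ncard : ℝ) / W}

lemma localMin_bdd (x : ℝ) : BddBelow {r | ∃ W : ℕ, 0 < W ∧ ∃ C : Finset (ZMod W),
    x * W ≤ C.card ∧ r = ((plusClasses W C).ncard : ℝ) / W} := by
  refine ⟨0, ?_⟩
  rintro r ⟨W, _, C, _, rfl⟩
  positivity

lemma localMin_ne {x : ℝ} (hx : x ≤ 1) : {r | ∃ W : ℕ, 0 < W ∧ ∃ C : Finset (ZMod W),
    x * W ≤ C.card ∧ r = ((plusClasses W C).ncard : ℝ) / W}.Nonempty := by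
  refine ⟨_, 1, one_pos, {0}, ?_, rfl⟩
  rw [card_singleton]
  simpa using hx

lemma localMin_nonneg (x : ℝ) : 0 ≤ localMin x := by
  apply Real.sInf_nonneg
  rintro r ⟨W, _, C, _, rfl⟩
  positivity

lemma localMin_mono {x y : ℝ} (hxy : x ≤ y) (hy : y ≤ 1) : localMin x ≤ localMin y := by
  apply csInf_le_csInf (localMin_bdd x) (localMin_ne hy)
  rintro r ⟨W, hW, C, hC, rfl⟩
  refine ⟨W, hW, C, ?_, rfl⟩
  exact le_trans (mul_le_mul_of_nonneg_right hxy (Nat.cast_nonneg W)) hC

lemma localMin_le_card {x : ℝ} {W : ℕ} (hW : 0 < W) (C T : Finset (ZMod W))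
    (hT : ∀ c ∈ C, ∀ p : ℕ, p.Prime → c + (p : ZMod W) ∈ T) (hx : x * W ≤ C.card) :
    localMin x ≤ T.card / W := by
  have h1 : localMin x ≤ ((plusClasses W C).ncard : ℝ) / W :=
    csInf_le (localMin_bdd x) ⟨W, hW, C, hx, rfl⟩
  refine h1.trans ?_
  apply div_le_div_of_nonneg_right _ (Nat.cast_nonneg W)
  have h2 : (plusClasses W C).ncard ≤ T.card := by
    rw [← Set.ncard_coe_finset T]
    apply Set.ncard_le_ncard _ T.finite_toSet
    rintro n ⟨c, hc, p, hp, rfl⟩
    exact hT c hc p hp
  exact_mod_cast h2

lemma localMin_le_one {x : ℝ} (hx : x ≤ 1) : localMin x ≤ 1 := by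
  have h := localMin_le_card (x := x) (W := 1) one_pos {0} {0} (by
    intro c _ p _
    rw [mem_singleton]
    exact Subsingleton.elim _ _) (by rw [card_singleton]; simpa using hx)
  rw [card_singleton] at h
  simpa using h

/-- the bound for sets of integers in `[0, V)` -/
lemma localMin_range {x : ℝ} {V : ℕ} (hV : 0 < V) (C T : Finset ℕ) (hC : C ⊆ range V)
    (hT : ∀ c ∈ C, ∀ p : ℕ, p.Prime → (c + p) % V ∈ T) (hx : x * V ≤ C.card) :
    localMin x * V ≤ T.card := by
  classical
  have hVR : (0 : ℝ) < V := by exact_mod_cast hV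
  have h1 := localMin_le_card (x := x) hV (C.image (fun n : ℕ => (n : ZMod V)))
    (T.image (fun n : ℕ => (n : ZMod V))) (by
      intro c hc p hp
      rw [mem_image] at hc ⊢
      obtain ⟨n, hn, rfl⟩ := hc
      refine ⟨(n + p) % V, hT n hn p hp, ?_⟩
      have : (((n + p) % V : ℕ) : ZMod V) = ((n + p : ℕ) : ZMod V) :=
        (ZMod.natCast_eq_natCast_iff _ _ _).2 (Nat.mod_modEq _ _)
      rw [this]
      push_cast
      ring) (by
      rw [card_image_of_injOn]
      · exact hx
      · intro a ha b hb hab
        have ha' := mem_range.1 (hC ha)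
        have hb' := mem_range.1 (hC hb)
        have h2 : (a : ZMod V) = (b : ZMod V) := hab
        rw [ZMod.natCast_eq_natCast_iff] at h2
        exact Nat.ModEq.eq_of_lt_of_lt h2 ha' hb')
  have h2 : ((T.image (fun n : ℕ => (n : ZMod V))).card : ℝ) ≤ T.card := by
    exact_mod_cast card_image_le
  rw [le_div_iff₀ hVR] at h1
  linarith

/-- counting in blocks -/
lemma card_blocks (L : ℕ) (hL : 0 < L) (f : ℕ → Finset ℕ) (hf : ∀ i, f i ⊆ range L) (m : ℕ) :
    ((range (m * L)).filter (fun n => n % L ∈ f (n / L))).card = ∑ i ∈ range m, (f i).card := by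
  classical
  induction m with
  | zero => simp
  | succ m ih =>
    rw [sum_range_succ, ← ih]
    have h1 : (range ((m + 1) * L)).filter (fun n => n % L ∈ f (n / L)) =
        (range (m * L)).filter (fun n => n % L ∈ f (n / L)) ∪ (f m).image (fun r => m * L + r) := by
      ext n
      rw [mem_union, mem_filter, mem_filter, mem_image, mem_range, mem_range]
      constructor
      · rintro ⟨h2, h3⟩
        rcases lt_or_ge n (m * L) with h4 | h4
        · left; exact ⟨h4, h3⟩
        · right
          have h5 : n / L = m := by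
            apply Nat.div_eq_of_lt_le
            · exact h4
            · exact h2
          rw [h5] at h3
          refine ⟨n % L, h3, ?_⟩
          rw [← h5]
          exact Nat.div_add_mod' n L
      · rintro (⟨h2, h3⟩ | ⟨r, hr, rfl⟩)
        · refine ⟨?_, h3⟩
          have : m * L ≤ (m + 1) * L := Nat.mul_le_mul_right L (by omega)
          omega
        · have hrL := mem_range.1 (hf m hr)
          have h5 : (m * L + r) / L = m := by
            rw [mul_comm, Nat.mul_add_div hL, Nat.div_eq_of_lt hrL, add_zero]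
          have h6 : (m * L + r) % L = r := by
            rw [mul_comm, Nat.mul_add_mod, Nat.mod_eq_of_lt hrL]
          rw [h5, h6]
          refine ⟨?_, hr⟩
          rw [Nat.succ_mul]
          omega
    rw [h1, card_union_of_disjoint, card_image_of_injective]
    · intro a b hab
      have : m * L + a = m * L + b := hab
      omega
    · rw [disjoint_left]
      intro n hn hn'
      rw [mem_filter, mem_range] at hn
      rw [mem_image] at hn'
      obtain ⟨r, _, hr⟩ := hn'
      omega

end Pool.Agent.TH881
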