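import Mathlib
import Pool.Agent.TH881.Comb
import Pool.Agent.TH881.One

/-! Continuity of the local extremal function. -/

set_option autoImplicit false

namespace Pool.Agent.TH881
open Finset Filter Topology
open Pool.Agent.H373R2.T7

lemma exists_near {x ε : ℝ} (hx : x ≤ 1) (hε : 0 < ε) : ∃ W : ℕ, 0 < W ∧ ∃ C S : Finset ℕ,
    C ⊆ range W ∧ S ⊆ range W ∧ x * W ≤ C.card ∧ (S.card : ℝ) ≤ (localMin x + ε) * W ∧
    ∀ c ∈ C, ∀ p : ℕ, p.Prime → (c + p) % W ∈ S := by
  classical
  obtain ⟨r, ⟨W, hW, C, hC, rfl⟩, hr⟩ := exists_lt_of_csInf_lt (localMin_ne hx)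
    (show sInf {r | ∃ W : ℕ, 0 < W ∧ ∃ C : Finset (ZMod W), x * W ≤ C.card ∧
      r = ((plusClasses W C).ncard : ℝ) / W} < localMin x + ε by
      have : localMin x < localMin x + ε := by linarith
      exact this)
  have hWR : (0 : ℝ) < W := by exact_mod_cast hW
  have : NeZero W := ⟨hW.ne'⟩
  refine ⟨W, hW, (range W).filter (fun n : ℕ => (n : ZMod W) ∈ C),
    (range W).filter (fun n : ℕ => (n : ZMod W) ∈ plusClasses W C), filter_subset _ _,
    filter_subset _ _, ?_, ?_, ?_⟩
  · refine hC.trans ?_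
    have h1 : C.card ≤ ((range W).filter (fun n : ℕ => (n : ZMod W) ∈ C)).card := by
      apply card_le_card_of_injOn (fun c : ZMod W => c.val)
      · intro c hc
        rw [mem_coe, mem_filter, mem_range]
        refine ⟨ZMod.val_lt c, ?_⟩
        rw [ZMod.natCast_zmod_val]
        exact hc
      · intro a _ b _ hab
        exact ZMod.val_injective W hab
    exact_mod_cast h1
  · rw [div_lt_iff₀ hWR] at hr
    refine le_trans ?_ hr.le
    have h1 : ((range W).filter (fun n : ℕ => (n : ZMod W) ∈ plusClasses W C)).card ≤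
        (plusClasses W C).ncard := by
      rw [← Set.ncard_coe_finset]
      apply Set.ncard_le_ncard_of_injOn (fun n : ℕ => (n : ZMod W))
      · intro n hn
        rw [mem_coe, mem_filter] at hn
        exact hn.2
      · intro a ha b hb hab
        rw [mem_coe, mem_filter, mem_range] at ha hb
        have h2 : (a : ZMod W) = (b : ZMod W) := hab
        rw [ZMod.natCast_eq_natCast_iff] at h2
        exact Nat.ModEq.eq_of_lt_of_lt h2 ha.1 hb.1
    exact_mod_cast h1
  · intro c hc p hp
    rw [mem_filter] at hc ⊢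
    refine ⟨mem_range.2 (Nat.mod_lt _ hW), (c : ZMod W), hc.2, p, hp, ?_⟩
    rw [ZMod.natCast_mod]
    push_cast
    rfl

lemma localMin_add {M : ℕ} (hM : 0 < M) (P : Finset (ZMod M))
    (hP : ∀ p : ℕ, p.Prime → (p : ZMod M) ∈ P) {z : ℝ} (hz1 : z ≤ 1) :
    localMin (z + (1 - z) / M) ≤ localMin z + P.card / M := by
  classical
  have hMR : (0 : ℝ) < M := by exact_mod_cast hM
  apply le_of_forall_pos_le_add
  intro ε hε
  obtain ⟨W, hW, C, S, hC, hS, hzC, hSc, hCS⟩ := exists_near hz1 hε
  have hWR : (0 : ℝ) < W := by exact_mod_cast hW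
  have hCW : C.card ≤ W := by
    have := card_le_card hC
    rwa [card_range] at this
  have hV : 0 < M * W := Nat.mul_pos hM hW
  have hA : ((range (M * W)).filter (fun n => n % W ∈ C)).card = M * C.card := by
    have := card_blocks W hW (fun _ => C) (fun _ => hC) M
    rw [sum_const, card_range, smul_eq_mul] at this
    exact this
  have hB : ((range (M * W)).filter (fun n => n % W ∈ S)).card = M * S.card := by
    have := card_blocks W hW (fun _ => S) (fun _ => hS) M
    rw [sum_const, card_range, smul_eq_mul] at this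
    exact this
  have hZ : ((range (M * W)).filter (fun n => ¬ n % W ∈ C)).card = M * (W - C.card) := by
    have h1 := card_filter_add_card_filter_not (s := range (M * W)) (fun n => n % W ∈ C)
    rw [hA, card_range] at h1
    rw [Nat.mul_sub]
    omega
  obtain ⟨r, hr, hrc⟩ := exists_le_card_fiber_of_mul_le_card_of_maps_to
    (s := (range (M * W)).filter (fun n => ¬ n % W ∈ C)) (t := range M) (f := fun n => n % M)
    (n := W - C.card) (fun a _ => mem_range.2 (Nat.mod_lt _ hM)) ⟨0, mem_range.2 hM⟩ (by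
      rw [card_range, hZ])
  obtain ⟨Zr, hZr⟩ : ∃ Zr : Finset ℕ, Zr = ((range (M * W)).filter (fun n => ¬ n % W ∈ C)).filter
    (fun n => n % M = r) := ⟨_, rfl⟩
  have hrc' : W - C.card ≤ Zr.card := by rw [hZr]; exact hrc
  obtain ⟨f, hf⟩ : ∃ f : Finset ℕ, f = (range M).filter (fun s : ℕ => (s : ZMod M) - (r : ZMod M) ∈ P) :=
    ⟨_, rfl⟩
  have hfM : f ⊆ range M := by rw [hf]; exact filter_subset _ _
  have hfc : f.card ≤ P.card := by
    rw [hf]
    apply card_le_card_of_injOn (fun s : ℕ => (s : ZMod M) - (r : ZMod M))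
    · intro s hs
      rw [mem_coe, mem_filter] at hs
      exact hs.2
    · intro a ha b hb hab
      rw [mem_coe, mem_filter, mem_range] at ha hb
      have h2 : (a : ZMod M) - (r : ZMod M) = (b : ZMod M) - (r : ZMod M) := hab
      have h3 : (a : ZMod M) = (b : ZMod M) := sub_left_inj.1 h2
      rw [ZMod.natCast_eq_natCast_iff] at h3
      exact Nat.ModEq.eq_of_lt_of_lt h3 ha.1 hb.1
  have hF : ((range (M * W)).filter (fun n => n % M ∈ f)).card = W * f.card := by
    have := card_blocks M hM (fun _ => f) (fun _ => hfM) W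
    rw [sum_const, card_range, smul_eq_mul, mul_comm W M] at this
    exact this
  have hdis : Disjoint ((range (M * W)).filter (fun n => n % W ∈ C)) Zr := by
    rw [disjoint_left]
    intro n hn hn'
    rw [hZr, mem_filter, mem_filter] at hn'
    rw [mem_filter] at hn
    exact hn'.1.2 hn.2
  have key := localMin_range (x := z + (1 - z) / M) hV
    ((range (M * W)).filter (fun n => n % W ∈ C) ∪ Zr)
    ((range (M * W)).filter (fun n => n % W ∈ S) ∪ (range (M * W)).filter (fun n => n % M ∈ f))
    (by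
      apply union_subset (filter_subset _ _)
      rw [hZr]
      exact (filter_subset _ _).trans (filter_subset _ _)) (by
      intro n hn p hp
      rw [mem_union] at hn ⊢
      have hlt : (n + p) % (M * W) < M * W := Nat.mod_lt _ hV
      rcases hn with hn | hn
      · left
        rw [mem_filter] at hn ⊢
        refine ⟨mem_range.2 hlt, ?_⟩
        rw [Nat.mod_mod_of_dvd _ (Dvd.intro_left M rfl), ← Nat.mod_add_mod]
        exact hCS _ hn.2 p hp
      · right
        rw [hZr, mem_filter] at hn
        rw [mem_filter]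
        refine ⟨mem_range.2 hlt, ?_⟩
        rw [Nat.mod_mod_of_dvd _ (Dvd.intro W rfl), hf, mem_filter, mem_range]
        refine ⟨Nat.mod_lt _ hM, ?_⟩
        have h1 : (((n + p) % M : ℕ) : ZMod M) - (r : ZMod M) = (p : ZMod M) := by
          rw [ZMod.natCast_mod, ← hn.2, ZMod.natCast_mod]
          push_cast
          ring
        rw [h1]
        exact hP p hp) (by
      rw [card_union_of_disjoint hdis, hA]
      have h1 : ((W : ℝ) - C.card) ≤ Zr.card := by
        have h2 : W ≤ Zr.card + C.card := by omega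
        have h3 : (W : ℝ) ≤ Zr.card + C.card := by exact_mod_cast h2
        linarith
      push_cast
      have h4 : (z + (1 - z) / M) * (M * W) = z * W * (M - 1) + W := by
        field_simp
        ring
      rw [h4]
      have h5 : (0 : ℝ) ≤ (M : ℝ) - 1 := by
        have : (1 : ℝ) ≤ M := by exact_mod_cast hM
        linarith
      have h6 := mul_le_mul_of_nonneg_right hzC h5
      linarith)
  have h1 := card_union_le ((range (M * W)).filter (fun n => n % W ∈ S))
    ((range (M * W)).filter (fun n => n % M ∈ f))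
  rw [hB, hF] at h1
  have h2 : (((range (M * W)).filter (fun n => n % W ∈ S) ∪
      (range (M * W)).filter (fun n => n % M ∈ f)).card : ℝ) ≤ M * S.card + W * P.card := by
    have h3 : ((range (M * W)).filter (fun n => n % W ∈ S) ∪
      (range (M * W)).filter (fun n => n % M ∈ f)).card ≤ M * S.card + W * P.card :=
      h1.trans (Nat.add_le_add le_rfl (Nat.mul_le_mul_left W hfc))
    exact_mod_cast h3
  have h3 := key.trans h2
  push_cast at h3
  have h4 : localMin (z + (1 - z) / M) * (M * W) ≤ (localMin z + P.card / M + ε) * (M * W) := by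
    have h5 : (localMin z + P.card / M + ε) * (M * W) = M * ((localMin z + ε) * W) + W * P.card := by
      field_simp
      ring
    rw [h5]
    have h6 := mul_le_mul_of_nonneg_left hSc hMR.le
    linarith
  exact le_of_mul_le_mul_right h4 (by positivity)

lemma PT_le_UU (w : ℕ) : ((PT (Wp w * 4 ^ w) (Wp w)).card : ℝ) / ((Wp w * 4 ^ w : ℕ) : ℝ) ≤ UU w := by
  have hW := Wp_pos w
  have hWR : (1 : ℝ) ≤ Wp w := by exact_mod_cast hW
  have hG : (0 : ℝ) < Gam 1 w := lt_of_lt_of_le one_pos (one_le_Gam 1 _)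
  have hω : ((Wp w).primeFactors.card : ℝ) ≤ w := by exact_mod_cast omega_le w
  have h1 : ((PT (Wp w * 4 ^ w) (Wp w)).card : ℝ) ≤
      (Wp w).totient * ((4 ^ w : ℕ) + 1) + (Wp w).primeFactors.card := by
    exact_mod_cast card_PT_le (m := 4 ^ w) hW
  have h2 : (0 : ℝ) < ((Wp w * 4 ^ w : ℕ) : ℝ) := by positivity
  refine (div_le_div_of_nonneg_right h1 h2.le).trans ?_
  rw [totient_div, add_div]
  unfold UU
  push_cast
  apply add_le_add
  · apply le_of_eq
    field_simp
  · apply div_le_div₀ (by positivity) hω (by positivity)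
    have : (0 : ℝ) < 4 ^ w := by positivity
    nlinarith

/-- a set of classes containing all primes, of small density -/
lemma exists_thin {ε : ℝ} (hε : 0 < ε) : ∃ M : ℕ, 0 < M ∧ ∃ P : Finset (ZMod M),
    (∀ p : ℕ, p.Prime → (p : ZMod M) ∈ P) ∧ (P.card : ℝ) / M ≤ ε := by
  obtain ⟨w, hw⟩ := (UU_zero.eventually (eventually_le_nhds hε)).exists
  have hD : 0 < Wp w * 4 ^ w := Nat.mul_pos (Wp_pos w) (by positivity)
  exact ⟨Wp w * 4 ^ w, hD, PT (Wp w * 4 ^ w) (Wp w),
    fun p hp => prime_mem_PT hD (Dvd.intro _ rfl) hp, (PT_le_UU w).trans hw⟩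

/-- one-sided continuity -/
lemma localMin_left {x ε : ℝ} (hx0 : 0 < x) (hx1 : x < 1) (hε : 0 < ε) :
    ∃ z0 : ℝ, 0 < z0 ∧ z0 < x ∧ ∀ z, z0 ≤ z → z ≤ 1 → localMin x ≤ localMin z + ε := by
  obtain ⟨M, hM, P, hP, hPε⟩ := exists_thin hε
  have hMR : (1 : ℝ) ≤ M := by exact_mod_cast hM
  obtain ⟨z1, hz1⟩ : ∃ z1 : ℝ, z1 = x - (1 - x) / (2 * M) := ⟨_, rfl⟩
  have h1 : 0 < (1 - x) / (2 * M) := by
    have : 0 < 1 - x := by linarith
    positivity
  refine ⟨max z1 (x / 2), lt_max_of_lt_right (by linarith), max_lt (by linarith) (by linarith), ?_⟩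
  intro z hz hz'
  have hz1z : z1 ≤ z := (le_max_left _ _).trans hz
  have h2 := localMin_add hM P hP hz'
  rcases le_or_gt x z with h3 | h3
  · have := localMin_mono h3 hz'
    linarith
  have h4 : x ≤ z + (1 - z) / M := by
    have h5 : (1 - x) / M ≤ (1 - z) / M := div_le_div_of_nonneg_right (by linarith) (by linarith)
    have h6 : (1 - x) / (2 * M) ≤ (1 - x) / M := by
      apply div_le_div_of_nonneg_left (by linarith) (by linarith) (by linarith)
    linarith
  have h5 : z + (1 - z) / M ≤ 1 := by
    have h6 : (1 - z) / M ≤ 1 - z := div_le_self (by linarith) hMR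
    linarith
  have h6 := localMin_mono h4 h5
  linarith

/-- the upper bound for `f*` -/
lemma fstar_le_localMin {x : ℝ} (hx0 : 0 < x) (hx1 : x ≤ 1) : fstar x ≤ localMin x := by
  classical
  apply le_csInf (localMin_ne hx1)
  rintro r ⟨W, hW, C, hC, rfl⟩
  have : NeZero W := ⟨hW.ne'⟩
  have h1 := fstar_le_card W hW C ((plusClasses W C).toFinite.toFinset) (by
    intro c hc p hp
    rw [Set.Finite.mem_toFinset]
    exact ⟨c, hc, p, hp, rfl⟩) x hx0 hC
  rwa [← Set.ncard_eq_toFinset_card] at h1

end Pool.Agent.TH881
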