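import Mathlib

/-! A summation lemma with nonincreasing slopes. -/

set_option autoImplicit false

namespace Pool.Agent.TH881
open Finset

lemma abel_aux (s c : ℕ → ℝ) (τ : ℝ) (hs : ∀ i, s (i + 1) ≤ s i) (n : ℕ)
    (hT : ∀ k, k ≤ n → -τ ≤ ∑ i ∈ range k, c i) :
    ∀ k, k ≤ n → s k * (∑ i ∈ range k, c i) - (s 0 - s k) * τ ≤ ∑ i ∈ range k, s i * c i := by
  intro k
  induction k with
  | zero => intro _; simp
  | succ k ih =>
    intro hk
    have h1 := ih (by omega)
    have h2 := hT (k + 1) hk
    have h3 := hs k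
    rw [sum_range_succ, sum_range_succ] at *
    nlinarith [mul_nonneg (sub_nonneg.2 h3) (by linarith : 0 ≤ (∑ i ∈ range k, c i + c k) + τ)]

/-- the weighted sum of the excesses `b i - F` is almost nonnegative -/
lemma abel (n : ℕ) (a b : ℕ → ℝ) (x F η τ L : ℝ) (hη : 0 < η) (hτ : 0 ≤ τ) (hL : 0 ≤ L)
    (h1 : ∀ j, j < n → x - η ≤ a j → F ≤ b j)
    (h2 : ∀ i j, i < j → j < n → x < a i → a j < x →
      0 ≤ (b i - F) * (x - a j) + (b j - F) * (a i - x))
    (h3 : ∀ j, j < n → F - b j ≤ L)
    (h4 : ∀ k, k ≤ n → -τ ≤ ∑ i ∈ range k, (a i - x)) :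
    -(L / η * τ) ≤ ∑ i ∈ range n, (b i - F) := by
  classical
  -- slopes
  obtain ⟨g, hg⟩ : ∃ g : ℕ → NNReal, ∀ j, g j = Real.toNNReal ((F - b j) / (x - a j)) :=
    ⟨fun j => Real.toNNReal ((F - b j) / (x - a j)), fun _ => rfl⟩
  obtain ⟨s, hs⟩ : ∃ s : ℕ → NNReal, ∀ i, s i =
      ((range n).filter (fun j => i ≤ j ∧ a j < x - η)).sup g :=
    ⟨fun i => ((range n).filter (fun j => i ≤ j ∧ a j < x - η)).sup g, fun _ => rfl⟩
  have hanti : ∀ i, (s (i + 1) : ℝ) ≤ s i := by
    intro i
    rw [hs, hs]
    have : ((range n).filter (fun j => i + 1 ≤ j ∧ a j < x - η)).sup g ≤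
        ((range n).filter (fun j => i ≤ j ∧ a j < x - η)).sup g := by
      apply sup_mono
      intro j hj
      rw [mem_filter] at hj ⊢
      exact ⟨hj.1, by omega, hj.2.2⟩
    exact_mod_cast this
  have hs0 : (s 0 : ℝ) ≤ L / η := by
    rw [hs]
    have h5 : ((range n).filter (fun j => 0 ≤ j ∧ a j < x - η)).sup g ≤ Real.toNNReal (L / η) := by
      apply Finset.sup_le
      intro j hj
      rw [mem_filter, mem_range] at hj
      rw [hg]
      apply Real.toNNReal_le_toNNReal
      have h6 : η ≤ x - a j := by linarith [hj.2.2]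
      have h7 := h3 j hj.1
      have h8 : (F - b j) / (x - a j) ≤ L / (x - a j) :=
        div_le_div_of_nonneg_right h7 (by linarith)
      refine h8.trans ?_
      exact div_le_div_of_nonneg_left hL hη h6
    have h6 : ((((range n).filter (fun j => 0 ≤ j ∧ a j < x - η)).sup g : NNReal) : ℝ) ≤
        ((Real.toNNReal (L / η) : NNReal) : ℝ) := by exact_mod_cast h5
    rw [Real.coe_toNNReal _ (by positivity)] at h6
    exact h6
  have hpt : ∀ i, i < n → (s i : ℝ) * (a i - x) ≤ b i - F := by
    intro i hi
    have hsnn : (0 : ℝ) ≤ s i := (s i).2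
    rcases lt_or_ge (a i) (x - η) with h5 | h5
    · -- deficit
      have h6 : g i ≤ s i := by
        rw [hs]
        apply le_sup (f := g)
        rw [mem_filter, mem_range]
        exact ⟨hi, le_rfl, h5⟩
      have h7 : (F - b i) / (x - a i) ≤ s i := by
        refine le_trans (Real.le_coe_toNNReal _) ?_
        rw [← hg]
        exact_mod_cast h6
      rw [div_le_iff₀ (by linarith)] at h7
      linarith
    · have h6 := h1 i hi h5
      rcases le_or_gt (a i) x with h7 | h7
      · nlinarith
      · -- surplus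
        have h8 : s i ≤ Real.toNNReal ((b i - F) / (a i - x)) := by
          rw [hs]
          apply Finset.sup_le
          intro j hj
          rw [mem_filter, mem_range] at hj
          rw [hg]
          apply Real.toNNReal_le_toNNReal
          have h9 : a j < x := by linarith [hj.2.2]
          have hij : i < j := by
            rcases Nat.eq_or_lt_of_le hj.2.1 with h | h
            · exfalso
              rw [← h] at h9
              linarith
            · exact h
          have h10 := h2 i j hij hj.1 h7 h9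
          rw [div_le_div_iff₀ (by linarith) (by linarith)]
          linarith
        have h9 : (s i : ℝ) ≤ (b i - F) / (a i - x) := by
          have h10 : (s i : ℝ) ≤ ((Real.toNNReal ((b i - F) / (a i - x)) : NNReal) : ℝ) := by
            exact_mod_cast h8
          rw [Real.coe_toNNReal _ (div_nonneg (by linarith) (by linarith))] at h10
          exact h10
        rw [le_div_iff₀ (by linarith)] at h9
        exact h9
  have h5 := abel_aux (fun i => (s i : ℝ)) (fun i => a i - x) τ hanti n h4 n le_rfl
  have h6 : ∑ i ∈ range n, (s i : ℝ) * (a i - x) ≤ ∑ i ∈ range n, (b i - F) := by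
    apply sum_le_sum
    intro i hi
    exact hpt i (mem_range.1 hi)
  have h7 := h4 n le_rfl
  have h8 : (0 : ℝ) ≤ s n := (s n).2
  have h9 : (s 0 : ℝ) * τ ≤ L / η * τ := mul_le_mul_of_nonneg_right hs0 hτ
  have h10 : -(s 0 : ℝ) * τ ≤ (s n : ℝ) * (∑ i ∈ range n, (a i - x)) - ((s 0 : ℝ) - s n) * τ := by
    nlinarith
  linarith

end Pool.Agent.TH881
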