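import Mathlib
import Pool.Agent.TH881.Comb

/-! Chord inequalities for the local extremal function. -/

set_option autoImplicit false

namespace Pool.Agent.TH881
open Finset

/-- the set generated by the ready set `R` and the set `C` with the primes up to `w` -/
def SS (L w : ℕ) (R C : Finset ℕ) : Finset ℕ :=
  R ∪ (C ×ˢ (range (w + 1)).filter Nat.Prime).image (fun z => (z.1 + z.2) % L)

/-- `R` is ready for `C` -/
def Adm (W L : ℕ) (R C : Finset ℕ) : Prop :=
  C ⊆ range L ∧ R ⊆ range L ∧ ∀ c ∈ C, ∀ u : ℕ, u.Coprime W → (c + u) % L ∈ R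

lemma mem_SS {L w : ℕ} {R C : Finset ℕ} {n : ℕ} :
    n ∈ SS L w R C ↔ n ∈ R ∨ ∃ c ∈ C, ∃ p : ℕ, p.Prime ∧ p ≤ w ∧ (c + p) % L = n := by
  unfold SS
  rw [mem_union, mem_image]
  constructor
  · rintro (h | ⟨z, hz, rfl⟩)
    · left; exact h
    · right
      rw [mem_product, mem_filter, mem_range] at hz
      exact ⟨z.1, hz.1, z.2, hz.2.2, by omega, rfl⟩
  · rintro (h | ⟨c, hc, p, hp, hpw, rfl⟩)
    · left; exact h
    · right
      refine ⟨(c, p), ?_, rfl⟩
      rw [mem_product, mem_filter, mem_range]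
      exact ⟨hc, by omega, hp⟩

lemma SS_subset {W L w : ℕ} {R C : Finset ℕ} (hL : 0 < L) (h : Adm W L R C) :
    SS L w R C ⊆ range L := by
  intro n hn
  rw [mem_SS] at hn
  rcases hn with h1 | ⟨c, _, p, _, _, rfl⟩
  · exact h.2.1 h1
  · rw [mem_range]
    exact Nat.mod_lt _ hL

lemma mod_mem_SS {W L w : ℕ} {R C : Finset ℕ} (hW : ∀ p : ℕ, p.Prime → w < p → p.Coprime W)
    (h : Adm W L R C) {c p : ℕ} (hc : c ∈ C) (hp : p.Prime) : (c + p) % L ∈ SS L w R C := by
  rw [mem_SS]
  rcases le_or_gt p w with h1 | h1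
  · right
    exact ⟨c, hc, p, hp, h1, rfl⟩
  · left
    exact h.2.2 c hc p (hW p hp h1)

lemma le_card_SS {W L w : ℕ} {R C : Finset ℕ} (hL : 0 < L)
    (hW : ∀ p : ℕ, p.Prime → w < p → p.Coprime W) (h : Adm W L R C) {x : ℝ}
    (hx : x * L ≤ C.card) : localMin x * L ≤ (SS L w R C).card :=
  localMin_range hL C (SS L w R C) h.1 (fun _ hc _ hp => mod_mem_SS hW h hc hp) hx

lemma concat {W L w : ℕ} {R C1 C2 : Finset ℕ} (hL : 0 < L) (hwL : w ≤ L)
    (hW : ∀ p : ℕ, p.Prime → w < p → p.Coprime W) (h1 : Adm W L R C1) (h2 : Adm W L R C2)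
    (x : ℝ) (m1 m2 : ℕ) (hm : 0 < m1 + m2)
    (hx : x * ((m1 + m2 : ℕ) * L : ℕ) ≤ m1 * C1.card + m2 * C2.card) :
    localMin x * ((m1 + m2 : ℕ) * L : ℕ) ≤
      m1 * (SS L w R C1).card + m2 * (SS L w R C2).card + 2 * w := by
  classical
  obtain ⟨m, hmd⟩ : ∃ m : ℕ, m = m1 + m2 := ⟨_, rfl⟩
  rw [← hmd] at hx ⊢
  have hV : 0 < m * L := Nat.mul_pos (by omega) hL
  obtain ⟨f, hf⟩ : ∃ f : ℕ → Finset ℕ, ∀ i, f i = if i < m1 then C1 else C2 :=
    ⟨fun i => if i < m1 then C1 else C2, fun _ => rfl⟩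
  obtain ⟨g, hg⟩ : ∃ g : ℕ → Finset ℕ, ∀ i, g i = if i < m1 then SS L w R C1 else SS L w R C2 :=
    ⟨fun i => if i < m1 then SS L w R C1 else SS L w R C2, fun _ => rfl⟩
  have hfr : ∀ i, f i ⊆ range L := by
    intro i
    rw [hf]
    split_ifs
    · exact h1.1
    · exact h2.1
  have hgr : ∀ i, g i ⊆ range L := by
    intro i
    rw [hg]
    split_ifs
    · exact SS_subset hL h1
    · exact SS_subset hL h2
  have hsum : ∀ (u v : Finset ℕ), ∑ i ∈ range m, (if i < m1 then u else v).card =
      m1 * u.card + m2 * v.card := by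
    intro u v
    rw [hmd, sum_range_add]
    congr 1
    · rw [sum_congr rfl (fun i hi => by rw [if_pos (mem_range.1 hi)]), sum_const, card_range,
        smul_eq_mul]
    · rw [sum_congr rfl (fun i _ => by rw [if_neg (by omega)]), sum_const, card_range,
        smul_eq_mul]
  have hCcard : ((range (m * L)).filter (fun n => n % L ∈ f (n / L))).card =
      m1 * C1.card + m2 * C2.card := by
    rw [card_blocks L hL f hfr m, ← hsum]
    apply sum_congr rfl
    intro i _
    rw [hf]
  have hTcard : ((range (m * L)).filter (fun n => n % L ∈ g (n / L))).card =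
      m1 * (SS L w R C1).card + m2 * (SS L w R C2).card := by
    rw [card_blocks L hL g hgr m, ← hsum]
    apply sum_congr rfl
    intro i _
    rw [hg]
  have hR : ∀ i r, r ∈ R → r ∈ g i := by
    intro i r hr
    rw [hg]
    split_ifs
    · exact mem_SS.2 (Or.inl hr)
    · exact mem_SS.2 (Or.inl hr)
  have hstep : ∀ i c p, c ∈ f i → p.Prime → (c + p) % L ∈ g i := by
    intro i c p hc hp
    rw [hf] at hc
    rw [hg]
    split_ifs with h
    · rw [if_pos h] at hc
      exact mod_mem_SS hW h1 hc hp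
    · rw [if_neg h] at hc
      exact mod_mem_SS hW h2 hc hp
  have hadm : ∀ i c u, c ∈ f i → Nat.Coprime u W → (c + u) % L ∈ R := by
    intro i c u hc hu
    rw [hf] at hc
    split_ifs at hc
    · exact h1.2.2 c hc u hu
    · exact h2.2.2 c hc u hu
  have key := localMin_range (x := x) hV ((range (m * L)).filter (fun n => n % L ∈ f (n / L)))
    ((range (m * L)).filter (fun n => n % L ∈ g (n / L)) ∪ (range w ∪
      (range w).image (fun r => m1 * L + r))) (filter_subset _ _) (by
    intro n hn p hp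
    rw [mem_filter, mem_range] at hn
    obtain ⟨hn1, hn2⟩ := hn
    rw [mem_union, mem_union, mem_filter, mem_range, mem_range, mem_image]
    have hlt : (n + p) % (m * L) < m * L := Nat.mod_lt _ hV
    have hmod : (n + p) % (m * L) % L = (n % L + p) % L := by
      rw [Nat.mod_mod_of_dvd _ (Dvd.intro_left m rfl), Nat.mod_add_mod]
    rcases lt_or_ge w p with hpw | hpw
    · -- large primes
      left
      refine ⟨hlt, ?_⟩
      rw [hmod]
      exact hR _ _ (hadm _ _ _ hn2 (hW p hp hpw))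
    · -- small primes
      obtain ⟨i, hi⟩ : ∃ i : ℕ, i = n / L := ⟨_, rfl⟩
      obtain ⟨c, hc⟩ : ∃ c : ℕ, c = n % L := ⟨_, rfl⟩
      have hnic : n = i * L + c := by rw [hi, hc]; exact (Nat.div_add_mod' n L).symm
      rw [← hi, ← hc] at hn2
      have hcL : c < L := by rw [hc]; exact Nat.mod_lt _ hL
      have him : i < m := by
        by_contra h
        push Not at h
        have : m * L ≤ i * L := Nat.mul_le_mul_right L h
        omega
      rcases lt_or_ge (c + p) L with h3 | h3
      · -- the same block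
        left
        have h4 : n + p < m * L := by
          have : (i + 1) * L ≤ m * L := Nat.mul_le_mul_right L him
          rw [Nat.succ_mul] at this
          omega
        have h5 : (n + p) % (m * L) = n + p := Nat.mod_eq_of_lt h4
        have h6 : (n + p) / L = i := by
          rw [hnic, add_assoc, mul_comm, Nat.mul_add_div hL, Nat.div_eq_of_lt h3, add_zero]
        rw [h5]
        refine ⟨h4, ?_⟩
        rw [h6, ← h5, hmod, ← hc]
        exact hstep i c p hn2 hp
      · -- the next block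
        obtain ⟨r, hr⟩ : ∃ r : ℕ, c + p = L + r := ⟨c + p - L, by omega⟩
        have hrw : r < w := by omega
        rcases Nat.lt_or_ge (i + 1) m with h4 | h4
        · have h5 : n + p = (i + 1) * L + r := by
            rw [hnic, Nat.succ_mul]
            omega
          have h6 : n + p < m * L := by
            have : (i + 2) * L ≤ m * L := Nat.mul_le_mul_right L h4
            have h7 : (i + 2) * L = (i + 1) * L + L := by ring
            omega
          have h7 : (n + p) % (m * L) = n + p := Nat.mod_eq_of_lt h6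
          rcases Nat.eq_or_lt_of_le (Nat.le_of_lt_succ (Nat.lt_succ_iff.2 (le_refl (i + 1)))) with _ | h8
          · by_cases h9 : i + 1 = m1
            · right; right
              refine ⟨r, mem_range.2 hrw, ?_⟩
              rw [h7, h5, h9]
            · left
              refine ⟨hlt, ?_⟩
              rw [hmod, ← hc]
              have h10 : (n + p) % (m * L) / L = i + 1 := by
                rw [h7, h5, mul_comm, Nat.mul_add_div hL, Nat.div_eq_of_lt (by omega), add_zero]
              rw [h10]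
              have h11 : g (i + 1) = g i := by
                rw [hg, hg]
                by_cases h12 : i < m1
                · rw [if_pos h12, if_pos (by omega)]
                · rw [if_neg h12, if_neg (by omega)]
              rw [h11]
              exact hstep i c p hn2 hp
          · omega
        · right; left
          have h5 : i + 1 = m := by omega
          have h6 : n + p = m * L + r := by
            rw [hnic, ← h5, Nat.succ_mul]
            omega
          have h7 : r < m * L := by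
            have : L ≤ m * L := Nat.le_mul_of_pos_left L (by omega)
            omega
          rw [h6, Nat.add_mod_left, Nat.mod_eq_of_lt h7]
          exact hrw)
    (by rw [hCcard]; push_cast at hx ⊢; exact hx)
  refine key.trans ?_
  have h3 := card_union_le ((range (m * L)).filter (fun n => n % L ∈ g (n / L))) (range w ∪
      (range w).image (fun r => m1 * L + r))
  have h4 := card_union_le (range w) ((range w).image (fun r => m1 * L + r))
  have h5 : ((range w).image (fun r => m1 * L + r)).card ≤ w := by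
    refine card_image_le.trans ?_
    rw [card_range]
  rw [card_range] at h4
  rw [hTcard] at h3
  have h6 : ((range (m * L)).filter (fun n => n % L ∈ g (n / L)) ∪ (range w ∪
      (range w).image (fun r => m1 * L + r))).card ≤
      m1 * (SS L w R C1).card + m2 * (SS L w R C2).card + 2 * w := by omega
  exact_mod_cast h6

/-- the chord inequality -/
lemma chord {W L w : ℕ} {R C1 C2 : Finset ℕ} (hL : 0 < L) (hwL : w ≤ L)
    (hW : ∀ p : ℕ, p.Prime → w < p → p.Coprime W) (h1 : Adm W L R C1) (h2 : Adm W L R C2)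
    (x : ℝ) (m1 m2 : ℕ) (hx : x * L * (m1 + m2) ≤ m1 * C1.card + m2 * C2.card) :
    localMin x * L * (m1 + m2) ≤ m1 * (SS L w R C1).card + m2 * (SS L w R C2).card := by
  rcases Nat.eq_zero_or_pos (m1 + m2) with hm | hm
  · have h3 : m1 = 0 := by omega
    have h4 : m2 = 0 := by omega
    rw [h3, h4]
    simp
  by_contra hcon
  push Not at hcon
  obtain ⟨g, hg⟩ : ∃ g : ℝ, g = localMin x * L * (m1 + m2) -
    (m1 * (SS L w R C1).card + m2 * (SS L w R C2).card) := ⟨_, rfl⟩
  have hg0 : 0 < g := by rw [hg]; linarith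
  obtain ⟨k, hk⟩ := exists_nat_gt ((2 * w : ℝ) / g)
  rw [div_lt_iff₀ hg0] at hk
  have hk0 : 0 < k := by
    rcases Nat.eq_zero_or_pos k with h | h
    · rw [h] at hk
      have : (0 : ℝ) ≤ w := Nat.cast_nonneg w
      simp at hk
      linarith
    · exact h
  have hkR : (0 : ℝ) < k := by exact_mod_cast hk0
  have h3 := concat hL hwL hW h1 h2 x (k * m1) (k * m2) (by
    rw [← Nat.mul_add]; exact Nat.mul_pos hk0 hm) (by
    push_cast
    have := mul_le_mul_of_nonneg_left hx hkR.le
    linarith)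
  push_cast at h3
  nlinarith

/-- the inequality between two chords -/
lemma two_chords {W L w : ℕ} {R1 R2 C1 C2 : Finset ℕ} (hL : 0 < L) (hwL : w ≤ L)
    (hW : ∀ p : ℕ, p.Prime → w < p → p.Coprime W) (hR : R1 ⊆ R2) (h1 : Adm W L R1 C1)
    (h2 : Adm W L R2 C2) (x : ℝ) (X : ℕ) (hX : x * L = X) (hC1 : X ≤ C1.card)
    (hC2 : C2.card ≤ X) :
    0 ≤ (((SS L w R1 C1).card : ℝ) - localMin x * L) * ((X : ℝ) - C2.card) +
      (((SS L w R2 C2).card : ℝ) - localMin x * L) * ((C1.card : ℝ) - X) := by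
  classical
  have hU : Adm W L R2 (C1 ∪ C2) := by
    refine ⟨union_subset h1.1 h2.1, h2.2.1, ?_⟩
    intro c hc u hu
    rw [mem_union] at hc
    rcases hc with h | h
    · exact hR (h1.2.2 c h u hu)
    · exact h2.2.2 c h u hu
  have hI : Adm W L R1 (C1 ∩ C2) := by
    refine ⟨inter_subset_left.trans h1.1, h1.2.1, ?_⟩
    intro c hc u hu
    exact h1.2.2 c (inter_subset_left hc) u hu
  have hcard := card_union_add_card_inter C1 C2
  have hsub1 : SS L w R2 (C1 ∪ C2) ⊆ SS L w R1 C1 ∪ SS L w R2 C2 := by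
    intro n hn
    rw [mem_union, mem_SS, mem_SS]
    rw [mem_SS] at hn
    rcases hn with h | ⟨c, hc, p, hp, hpw, h⟩
    · right; left; exact h
    · rw [mem_union] at hc
      rcases hc with hc | hc
      · left; right; exact ⟨c, hc, p, hp, hpw, h⟩
      · right; right; exact ⟨c, hc, p, hp, hpw, h⟩
  have hsub2 : SS L w R1 (C1 ∩ C2) ⊆ SS L w R1 C1 ∩ SS L w R2 C2 := by
    intro n hn
    rw [mem_inter, mem_SS, mem_SS]
    rw [mem_SS] at hn
    rcases hn with h | ⟨c, hc, p, hp, hpw, h⟩
    · exact ⟨Or.inl h, Or.inl (hR h)⟩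
    · rw [mem_inter] at hc
      exact ⟨Or.inr ⟨c, hc.1, p, hp, hpw, h⟩, Or.inr ⟨c, hc.2, p, hp, hpw, h⟩⟩
  have hsub : (SS L w R2 (C1 ∪ C2)).card + (SS L w R1 (C1 ∩ C2)).card ≤
      (SS L w R1 C1).card + (SS L w R2 C2).card := by
    rw [← card_union_add_card_inter (SS L w R1 C1) (SS L w R2 C2)]
    exact Nat.add_le_add (card_le_card hsub1) (card_le_card hsub2)
  have hI2 : (C1 ∩ C2).card ≤ C2.card := card_le_card inter_subset_right
  obtain ⟨s, hs⟩ : ∃ s : ℕ, C2.card = (C1 ∩ C2).card + s := ⟨C2.card - (C1 ∩ C2).card, by omega⟩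
  obtain ⟨p, hp⟩ : ∃ p : ℕ, C1.card = X + p := ⟨C1.card - X, by omega⟩
  obtain ⟨q, hq⟩ : ∃ q : ℕ, X = C2.card + q := ⟨X - C2.card, by omega⟩
  have hUc : (C1 ∪ C2).card = X + p + s := by omega
  -- first chord
  have e1 := chord hL hwL hW h1 hI x (q + s) p (by
    rw [hX]
    have h3 : (X : ℝ) = (C1 ∩ C2).card + s + q := by
      have : X = (C1 ∩ C2).card + s + q := by omega
      exact_mod_cast this
    rw [hp]
    push_cast
    have h4 : ((C1 ∩ C2).card : ℝ) = X - s - q := by linarith
    rw [h4]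
    apply le_of_eq
    ring)
  have e2 := chord hL hwL hW hU h2 x q (p + s) (by
    rw [hX, hUc]
    have h3 : (C2.card : ℝ) = X - q := by
      have : (X : ℝ) = C2.card + q := by exact_mod_cast hq
      linarith
    rw [h3]
    push_cast
    apply le_of_eq
    ring)
  have hsubR : ((SS L w R2 (C1 ∪ C2)).card : ℝ) + (SS L w R1 (C1 ∩ C2)).card ≤
      (SS L w R1 C1).card + (SS L w R2 C2).card := by exact_mod_cast hsub
  have hqR : (X : ℝ) - C2.card = q := by
    have : (X : ℝ) = C2.card + q := by exact_mod_cast hq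
    linarith
  have hpR : (C1.card : ℝ) - X = p := by
    have : (C1.card : ℝ) = X + p := by exact_mod_cast hp
    linarith
  rw [hqR, hpR]
  push_cast at e1 e2
  obtain ⟨F, hF⟩ : ∃ F : ℝ, F = localMin x * L := ⟨_, rfl⟩
  rw [← hF] at e1 e2 ⊢
  obtain ⟨a, ha⟩ : ∃ a : ℝ, a = ((SS L w R1 C1).card : ℝ) - F := ⟨_, rfl⟩
  obtain ⟨b, hb⟩ : ∃ b : ℝ, b = ((SS L w R2 C2).card : ℝ) - F := ⟨_, rfl⟩
  obtain ⟨c, hc⟩ : ∃ c : ℝ, c = ((SS L w R2 (C1 ∪ C2)).card : ℝ) - F := ⟨_, rfl⟩
  obtain ⟨d, hd⟩ : ∃ d : ℝ, d = ((SS L w R1 (C1 ∩ C2)).card : ℝ) - F := ⟨_, rfl⟩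
  have f1 : 0 ≤ ((q : ℝ) + s) * a + p * d := by rw [ha, hd]; linarith
  have f2 : 0 ≤ (q : ℝ) * c + (p + s) * b := by rw [hc, hb]; linarith
  have f3 : c + d ≤ a + b := by rw [ha, hb, hc, hd]; linarith
  rw [← ha, ← hb]
  have hp0 : (0 : ℝ) ≤ p := Nat.cast_nonneg p
  have hq0 : (0 : ℝ) ≤ q := Nat.cast_nonneg q
  have hs0 : (0 : ℝ) ≤ s := Nat.cast_nonneg s
  rcases eq_or_lt_of_le hp0 with hp1 | hp1
  · rcases eq_or_lt_of_le hq0 with hq1 | hq1
    · rw [← hp1, ← hq1]; simp
    · rw [← hp1] at f1 ⊢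
      have : 0 ≤ ((q : ℝ) + s) * a := by linarith
      have h5 : 0 ≤ a := nonneg_of_mul_nonneg_right this (by linarith)
      nlinarith
  · have g1 : 0 ≤ (q : ℝ) * (((q : ℝ) + s) * a + p * d) := mul_nonneg hq0 f1
    have g2 : 0 ≤ (p : ℝ) * ((q : ℝ) * c + (p + s) * b) := mul_nonneg hp0 f2
    have g3 : 0 ≤ (p : ℝ) * q * ((a + b) - (c + d)) :=
      mul_nonneg (mul_nonneg hp0 hq0) (by linarith)
    have g4 : 0 ≤ ((p : ℝ) + q + s) * (a * q + b * p) := by nlinarith
    exact nonneg_of_mul_nonneg_right g4 (by linarith)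

end Pool.Agent.TH881
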