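import Mathlib
import Pool.Agent.TH881.Chord
import Pool.Agent.TH881.Abel
import Pool.Agent.TH881.Loc
import Pool.Agent.TH881.Dens

/-! The set `A + P` in one block. -/

set_option autoImplicit false

namespace Pool.Agent.TH881
open Finset Filter Topology
open Pool.Agent.H373R2.T7

open Classical in
/-- the number of elements of `A` in `[1, m)` which are congruent to `c` -/
noncomputable def acl (A : Set ℕ) (W c m : ℕ) : ℕ :=
  ((Ico 1 m).filter (fun a => a ∈ A ∧ a % W = c)).card

open Classical in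
/-- the number of elements of `A` in the block `j` which are congruent to `c` -/
noncomputable def bcl (A : Set ℕ) (W L c j : ℕ) : ℕ :=
  ((range L).filter (fun r => j * L + r ∈ A ∧ r % W = c)).card

lemma acl_succ (A : Set ℕ) {W L : ℕ} (c : ℕ) {j : ℕ} (hL : 0 < L) (hWL : W ∣ L) (hj : 1 ≤ j) :
    acl A W c ((j + 1) * L) = acl A W c (j * L) + bcl A W L c j := by
  classical
  unfold acl bcl
  have hjL : 1 ≤ j * L := Nat.mul_pos hj hL
  have hsucc : (j + 1) * L = j * L + L := Nat.succ_mul j L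
  have h1 : (Ico 1 ((j + 1) * L)).filter (fun a => a ∈ A ∧ a % W = c) =
      (Ico 1 (j * L)).filter (fun a => a ∈ A ∧ a % W = c) ∪
      ((range L).filter (fun r => j * L + r ∈ A ∧ r % W = c)).image (fun r => j * L + r) := by
    ext a
    rw [mem_union, mem_filter, mem_filter, mem_image, mem_Ico, mem_Ico]
    constructor
    · rintro ⟨⟨h2, h3⟩, h4, h5⟩
      rcases lt_or_ge a (j * L) with h6 | h6
      · left; exact ⟨⟨h2, h6⟩, h4, h5⟩
      · right
        refine ⟨a - j * L, ?_, by omega⟩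
        rw [mem_filter, mem_range]
        have h7 : j * L + (a - j * L) = a := by omega
        rw [h7]
        refine ⟨by omega, h4, ?_⟩
        rw [← h5]
        conv_rhs => rw [← h7]
        obtain ⟨q, hq⟩ := hWL
        rw [hq, show j * (W * q) = W * (j * q) by ring, Nat.mul_add_mod]
    · rintro (⟨⟨h2, h3⟩, h4, h5⟩ | ⟨r, hr, rfl⟩)
      · exact ⟨⟨h2, by omega⟩, h4, h5⟩
      · rw [mem_filter, mem_range] at hr
        refine ⟨⟨by omega, by omega⟩, hr.2.1, ?_⟩
        rw [← hr.2.2]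
        obtain ⟨q, hq⟩ := hWL
        rw [hq, show j * (W * q) = W * (j * q) by ring, Nat.mul_add_mod]
  rw [h1, card_union_of_disjoint, card_image_of_injective]
  · intro a b hab
    have : j * L + a = j * L + b := hab
    omega
  · rw [disjoint_left]
    intro n hn hn'
    rw [mem_filter, mem_Ico] at hn
    rw [mem_image] at hn'
    obtain ⟨r, _, hr⟩ := hn'
    omega

/-- the mass lost before a class becomes ready -/
lemma lost_sum (n : ℕ → ℝ) (A0 T B : ℝ) (hn : ∀ i, 0 ≤ n i) (hB : ∀ i, n i ≤ B) (hA0 : 0 ≤ A0)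
    (hT : 0 ≤ T) : ∀ k : ℕ,
    (∑ i ∈ range k, (if T ≤ A0 + ∑ i' ∈ range i, n i' then 0 else n i)) ≤ T + B ∧
    (∑ i ∈ range k, (if T ≤ A0 + ∑ i' ∈ range i, n i' then 0 else n i)) ≤
      A0 + ∑ i ∈ range k, n i := by
  have hB0 : 0 ≤ B := (hn 0).trans (hB 0)
  intro k
  induction k with
  | zero => simp; exact ⟨by linarith, hA0⟩
  | succ k ih =>
    rw [sum_range_succ, sum_range_succ _ k]
    by_cases h : T ≤ A0 + ∑ i' ∈ range k, n i'
    · rw [if_pos h]
      have := hn k
      exact ⟨by linarith [ih.1], by linarith [ih.2]⟩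
    · rw [if_neg h]
      push Not at h
      have := hB k
      exact ⟨by linarith [ih.2], by linarith [ih.2]⟩

lemma Gam_self (w : ℕ) : Gam w w = 1 := by
  unfold Gam
  have : pT w w = ∅ := by
    ext p
    rw [mem_pT]
    constructor
    · rintro ⟨h1, h2, _⟩; omega
    · intro h; exact absurd h (notMem_empty p)
  rw [this, prod_empty]

open Classical in
/-- the number of sums in a ready class of a block -/
lemma window_W (w : ℕ) (hw : 1 ≤ w) (ε δ : ℝ) (hε : 0 < ε) (hε1 : ε < 1) (hδ : 0 < δ)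
    (hδ1 : δ ≤ 1) (hwδ : (2 * Real.exp 2 / δ) ^ (1 / (w : ℝ)) ≤ 1 + ε) (K : ℕ) (hK : 1 ≤ K) :
    ∃ L0 : ℕ, ∀ L : ℕ, L0 ≤ L → Wp w ∣ L → ∀ A : Set ℕ, ∀ j : ℕ, 1 ≤ j → j + 1 ≤ K →
    ∀ t : ℕ, t < Wp w → (∃ c, c < Wp w ∧ (t + Wp w - c).Coprime (Wp w) ∧
      δ * (K * L / Wp w) ≤ acl A (Wp w) c (j * L)) →
    (1 - 2 * ε) * ((L : ℝ) / Wp w) ≤
      (((range L).filter (fun r => j * L + r ∈ plusPrimes A ∧ r % Wp w = t)).card : ℝ) := by
  obtain ⟨N0, hN0⟩ := primes_local 1 w ε hε hε1
  have hWpos := Wp_pos w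
  have hlogev : ∀ᶠ n : ℕ in atTop, (K : ℝ) + Wp w / δ ≤ Real.log (n : ℝ) :=
    (Real.tendsto_log_atTop.comp tendsto_natCast_atTop_atTop).eventually_ge_atTop _
  obtain ⟨n1, hn1⟩ := eventually_atTop.1 hlogev
  refine ⟨N0 + n1 + 1, ?_⟩
  intro L hL hWL A j hj hjK t ht hex
  obtain ⟨c, hc, hcop, hcard⟩ := hex
  set W := Wp w with hWd
  have hWR : (0 : ℝ) < W := by exact_mod_cast hWpos
  have hLpos : 0 < L := by omega
  have hLR : (0 : ℝ) < L := by exact_mod_cast hLpos
  have hKR : (1 : ℝ) ≤ K := by exact_mod_cast hK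
  have hjL : 1 ≤ j * L := Nat.mul_pos hj hLpos
  have hjKL : j * L + L ≤ K * L := by
    have := Nat.mul_le_mul_right L hjK
    rwa [Nat.succ_mul] at this
  have hKL : L ≤ K * L := Nat.le_mul_of_pos_left L (by omega)
  have hlog := hn1 (K * L) (by omega)
  have hWδ : 0 < (W : ℝ) / δ := by positivity
  have hlogpos : 0 < Real.log ((K * L : ℕ) : ℝ) := by linarith
  have hc1 : ((K * L : ℕ) : ℝ) / Real.log ((K * L : ℕ) : ℝ) ^ 1 ≤ L := by
    rw [pow_one, div_le_iff₀ hlogpos]
    push_cast at hlog ⊢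
    nlinarith
  have hcardB : ((K * L : ℕ) : ℝ) / Real.log ((K * L : ℕ) : ℝ) ^ 1 ≤
      (acl A W c (j * L) : ℝ) := by
    refine le_trans ?_ hcard
    rw [pow_one, div_le_iff₀ hlogpos]
    have h1 : (W : ℝ) / δ ≤ Real.log ((K * L : ℕ) : ℝ) := by linarith
    have h2 : δ * (K * L / W) * ((W : ℝ) / δ) = K * L := by field_simp
    have h3 : 0 ≤ δ * (K * L / W) := by positivity
    have h4 := mul_le_mul_of_nonneg_left h1 h3
    rw [h2] at h4
    push_cast at h4 ⊢
    exact h4
  have hmodc : ∀ b ∈ (Ico 1 (j * L)).filter (fun a => a ∈ A ∧ a % W = c), b ≡ c [MOD W] := by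
    intro b hb
    rw [mem_filter] at hb
    have : c % W = c := Nat.mod_eq_of_lt hc
    unfold Nat.ModEq
    rw [hb.2.2, this]
  have h1 := hN0 (K * L) (by omega) w le_rfl hw (j * L - 1) L (j * L + t) (by omega) (by omega)
    (by omega) hc1 ((Ico 1 (j * L)).filter (fun a => a ∈ A ∧ a % W = c)) (by
      intro b hb
      rw [mem_filter, mem_Ico] at hb
      omega) (by
      intro b hb b' hb'
      exact (hmodc b hb).trans (hmodc b' hb').symm) (by
      intro b hb
      have h2 : (j * L + t - b) ≡ (t + W - c) [MOD W] := by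
        apply Nat.ModEq.add_right_cancel (hmodc b hb)
        rw [mem_filter, mem_Ico] at hb
        have h3 : j * L + t - b + b = j * L + t := by omega
        have h4 : t + W - c + c = t + W := by omega
        rw [h3, h4]
        obtain ⟨q, hq⟩ := hWL
        rw [hq, show j * (W * q) + t = t + W * (j * q) by ring]
        have h5 : t + W * (j * q) ≡ t [MOD W] := by
          unfold Nat.ModEq
          rw [Nat.add_mul_mod_self_left]
        have h6 : t + W ≡ t [MOD W] := by
          unfold Nat.ModEq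
          rw [Nat.add_mod_right]
        exact h5.trans h6.symm
      have h3 := h2.gcd_eq
      unfold Nat.Coprime at hcop ⊢
      rw [h3, hcop]) hcardB δ hδ hδ1 (by
      refine le_trans ?_ hcard
      apply mul_le_mul_of_nonneg_left _ hδ.le
      apply div_le_div_of_nonneg_right _ hWR.le
      have : j * L - 1 ≤ K * L := by omega
      exact_mod_cast this)
  rw [Gam_self, mul_one] at h1
  have h2 : ((It w (j * L - 1) L (j * L + t)).filter
      (Hit ((Ico 1 (j * L)).filter (fun a => a ∈ A ∧ a % W = c)))).card ≤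
      ((range L).filter (fun r => j * L + r ∈ plusPrimes A ∧ r % W = t)).card := by
    apply card_le_card_of_injOn (fun n => n - j * L)
    · intro n hn
      rw [mem_coe, mem_filter] at hn
      obtain ⟨hn1, b, hb, p, hp, hbp⟩ := hn
      unfold It at hn1
      rw [mem_filter, mem_Ioc] at hn1
      rw [mem_filter] at hb
      rw [mem_coe, mem_filter, mem_range]
      beta_reduce
      have h3 : j * L + (n - j * L) = n := by omega
      rw [h3]
      refine ⟨by omega, ⟨b, hb.2.1, p, hp, hbp⟩, ?_⟩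
      obtain ⟨q, hq⟩ := hWL
      have h4 : j * L + (n - j * L) ≡ j * L + t [MOD W] := by
        rw [h3]
        exact hn1.2
      have h5 : (n - j * L) ≡ t [MOD W] := Nat.ModEq.add_left_cancel' _ h4
      unfold Nat.ModEq at h5
      rw [h5, Nat.mod_eq_of_lt ht]
    · intro n hn n' hn' h
      rw [mem_coe, mem_filter] at hn hn'
      have h3 := hn.1
      have h4 := hn'.1
      unfold It at h3 h4
      rw [mem_filter, mem_Ioc] at h3 h4
      have h5 : n - j * L = n' - j * L := h
      omega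
  have h3 : (((It w (j * L - 1) L (j * L + t)).filter
      (Hit ((Ico 1 (j * L)).filter (fun a => a ∈ A ∧ a % W = c)))).card : ℝ) ≤
      (((range L).filter (fun r => j * L + r ∈ plusPrimes A ∧ r % W = t)).card : ℝ) := by
    exact_mod_cast h2
  refine le_trans ?_ (h1.trans h3)
  have hpow : 0 < (2 * Real.exp 2 / δ) ^ (1 / (w : ℝ)) := Real.rpow_pos_of_pos (by positivity) _
  rw [le_div_iff₀ hpow]
  have h4 : 0 ≤ (L : ℝ) / W := by positivity
  have h5 : (1 - 2 * ε) * (2 * Real.exp 2 / δ) ^ (1 / (w : ℝ)) ≤ 1 - ε := by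
    rcases le_or_gt (1 - 2 * ε) 0 with h6 | h6
    · nlinarith
    · nlinarith
  calc (1 - 2 * ε) * ((L : ℝ) / W) * (2 * Real.exp 2 / δ) ^ (1 / (w : ℝ))
      = ((1 - 2 * ε) * (2 * Real.exp 2 / δ) ^ (1 / (w : ℝ))) * ((L : ℝ) / W) := by ring
    _ ≤ (1 - ε) * ((L : ℝ) / W) := mul_le_mul_of_nonneg_right h5 h4

end Pool.Agent.TH881
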