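import Mathlib
import Pool.Agent.TH881.Blk

/-! Ready classes and the lower bound in one block. -/

set_option autoImplicit false

namespace Pool.Agent.TH881
open Finset Filter Topology

open Classical in
/-- the residues which are reached from a ready class -/
noncomputable def Rj (A : Set ℕ) (w L : ℕ) (T : ℝ) (j : ℕ) : Finset ℕ :=
  (range L).filter (fun r => ∃ c, c < Wp w ∧ (r % Wp w + Wp w - c).Coprime (Wp w) ∧
    T ≤ (acl A (Wp w) c (j * L) : ℝ))

open Classical in
/-- the elements of `A` in the block which lie in a ready class -/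
noncomputable def Cj (A : Set ℕ) (w L : ℕ) (T : ℝ) (j : ℕ) : Finset ℕ :=
  (range L).filter (fun r => j * L + r ∈ A ∧ T ≤ (acl A (Wp w) (r % Wp w) (j * L) : ℝ))

lemma acl_mono (A : Set ℕ) (W c : ℕ) {m n : ℕ} (h : m ≤ n) : acl A W c m ≤ acl A W c n := by
  classical
  unfold acl
  apply card_le_card
  intro a ha
  rw [mem_filter, mem_Ico] at ha ⊢
  exact ⟨⟨ha.1.1, by omega⟩, ha.2⟩

lemma Rj_mono (A : Set ℕ) (w L : ℕ) (T : ℝ) {i j : ℕ} (h : i ≤ j) :
    Rj A w L T i ⊆ Rj A w L T j := by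
  classical
  intro r hr
  unfold Rj at hr ⊢
  rw [mem_filter] at hr ⊢
  obtain ⟨h1, c, h2, h3, h4⟩ := hr
  refine ⟨h1, c, h2, h3, h4.trans ?_⟩
  exact_mod_cast acl_mono A (Wp w) c (Nat.mul_le_mul_right L h)

lemma adm_block (A : Set ℕ) (w L : ℕ) (T : ℝ) (j : ℕ) (hL : 0 < L) (hWL : Wp w ∣ L) :
    Adm (Wp w) L (Rj A w L T j) (Cj A w L T j) := by
  classical
  refine ⟨filter_subset _ _, filter_subset _ _, ?_⟩
  intro c hc u hu
  unfold Cj at hc
  unfold Rj
  rw [mem_filter] at hc ⊢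
  refine ⟨mem_range.2 (Nat.mod_lt _ hL), c % Wp w, Nat.mod_lt _ (Wp_pos w), ?_, hc.2.2⟩
  have hlt := Nat.mod_lt c (Wp_pos w)
  have h1 : ((c + u) % L % Wp w + Wp w - c % Wp w) ≡ u [MOD Wp w] := by
    apply Nat.ModEq.add_right_cancel (Nat.mod_modEq c (Wp w))
    have h3 : (c + u) % L % Wp w + Wp w - c % Wp w + c % Wp w = (c + u) % L % Wp w + Wp w := by
      omega
    rw [h3, Nat.mod_mod_of_dvd _ hWL]
    have h4 : (c + u) % Wp w + Wp w ≡ c + u [MOD Wp w] := by
      have h5 : (c + u) % Wp w + Wp w ≡ (c + u) % Wp w [MOD Wp w] := by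
        unfold Nat.ModEq
        rw [Nat.add_mod_right]
      exact h5.trans (Nat.mod_modEq _ _)
    rw [add_comm u c]
    exact h4
  have h2 := h1.gcd_eq
  unfold Nat.Coprime at hu ⊢
  rw [h2, hu]

open Classical in
lemma block_lower (A : Set ℕ) (w L : ℕ) (T ε : ℝ) (j : ℕ) (hε : 0 < ε) (hL : 0 < L)
    (hWL : Wp w ∣ L)
    (H : ∀ t : ℕ, t < Wp w → (∃ c, c < Wp w ∧ (t + Wp w - c).Coprime (Wp w) ∧
      T ≤ (acl A (Wp w) c (j * L) : ℝ)) → (1 - 2 * ε) * ((L : ℝ) / Wp w) ≤
      (((range L).filter (fun r => j * L + r ∈ plusPrimes A ∧ r % Wp w = t)).card : ℝ)) :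
    (1 - 2 * ε) * (SS L w (Rj A w L T j) (Cj A w L T j)).card - w ≤
      (((range L).filter (fun r => j * L + r ∈ plusPrimes A)).card : ℝ) := by
  obtain ⟨R, hR⟩ : ∃ R : Finset ℕ, R = Rj A w L T j := ⟨_, rfl⟩
  obtain ⟨Hs, hHs⟩ : ∃ Hs : Finset ℕ, Hs = (range L).filter (fun r => j * L + r ∈ plusPrimes A) :=
    ⟨_, rfl⟩
  obtain ⟨W, hW⟩ : ∃ W : ℕ, W = Wp w := ⟨_, rfl⟩
  have hWpos : 0 < W := by rw [hW]; exact Wp_pos w
  have hWR : (0 : ℝ) < W := by exact_mod_cast hWpos
  obtain ⟨q, hq⟩ := hWL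
  rw [← hW] at hq
  obtain ⟨Rt, hRt⟩ : ∃ Rt : Finset ℕ, Rt = (range W).filter (fun t => ∃ c, c < Wp w ∧
    (t + Wp w - c).Coprime (Wp w) ∧ T ≤ (acl A (Wp w) c (j * L) : ℝ)) := ⟨_, rfl⟩
  have hmemR : ∀ r, r ∈ R ↔ r < L ∧ r % W ∈ Rt := by
    intro r
    rw [hR, hRt]
    unfold Rj
    rw [mem_filter, mem_filter, mem_range, mem_range, hW]
    constructor
    · rintro ⟨h1, h2⟩
      exact ⟨h1, Nat.mod_lt _ (Wp_pos w), h2⟩
    · rintro ⟨h1, _, h2⟩
      exact ⟨h1, h2⟩
  have hRcard : R.card = q * Rt.card := by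
    have h1 := card_blocks W hWpos (fun _ => Rt) (fun _ => by rw [hRt]; exact filter_subset _ _) q
    rw [sum_const, card_range, smul_eq_mul] at h1
    rw [← h1]
    congr 1
    ext r
    rw [hmemR, mem_filter, mem_range, hq, mul_comm W q]
  have hLq : (L : ℝ) / W = q := by
    rw [hq]
    push_cast
    field_simp
  -- the ready part
  have h1 : (1 - 2 * ε) * R.card ≤ ((Hs.filter (fun r => r ∈ R)).card : ℝ) := by
    have h2 : (Hs.filter (fun r => r ∈ R)).card =
        ∑ t ∈ Rt, ((Hs.filter (fun r => r ∈ R)).filter (fun r => r % W = t)).card := by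
      apply card_eq_sum_card_fiberwise
      intro r hr
      rw [mem_coe, mem_filter] at hr
      exact ((hmemR r).1 hr.2).2
    rw [h2, hRcard]
    push_cast
    have h3 : (1 - 2 * ε) * ((q : ℝ) * Rt.card) = ∑ t ∈ Rt, (1 - 2 * ε) * (q : ℝ) := by
      rw [sum_const, nsmul_eq_mul]
      ring
    rw [h3]
    apply sum_le_sum
    intro t ht
    have ht' := ht
    rw [hRt, mem_filter, mem_range] at ht'
    have h4 := H t (by rw [← hW]; exact ht'.1) ht'.2
    rw [← hW, hLq] at h4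
    refine h4.trans ?_
    have h5 : ((range L).filter (fun r => j * L + r ∈ plusPrimes A ∧ r % W = t)).card ≤
        ((Hs.filter (fun r => r ∈ R)).filter (fun r => r % W = t)).card := by
      apply card_le_card
      intro r hr
      rw [mem_filter, mem_range] at hr
      rw [mem_filter, mem_filter, hHs, mem_filter, mem_range, hmemR]
      refine ⟨⟨⟨hr.1, hr.2.1⟩, hr.1, ?_⟩, hr.2.2⟩
      rw [hr.2.2]
      exact ht
    exact_mod_cast h5
  -- the part from the small primes
  have h2 : (SS L w R (Cj A w L T j) \ R).card ≤ (Hs.filter (fun r => ¬ r ∈ R)).card + w := by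
    have h3 : SS L w R (Cj A w L T j) \ R ⊆ Hs.filter (fun r => ¬ r ∈ R) ∪ range w := by
      intro r hr
      rw [Finset.mem_sdiff, mem_SS] at hr
      obtain ⟨h4 | ⟨c, hc, p, hp, hpw, hcp⟩, h5⟩ := hr
      · exact absurd h4 h5
      · rw [mem_union]
        unfold Cj at hc
        rw [mem_filter, mem_range] at hc
        rcases lt_or_ge (c + p) L with h6 | h6
        · left
          rw [Nat.mod_eq_of_lt h6] at hcp
          rw [mem_filter, hHs, mem_filter, mem_range]
          refine ⟨⟨by omega, j * L + c, hc.2.1, p, hp, by omega⟩, h5⟩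
        · right
          rw [mem_range]
          rcases lt_or_ge (c + p - L) L with h7 | h7
          · have h8 : (c + p) % L = c + p - L := by
              rw [Nat.mod_eq_sub_mod h6, Nat.mod_eq_of_lt h7]
            omega
          · have h8 : r < L := by rw [← hcp]; exact Nat.mod_lt _ hL
            omega
    refine (card_le_card h3).trans ((card_union_le _ _).trans ?_)
    rw [card_range]
  have h3 : (SS L w R (Cj A w L T j)).card = R.card + (SS L w R (Cj A w L T j) \ R).card := by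
    have h4 : R ⊆ SS L w R (Cj A w L T j) := fun r hr => mem_SS.2 (Or.inl hr)
    have := card_sdiff_add_card_eq_card h4
    omega
  have h4 := card_filter_add_card_filter_not (s := Hs) (fun r => r ∈ R)
  rw [← hR, ← hHs, h3]
  have h2R : ((SS L w R (Cj A w L T j) \ R).card : ℝ) ≤
      ((Hs.filter (fun r => ¬ r ∈ R)).card : ℝ) + w := by exact_mod_cast h2
  have h4R : ((Hs.filter (fun r => r ∈ R)).card : ℝ) + ((Hs.filter (fun r => ¬ r ∈ R)).card : ℝ) =
      Hs.card := by exact_mod_cast h4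
  have h5 : (0 : ℝ) ≤ ((SS L w R (Cj A w L T j) \ R).card : ℝ) := Nat.cast_nonneg _
  push_cast
  nlinarith

end Pool.Agent.TH881
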