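import Mathlib
import Pool.Agent.TH881.Blk2

/-! Sums over the blocks. -/

set_option autoImplicit false

namespace Pool.Agent.TH881
open Finset Filter Topology

open Classical in
/-- the number of elements of `A` in the block `j` -/
noncomputable def blk (A : Set ℕ) (L j : ℕ) : ℕ := ((range L).filter (fun r => j * L + r ∈ A)).card

lemma bcl_le (A : Set ℕ) {W L : ℕ} (c j : ℕ) (hW : 0 < W) (hWL : W ∣ L) (hc : c < W) :
    (bcl A W L c j : ℝ) ≤ (L : ℝ) / W := by
  classical
  obtain ⟨q, hq⟩ := hWL
  have hWR : (0 : ℝ) < W := by exact_mod_cast hW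
  have hLq : (L : ℝ) / W = q := by
    rw [hq]
    push_cast
    field_simp
  rw [hLq]
  have h1 := card_blocks W hW (fun _ => {c}) (fun _ => by
    rw [singleton_subset_iff, mem_range]; exact hc) q
  rw [sum_const, card_range, smul_eq_mul, card_singleton, mul_one] at h1
  have h2 : bcl A W L c j ≤ q := by
    rw [← h1]
    unfold bcl
    apply card_le_card
    intro r hr
    rw [mem_filter, mem_range] at hr
    rw [mem_filter, mem_range, mem_singleton]
    refine ⟨?_, hr.2.2⟩
    rw [mul_comm, ← hq]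
    exact hr.1
  exact_mod_cast h2

lemma blk_eq (A : Set ℕ) (w L : ℕ) (T : ℝ) (j : ℕ) :
    (blk A L j : ℝ) = ((Cj A w L T j).card : ℝ) + ∑ c ∈ range (Wp w),
      (if T ≤ (acl A (Wp w) c (j * L) : ℝ) then (0 : ℝ) else (bcl A (Wp w) L c j : ℝ)) := by
  classical
  have h1 := card_filter_add_card_filter_not (s := (range L).filter (fun r => j * L + r ∈ A))
    (fun r => T ≤ (acl A (Wp w) (r % Wp w) (j * L) : ℝ))
  have h2 : ((range L).filter (fun r => j * L + r ∈ A)).filter
      (fun r => T ≤ (acl A (Wp w) (r % Wp w) (j * L) : ℝ)) = Cj A w L T j := by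
    unfold Cj
    rw [filter_filter]
  have h3 : (((range L).filter (fun r => j * L + r ∈ A)).filter
      (fun r => ¬ T ≤ (acl A (Wp w) (r % Wp w) (j * L) : ℝ))).card =
      ∑ c ∈ range (Wp w), (if T ≤ (acl A (Wp w) c (j * L) : ℝ) then 0 else bcl A (Wp w) L c j) := by
    rw [card_eq_sum_card_fiberwise (f := fun r => r % Wp w) (t := range (Wp w))]
    · apply sum_congr rfl
      intro c _
      split_ifs with h
      · rw [card_eq_zero, filter_eq_empty_iff]
        intro r hr hrc
        rw [mem_filter] at hr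
        apply hr.2
        rw [hrc]
        exact h
      · unfold bcl
        congr 1
        ext r
        rw [mem_filter, mem_filter, mem_filter, mem_filter]
        constructor
        · rintro ⟨⟨⟨h4, h5⟩, _⟩, h6⟩
          exact ⟨h4, h5, h6⟩
        · rintro ⟨h4, h5, h6⟩
          refine ⟨⟨⟨h4, h5⟩, ?_⟩, h6⟩
          rw [h6]
          exact h
    · intro r _
      rw [mem_coe, mem_range]
      exact Nat.mod_lt _ (Wp_pos w)
  rw [h2, h3] at h1
  unfold blk
  rw [← h1]
  push_cast
  rfl

lemma psum_le (A : Set ℕ) (w L : ℕ) (T : ℝ) (hT : 0 ≤ T) (hL : 0 < L) (hWL : Wp w ∣ L) (k : ℕ) :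
    ∑ i ∈ range k, (blk A L (i + 1) : ℝ) ≤
      ∑ i ∈ range k, ((Cj A w L T (i + 1)).card : ℝ) + (Wp w * T + L) := by
  classical
  have hW := Wp_pos w
  have hWR : (0 : ℝ) < Wp w := by exact_mod_cast hW
  have h1 : ∑ i ∈ range k, (blk A L (i + 1) : ℝ) =
      ∑ i ∈ range k, ((Cj A w L T (i + 1)).card : ℝ) + ∑ i ∈ range k, ∑ c ∈ range (Wp w),
      (if T ≤ (acl A (Wp w) c ((i + 1) * L) : ℝ) then (0 : ℝ) else (bcl A (Wp w) L c (i + 1) : ℝ)) := by
    rw [← sum_add_distrib]
    apply sum_congr rfl
    intro i _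
    exact blk_eq A w L T (i + 1)
  rw [h1, sum_comm]
  apply add_le_add le_rfl
  have h2 : ∀ c ∈ range (Wp w), ∑ i ∈ range k,
      (if T ≤ (acl A (Wp w) c ((i + 1) * L) : ℝ) then (0 : ℝ) else (bcl A (Wp w) L c (i + 1) : ℝ)) ≤
      T + (L : ℝ) / Wp w := by
    intro c hc
    have hacl : ∀ i : ℕ, (acl A (Wp w) c ((i + 1) * L) : ℝ) =
        (acl A (Wp w) c L : ℝ) + ∑ i' ∈ range i, (bcl A (Wp w) L c (i' + 1) : ℝ) := by
      intro i
      induction i with
      | zero => simp
      | succ i ih =>
        rw [sum_range_succ, ← add_assoc, ← ih, acl_succ A c hL hWL (by omega)]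
        push_cast
        rfl
    have h3 := (lost_sum (fun i => (bcl A (Wp w) L c (i + 1) : ℝ)) (acl A (Wp w) c L : ℝ) T
      ((L : ℝ) / Wp w) (fun i => Nat.cast_nonneg _)
      (fun i => bcl_le A c (i + 1) hW hWL (mem_range.1 hc)) (Nat.cast_nonneg _) hT k).1
    refine le_trans (le_of_eq ?_) h3
    apply sum_congr rfl
    intro i _
    rw [hacl]
  refine (sum_le_sum h2).trans (le_of_eq ?_)
  rw [sum_const, card_range, nsmul_eq_mul]
  field_simp

lemma blk_sum (A : Set ℕ) (L : ℕ) (hL : 0 < L) (k : ℕ) :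
    ∑ i ∈ range k, (blk A L (i + 1) : ℝ) = (cnt A ((k + 1) * L - 1) : ℝ) - cnt A (L - 1) := by
  classical
  induction k with
  | zero => simp
  | succ k ih =>
    rw [sum_range_succ, ih]
    have h1 : cnt A ((k + 1 + 1) * L - 1) = cnt A ((k + 1) * L - 1) + blk A L (k + 1) := by
      unfold cnt blk
      have hk : 1 ≤ (k + 1) * L := Nat.mul_pos (by omega) hL
      have hk2 : (k + 1 + 1) * L = (k + 1) * L + L := Nat.succ_mul (k + 1) L
      have h2 : (Icc 1 ((k + 1 + 1) * L - 1)).filter (fun a => a ∈ A) =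
          (Icc 1 ((k + 1) * L - 1)).filter (fun a => a ∈ A) ∪
          ((range L).filter (fun r => (k + 1) * L + r ∈ A)).image (fun r => (k + 1) * L + r) := by
        ext a
        rw [mem_union, mem_filter, mem_filter, mem_image, mem_Icc, mem_Icc]
        constructor
        · rintro ⟨⟨h3, h4⟩, h5⟩
          rcases lt_or_ge a ((k + 1) * L) with h6 | h6
          · left; exact ⟨⟨h3, by omega⟩, h5⟩
          · right
            refine ⟨a - (k + 1) * L, ?_, by omega⟩
            rw [mem_filter, mem_range]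
            have h7 : (k + 1) * L + (a - (k + 1) * L) = a := by omega
            rw [h7]
            exact ⟨by omega, h5⟩
        · rintro (⟨⟨h3, h4⟩, h5⟩ | ⟨r, hr, rfl⟩)
          · exact ⟨⟨h3, by omega⟩, h5⟩
          · rw [mem_filter, mem_range] at hr
            exact ⟨⟨by omega, by omega⟩, hr.2⟩
      rw [h2, card_union_of_disjoint, card_image_of_injective]
      · intro a b hab
        have : (k + 1) * L + a = (k + 1) * L + b := hab
        omega
      · rw [disjoint_left]
        intro n hn hn'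
        rw [mem_filter, mem_Icc] at hn
        rw [mem_image] at hn'
        obtain ⟨r, _, hr⟩ := hn'
        omega
    rw [h1]
    push_cast
    ring

end Pool.Agent.TH881
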