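import Mathlib
import Pool.Agent.TH881.Pre
import Pool.Agent.TH881.Cont

/-! The lower bound by the local extremal function. -/

set_option autoImplicit false

namespace Pool.Agent.TH881
open Finset Filter Topology

/-- the inequality for all blocks together -/
lemma blocks_total (A : Set ℕ) (w L K : ℕ) (T x η : ℝ) (X : ℕ) (hT : 0 ≤ T) (hL : 0 < L)
    (hwL : w ≤ L) (hWL : Wp w ∣ L) (hX : x * L = X) (hx0 : 0 ≤ x) (hx1 : x ≤ 1) (hη : 0 < η)
    (hA : ∀ k : ℕ, 1 ≤ k → k ≤ K + 1 → x * (k * L) ≤ (cnt A (k * L - 1) : ℝ)) :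
    (localMin (x - η) * L) * K - ((Wp w * T + 2 * L) / η) ≤
      ∑ i ∈ range K, ((SS L w (Rj A w L T (i + 1)) (Cj A w L T (i + 1))).card : ℝ) := by
  have hLR : (0 : ℝ) < L := by exact_mod_cast hL
  have hW : ∀ p : ℕ, p.Prime → w < p → p.Coprime (Wp w) := by
    intro p hp hpw
    rw [Nat.Prime.coprime_iff_not_dvd hp, prime_dvd_Wp hp]
    omega
  have hadm : ∀ j, Adm (Wp w) L (Rj A w L T j) (Cj A w L T j) := fun j => adm_block A w L T j hL hWL
  obtain ⟨F, hF⟩ : ∃ F : ℝ, F = localMin (x - η) * L := ⟨_, rfl⟩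
  have hF1 : F ≤ localMin x * L := by
    rw [hF]
    apply mul_le_mul_of_nonneg_right _ hLR.le
    exact localMin_mono (by linarith) hx1
  have hFL : F ≤ L := by
    have := localMin_le_one hx1
    nlinarith
  have hτ : 0 ≤ Wp w * T + 2 * L := by positivity
  have key := abel K (fun i => ((Cj A w L T (i + 1)).card : ℝ))
    (fun i => ((SS L w (Rj A w L T (i + 1)) (Cj A w L T (i + 1))).card : ℝ)) (x * L) F (η * L)
    (Wp w * T + 2 * L) L (by positivity) hτ hLR.le (by
      intro j _ hj
      rw [hF]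
      apply le_card_SS hL hW (hadm _)
      have : (x - η) * L = x * L - η * L := by ring
      rw [this]
      exact hj) (by
      intro i j hij _ hi hj
      have h1 := two_chords hL hwL hW (Rj_mono A w L T (show i + 1 ≤ j + 1 by omega))
        (hadm (i + 1)) (hadm (j + 1)) x X hX (by
          have h2 : (X : ℝ) < ((Cj A w L T (i + 1)).card : ℝ) := by rw [← hX]; exact hi
          have : X < (Cj A w L T (i + 1)).card := by exact_mod_cast h2
          omega) (by
          have h2 : ((Cj A w L T (j + 1)).card : ℝ) < (X : ℝ) := by rw [← hX]; exact hj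
          have : (Cj A w L T (j + 1)).card < X := by exact_mod_cast h2
          omega)
      rw [hX] at hi hj ⊢
      have h2 : (0 : ℝ) ≤ (X : ℝ) - (Cj A w L T (j + 1)).card := by linarith
      have h3 : (0 : ℝ) ≤ ((Cj A w L T (i + 1)).card : ℝ) - X := by linarith
      have h4 : 0 ≤ localMin x * L - F := by linarith
      nlinarith [mul_nonneg h4 h2, mul_nonneg h4 h3]) (by
      intro j _
      have : (0 : ℝ) ≤ ((SS L w (Rj A w L T (j + 1)) (Cj A w L T (j + 1))).card : ℝ) :=
        Nat.cast_nonneg _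
      linarith) (by
      intro k hk
      have h1 := psum_le A w L T hT hL hWL k
      rw [blk_sum A L hL k] at h1
      have h2 := hA (k + 1) (by omega) (by omega)
      have h3 : (cnt A (L - 1) : ℝ) ≤ L := by
        have h4 := cnt_le A (L - 1)
        have h5 : cnt A (L - 1) ≤ L := by omega
        exact_mod_cast h5
      rw [sum_sub_distrib, sum_const, card_range, nsmul_eq_mul]
      push_cast at h2
      have h6 : 0 ≤ x * L := by positivity
      nlinarith)
  rw [sum_sub_distrib, sum_const, card_range, nsmul_eq_mul] at key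
  have h1 : (L : ℝ) / (η * L) * (Wp w * T + 2 * L) = (Wp w * T + 2 * L) / η := by
    field_simp
  rw [h1] at key
  rw [← hF]
  linarith

open Classical in
/-- counting sums in the blocks -/
lemma cnt_ge_blocks (B : Set ℕ) (L K n : ℕ) (hL : 0 < L) (hn : (K + 1) * L ≤ n) :
    ∑ i ∈ range K, (((range L).filter (fun r => (i + 1) * L + r ∈ B)).card : ℝ) ≤ cnt B n := by
  have h1 := blk_sum B L hL K
  unfold blk at h1
  have h2 : (cnt B ((K + 1) * L - 1) : ℝ) ≤ cnt B n := by
    exact_mod_cast cnt_mono B (by omega)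
  have h3 : (0 : ℝ) ≤ cnt B (L - 1) := Nat.cast_nonneg _
  have h4 : ∑ i ∈ range K, (((range L).filter (fun r => (i + 1) * L + r ∈ B)).card : ℝ) =
      (cnt B ((K + 1) * L - 1) : ℝ) - cnt B (L - 1) := by
    rw [← h1]
  linarith

end Pool.Agent.TH881
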