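import Mathlib
import Pool.Agent.TH881.Main

/-! The local formula for `f*`. -/

set_option autoImplicit false

namespace Pool.Agent.TH881
open Finset Filter Topology

lemma exists_w (δ ε : ℝ) (hδ : 0 < δ) (hε : 0 < ε) :
    ∃ w : ℕ, 1 ≤ w ∧ (2 * Real.exp 2 / δ) ^ (1 / (w : ℝ)) ≤ 1 + ε := by
  have hc : 0 < 2 * Real.exp 2 / δ := by positivity
  have h1 : Tendsto (fun w : ℕ => (2 * Real.exp 2 / δ) ^ (1 / (w : ℝ))) atTop
      (𝓝 ((2 * Real.exp 2 / δ) ^ (0 : ℝ))) :=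
    (Real.continuousAt_const_rpow hc.ne').tendsto.comp
      (tendsto_one_div_atTop_nhds_zero_nat (𝕜 := ℝ))
  rw [Real.rpow_zero] at h1
  have h2 := h1.eventually (eventually_le_nhds (show (1 : ℝ) < 1 + ε by linarith))
  obtain ⟨w, h3, h4⟩ := (h2.and (eventually_ge_atTop 1)).exists
  exact ⟨w, h4, h3⟩

lemma final_ineq (ε F η δ n K1 L S E : ℝ) (hε : 0 < ε) (hε1 : ε < 1 / 2) (hη : 0 < η)
    (hF0 : 0 ≤ F) (hF1 : F ≤ 1) (hδ : δ ≤ ε * η) (hK1 : 2 / (ε * η) ≤ K1) (hK2 : 1 / ε ≤ K1)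
    (hL : 0 ≤ L) (hKL : K1 * L ≤ n) (hKL2 : n - ε * n / 2 ≤ K1 * L) (hE : E ≤ ε * n / 2)
    (hn : 0 ≤ n)
    (hS : (1 - 2 * ε) * (F * L * (K1 - 1) - (δ * K1 * L + 2 * L) / η) - E ≤ S) (hS0 : 0 ≤ S) :
    (F - 6 * ε) * n ≤ S := by
  have hεη : 0 < ε * η := mul_pos hε hη
  have hK10 : 0 < K1 := lt_of_lt_of_le (by positivity) hK1
  have h1 : (δ * K1 * L + 2 * L) / η ≤ 2 * ε * (K1 * L) := by
    rw [div_le_iff₀ hη]
    rw [div_le_iff₀ hεη] at hK1
    have h2 : 0 ≤ K1 * L := by positivity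
    have h3 : δ * (K1 * L) ≤ ε * η * (K1 * L) := mul_le_mul_of_nonneg_right hδ h2
    have h4 : 2 * L ≤ K1 * (ε * η) * L := mul_le_mul_of_nonneg_right hK1 hL
    nlinarith
  have h2 : L ≤ ε * (K1 * L) := by
    rw [div_le_iff₀ hε] at hK2
    nlinarith
  obtain ⟨Y, hY⟩ : ∃ Y : ℝ, Y = K1 * L := ⟨_, rfl⟩
  have hY0 : 0 ≤ Y := by rw [hY]; positivity
  rw [← hY] at h1 h2 hKL hKL2
  have h3 : F * L * (K1 - 1) = F * Y - F * L := by rw [hY]; ring
  have h4 : F * L ≤ ε * Y := by nlinarith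
  have h5 : (F - 3 * ε) * Y ≤ F * L * (K1 - 1) - (δ * K1 * L + 2 * L) / η := by
    rw [h3]
    nlinarith
  have h6 : (1 - 2 * ε) * ((F - 3 * ε) * Y) ≤
      (1 - 2 * ε) * (F * L * (K1 - 1) - (δ * K1 * L + 2 * L) / η) :=
    mul_le_mul_of_nonneg_left h5 (by linarith)
  have h7 : (F - 5 * ε) * Y ≤ (1 - 2 * ε) * ((F - 3 * ε) * Y) := by
    have h8 : 0 ≤ (6 * ε ^ 2 + 2 * ε * (1 - F)) * Y := by
      apply mul_nonneg _ hY0
      have : 0 ≤ 1 - F := by linarith
      positivity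
    nlinarith
  rcases le_or_gt (F - 5 * ε) 0 with h8 | h8
  · have : (F - 6 * ε) * n ≤ 0 := mul_nonpos_of_nonpos_of_nonneg (by linarith) hn
    linarith
  · have h9 : (F - 5 * ε) * (n - ε * n / 2) ≤ (F - 5 * ε) * Y :=
      mul_le_mul_of_nonneg_left hKL2 h8.le
    have h10 : (F - 5 * ε) * (ε * n / 2) ≤ ε * n / 2 := by
      have : 0 ≤ ε * n / 2 := by positivity
      nlinarith
    nlinarith

lemma main_lower (A : Set ℕ) (u v : ℕ) (hv : 0 < v) (x η : ℝ) (hx : x * v = u) (hx0 : 0 < x)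
    (hx1 : x ≤ 1) (hη : 0 < η) (hA : x < lowerDensity A) :
    localMin (x - η) ≤ lowerDensity (plusPrimes A) := by
  classical
  have hlim : ∀ ε : ℝ, 0 < ε → ε < 1 / 2 → localMin (x - η) - 6 * ε ≤ lowerDensity (plusPrimes A) := by
    intro ε hε hε1
    obtain ⟨δ, hδ⟩ : ∃ δ : ℝ, δ = min 1 (ε * η) := ⟨_, rfl⟩
    have hδ0 : 0 < δ := by rw [hδ]; exact lt_min one_pos (mul_pos hε hη)
    have hδ1 : δ ≤ 1 := by rw [hδ]; exact min_le_left _ _
    have hδ2 : δ ≤ ε * η := by rw [hδ]; exact min_le_right _ _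
    obtain ⟨w, hw, hwδ⟩ := exists_w δ ε hδ0 hε
    obtain ⟨K, hK⟩ := exists_nat_ge (2 / (ε * η) + 1 / ε)
    have hpos1 : 0 < 2 / (ε * η) := by positivity
    have hpos2 : 0 < 1 / ε := by positivity
    obtain ⟨L0, hL0⟩ := window_W w hw ε δ hε (by linarith) hδ0 hδ1 hwδ (K + 1) (by omega)
    obtain ⟨x', hx'1, hx'2⟩ := exists_between hA
    obtain ⟨n1, hn1⟩ := eventually_atTop.1 (eventually_of_lt hx'2)
    obtain ⟨n2, hn2⟩ := exists_nat_ge (x' / (x' - x))
    have hWpos := Wp_pos w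
    obtain ⟨W, hW⟩ : ∃ W : ℕ, W = Wp w := ⟨_, rfl⟩
    have hWpos' : 0 < W := by rw [hW]; exact hWpos
    obtain ⟨m0, hm0⟩ : ∃ m0 : ℕ, m0 = (K + 1) * (W * v) := ⟨_, rfl⟩
    have hm0pos : 0 < m0 := by rw [hm0]; exact Nat.mul_pos (by omega) (Nat.mul_pos hWpos' hv)
    obtain ⟨n3, hn3⟩ := exists_nat_ge (2 * ((m0 : ℝ) + K * w) / ε)
    apply le_of_eventually
    filter_upwards [eventually_ge_atTop (m0 * (L0 + n1 + n2 + w + 2) + n3)] with n hn
    obtain ⟨q, hq⟩ : ∃ q : ℕ, q = n / m0 := ⟨_, rfl⟩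
    have hq1 : L0 + n1 + n2 + w + 2 ≤ q := by
      rw [hq, Nat.le_div_iff_mul_le hm0pos]
      linarith [Nat.mul_comm m0 (L0 + n1 + n2 + w + 2)]
    obtain ⟨L, hL⟩ : ∃ L : ℕ, L = W * v * q := ⟨_, rfl⟩
    have hqL : q ≤ L := by
      rw [hL]
      exact Nat.le_mul_of_pos_left q (Nat.mul_pos hWpos' hv)
    have hLpos : 0 < L := by omega
    have hWL : Wp w ∣ L := by
      rw [← hW, hL]
      exact Dvd.intro (v * q) (by ring)
    have hKLn : (K + 1) * L ≤ n := by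
      have : (K + 1) * L = m0 * q := by rw [hL, hm0]; ring
      rw [this, hq]
      exact Nat.mul_div_le n m0
    have hKLn2 : n < (K + 1) * L + m0 := by
      have h1 : (K + 1) * L = m0 * q := by rw [hL, hm0]; ring
      have h2 := Nat.lt_div_mul_add (a := n) (b := m0) hm0pos
      rw [← hq] at h2
      rw [h1]
      linarith [Nat.mul_comm q m0]
    have hX : x * L = ((u * W * q : ℕ) : ℝ) := by
      rw [hL]
      push_cast
      rw [← hx]
      ring
    have hLR : (0 : ℝ) < L := by exact_mod_cast hLpos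
    have hWR : (0 : ℝ) < W := by exact_mod_cast hWpos'
    have hT0 : 0 ≤ δ * (((K + 1 : ℕ) : ℝ) * L / Wp w) := by positivity
    have h1 := blocks_total A w L K (δ * (((K + 1 : ℕ) : ℝ) * L / Wp w)) x η (u * W * q) hT0 hLpos
      (by omega) hWL hX hx0.le hx1 hη (by
      intro k hk _
      have hkL : L ≤ k * L := Nat.le_mul_of_pos_left L (by omega)
      have h2 := hn1 (k * L - 1) (by omega)
      refine le_trans ?_ h2
      rw [Nat.cast_sub (by omega)]
      push_cast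
      have h3 : (n2 : ℝ) ≤ k * L := by
        have : n2 ≤ k * L := by omega
        exact_mod_cast this
      have h4 : x' / (x' - x) ≤ k * L := hn2.trans h3
      rw [div_le_iff₀ (by linarith)] at h4
      linarith)
    have h2 : ∀ i ∈ range K, (1 - 2 * ε) * ((SS L w
        (Rj A w L (δ * (((K + 1 : ℕ) : ℝ) * L / Wp w)) (i + 1))
        (Cj A w L (δ * (((K + 1 : ℕ) : ℝ) * L / Wp w)) (i + 1))).card : ℝ) - w ≤
        (((range L).filter (fun r => (i + 1) * L + r ∈ plusPrimes A)).card : ℝ) := by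
      intro i hi
      rw [mem_range] at hi
      apply block_lower A w L _ ε (i + 1) hε hLpos hWL
      intro t ht hex
      exact hL0 L (by omega) hWL A (i + 1) (by omega) (by omega) t ht hex
    have h3 := sum_le_sum h2
    rw [sum_sub_distrib, ← mul_sum, sum_const, card_range, nsmul_eq_mul] at h3
    have h4 := cnt_ge_blocks (plusPrimes A) L K n hLpos hKLn
    have h5 : (Wp w : ℝ) * (δ * (((K + 1 : ℕ) : ℝ) * L / Wp w)) = δ * ((K + 1 : ℕ) : ℝ) * L := by
      rw [← hW]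
      field_simp
    rw [h5] at h1
    have hnR : (n : ℝ) < ((K + 1 : ℕ) : ℝ) * L + m0 := by exact_mod_cast hKLn2
    have hnR2 : ((K + 1 : ℕ) : ℝ) * L ≤ n := by exact_mod_cast hKLn
    have hn3n : (n3 : ℝ) ≤ n := by
      have : n3 ≤ n := by omega
      exact_mod_cast this
    have h6 : 2 * ((m0 : ℝ) + K * w) / ε ≤ n := hn3.trans hn3n
    rw [div_le_iff₀ hε] at h6
    have hKw : (0 : ℝ) ≤ K * w := by positivity
    have hm0R : (0 : ℝ) ≤ m0 := Nat.cast_nonneg _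
    apply final_ineq ε (localMin (x - η)) η δ n ((K + 1 : ℕ) : ℝ) L _ (K * w) hε hε1 hη
      (localMin_nonneg _) (localMin_le_one (by linarith)) hδ2 (by push_cast; linarith)
      (by push_cast; linarith) hLR.le hnR2 (by linarith) (by linarith) (Nat.cast_nonneg n) _
      (Nat.cast_nonneg _)
    refine le_trans ?_ h4
    refine le_trans ?_ h3
    have h7 : (0 : ℝ) ≤ 1 - 2 * ε := by linarith
    have h8 := mul_le_mul_of_nonneg_left h1 h7
    have h9 : ((K + 1 : ℕ) : ℝ) - 1 = K := by push_cast; ring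
    rw [h9]
    linarith
  apply le_of_forall_pos_le_add
  intro e he
  have h1 := hlim (min (e / 6) (1 / 4)) (lt_min (by linarith) (by norm_num))
    (lt_of_le_of_lt (min_le_right _ _) (by norm_num))
  have h2 : min (e / 6) (1 / 4) ≤ e / 6 := min_le_left _ _
  linarith

/-- the local lower bound -/
lemma localMin_le_lowerDensity (A : Set ℕ) {x : ℝ} (hx0 : 0 < x) (hx1 : x < 1)
    (hA : lowerDensity A = x) : localMin x ≤ lowerDensity (plusPrimes A) := by
  apply le_of_forall_pos_le_add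
  intro ε hε
  obtain ⟨z0, hz00, hz0x, hz0⟩ := localMin_left hx0 hx1 hε
  obtain ⟨r, hr1, hr2⟩ := exists_rat_btwn hz0x
  have hr0 : (0 : ℝ) < r := lt_trans hz00 hr1
  have hr0' : (0 : ℚ) < r := by exact_mod_cast hr0
  have h1 := main_lower A r.num.toNat r.den r.den_pos (r : ℝ) ((r : ℝ) - z0) (by
    have h2 : (r : ℝ) * r.den = r.num := by
      have h3 := Rat.mul_den_eq_num r
      exact_mod_cast h3
    rw [h2]
    have h3 : ((r.num.toNat : ℕ) : ℤ) = r.num := Int.toNat_of_nonneg (Rat.num_pos.2 hr0').le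
    have h4 : ((r.num.toNat : ℕ) : ℝ) = (((r.num.toNat : ℕ) : ℤ) : ℝ) := by push_cast; rfl
    rw [h4, h3]) hr0 (by linarith) (by linarith) (by rw [hA]; exact hr2)
  have h2 : (r : ℝ) - ((r : ℝ) - z0) = z0 := by ring
  rw [h2] at h1
  have h3 := hz0 z0 le_rfl (by linarith)
  linarith

/-- the local formula for `f*` -/
theorem fstar_eq_localMin {x : ℝ} (hx0 : 0 < x) (hx1 : x < 1) : fstar x = localMin x := by
  apply le_antisymm (fstar_le_localMin hx0 hx1.le)
  apply le_fstar hx0.le hx1.le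
  intro A _ hAx
  exact localMin_le_lowerDensity A hx0 hx1 hAx

end Pool.Agent.TH881
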