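import Mathlib
import Pool.Agent.TH881.Main2

/-! Duality for `f*`. -/

set_option autoImplicit false

namespace Pool.Agent.TH881
open Finset Filter Topology

lemma le_localMin {x : ℝ} (hx0 : 0 < x) (hx1 : x < 1) : x ≤ localMin x := by
  apply le_csInf (localMin_ne hx1.le)
  rintro r ⟨W, hW, C, hC, rfl⟩
  have hWR : (0 : ℝ) < W := by exact_mod_cast hW
  have : NeZero W := ⟨hW.ne'⟩
  rw [le_div_iff₀ hWR]
  refine hC.trans ?_
  have h1 : C.card ≤ (plusClasses W C).ncard := by
    rw [← Set.ncard_coe_finset C]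
    apply Set.ncard_le_ncard_of_injOn (fun c => c + ((2 : ℕ) : ZMod W))
    · intro c hc
      exact ⟨c, hc, 2, Nat.prime_two, rfl⟩
    · intro a _ b _ hab
      exact add_right_cancel hab
  exact_mod_cast h1

lemma dual_le {x : ℝ} (hx0 : 0 < x) (hx1 : x < 1) (h1 : localMin x < 1) :
    localMin (1 - localMin x) ≤ 1 - x := by
  classical
  have hpos : 0 < localMin x := lt_of_lt_of_le hx0 (le_localMin hx0 hx1)
  -- every smaller density
  have hsmall : ∀ z : ℝ, 0 < z → z < 1 - localMin x → localMin z ≤ 1 - x := by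
    intro z hz0 hz
    obtain ⟨r, ⟨W, hW, C, hC, rfl⟩, hr⟩ := exists_lt_of_csInf_lt (localMin_ne hx1.le)
      (show sInf {r | ∃ W : ℕ, 0 < W ∧ ∃ C : Finset (ZMod W), x * W ≤ C.card ∧
        r = ((plusClasses W C).ncard : ℝ) / W} < 1 - z by
        have : localMin x < 1 - z := by linarith
        exact this)
    have hWR : (0 : ℝ) < W := by exact_mod_cast hW
    have : NeZero W := ⟨hW.ne'⟩
    obtain ⟨S, hS⟩ : ∃ S : Finset (ZMod W), S = (plusClasses W C).toFinite.toFinset := ⟨_, rfl⟩
    have hmemS : ∀ n, n ∈ S ↔ n ∈ plusClasses W C := by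
      intro n
      rw [hS, Set.Finite.mem_toFinset]
    have hScard : (plusClasses W C).ncard = S.card := by
      rw [hS, ← Set.ncard_eq_toFinset_card]
    rw [hScard, div_lt_iff₀ hWR] at hr
    have h2 := localMin_le_card (x := z) hW (Sᶜ.image (fun b => -b)) ((C.image (fun c => -c))ᶜ) (by
      intro b hb p hp
      rw [mem_image] at hb
      obtain ⟨b, hb, rfl⟩ := hb
      rw [mem_compl] at hb ⊢
      intro h3
      apply hb
      rw [mem_image] at h3
      obtain ⟨c, hc, hcb⟩ := h3
      rw [hmemS]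
      refine ⟨c, hc, p, hp, ?_⟩
      have h4 : c = b - (p : ZMod W) := by
        have : -c = -b + (p : ZMod W) := hcb
        have h5 : c = -(-b + (p : ZMod W)) := by rw [← this, neg_neg]
        rw [h5]
        ring
      rw [h4]
      ring) (by
      rw [card_image_of_injective _ neg_injective, card_compl, ZMod.card, Nat.cast_sub (by
        have := card_le_univ S
        rwa [ZMod.card] at this)]
      linarith)
    refine h2.trans ?_
    rw [div_le_iff₀ hWR, card_compl, ZMod.card, card_image_of_injective _ neg_injective,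
      Nat.cast_sub (by
        have := card_le_univ C
        rwa [ZMod.card] at this)]
    linarith
  apply le_of_forall_pos_le_add
  intro ε hε
  obtain ⟨z0, hz00, hz0x, hz0⟩ := localMin_left (show 0 < 1 - localMin x by linarith)
    (show 1 - localMin x < 1 by linarith) hε
  have h2 := hz0 z0 le_rfl (by linarith)
  have h3 := hsmall z0 hz00 hz0x
  linarith

/-- right continuity -/
lemma localMin_right {x ε : ℝ} (hx0 : 0 < x) (hx1 : x < 1) (hε : 0 < ε) :
    ∃ z0 : ℝ, x < z0 ∧ z0 < 1 ∧ ∀ z, z ≤ z0 → localMin z ≤ localMin x + ε := by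
  obtain ⟨M, hM, P, hP, hPε⟩ := exists_thin hε
  have hMR : (1 : ℝ) ≤ M := by exact_mod_cast hM
  have h1 := localMin_add hM P hP hx1.le
  have h2 : 0 < (1 - x) / (2 * M) := by
    have : 0 < 1 - x := by linarith
    positivity
  have h3 : (1 - x) / (2 * M) < 1 - x := by
    rw [div_lt_iff₀ (by linarith)]
    nlinarith
  refine ⟨x + (1 - x) / (2 * M), by linarith, by linarith, ?_⟩
  intro z hz
  have h4 : (1 - x) / (2 * M) ≤ (1 - x) / M := by
    apply div_le_div_of_nonneg_left (by linarith) (by linarith) (by linarith)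
  have h5 : (1 - x) / M ≤ 1 - x := div_le_self (by linarith) hMR
  have h6 := localMin_mono (show z ≤ x + (1 - x) / M by linarith) (by linarith)
  linarith

lemma localMin_continuousOn : ContinuousOn localMin (Set.Ioo 0 1) := by
  intro x hx
  apply ContinuousAt.continuousWithinAt
  rw [Metric.continuousAt_iff]
  intro ε hε
  obtain ⟨z0, hz00, hz0x, hz0⟩ := localMin_left hx.1 hx.2 (half_pos hε)
  obtain ⟨z1, hz1x, hz11, hz1⟩ := localMin_right hx.1 hx.2 (half_pos hε)
  refine ⟨min (x - z0) (z1 - x), lt_min (by linarith) (by linarith), ?_⟩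
  intro z hz
  rw [Real.dist_eq] at hz ⊢
  have h1 := lt_of_lt_of_le hz (min_le_left _ _)
  have h2 := lt_of_lt_of_le hz (min_le_right _ _)
  rw [abs_lt] at h1 h2
  have h3 := hz0 z (by linarith [h1.1]) (by linarith [h2.2])
  have h4 := hz1 z (by linarith [h2.2])
  rw [abs_lt]
  constructor <;> linarith

lemma exists_localMin_lt {ε : ℝ} (hε : 0 < ε) : ∃ x : ℝ, 0 < x ∧ x < ε ∧ localMin x < ε := by
  obtain ⟨M, hM, P, hP, hPε⟩ := exists_thin (half_pos hε)
  have hMR : (0 : ℝ) < M := by exact_mod_cast hM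
  have h1 := localMin_le_card (x := 1 / M) hM {0} P (by
    intro c hc p hp
    rw [mem_singleton] at hc
    rw [hc, zero_add]
    exact hP p hp) (by rw [card_singleton]; push_cast; field_simp; exact le_rfl)
  have h3 : (1 : ℝ) ≤ M := by exact_mod_cast hM
  refine ⟨min (1 / M) (ε / 2), lt_min (by positivity) (by linarith), ?_, ?_⟩
  · exact lt_of_le_of_lt (min_le_right _ _) (by linarith)
  · have h2 := localMin_mono (min_le_left (1 / (M : ℝ)) (ε / 2)) (by
      rw [div_le_one hMR]; exact h3)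
    linarith

lemma localMin_lt_one {x : ℝ} (hx0 : 0 < x) (hx1 : x < 1) : localMin x < 1 := by
  rw [← fstar_eq_localMin hx0 hx1]
  have h2 := fstar_gap hx0 hx1
  have h3 : 0 < 1 / (16 : ℝ) ^ (wu (1 - x)) := by positivity
  linarith

/-- surjectivity -/
lemma exists_localMin_eq {y : ℝ} (hy0 : 0 < y) (hy1 : y < 1) :
    ∃ x : ℝ, 0 < x ∧ x < 1 ∧ localMin x = y := by
  obtain ⟨a, ha0, hay, ha⟩ := exists_localMin_lt hy0
  have ha1 : a < 1 := by linarith
  obtain ⟨b, hb1, hb2⟩ := exists_between hy1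
  have hab : a ≤ b := by linarith
  have hcont : ContinuousOn localMin (Set.Icc a b) := by
    apply localMin_continuousOn.mono
    intro z hz
    exact ⟨lt_of_lt_of_le ha0 hz.1, lt_of_le_of_lt hz.2 hb2⟩
  have h1 := intermediate_value_Icc hab hcont
  have h2 : y ∈ Set.Icc (localMin a) (localMin b) :=
    ⟨ha.le, hb1.le.trans (le_localMin (by linarith) hb2)⟩
  obtain ⟨x, hx, hxy⟩ := h1 h2
  exact ⟨x, lt_of_lt_of_le ha0 hx.1, lt_of_le_of_lt hx.2 hb2, hxy⟩

/-- duality -/
theorem localMin_dual {x : ℝ} (hx0 : 0 < x) (hx1 : x < 1) :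
    localMin (1 - localMin x) = 1 - x := by
  -- the reflected function is an involution on its image, which is everything
  have hrange : ∀ z : ℝ, 0 < z → z < 1 → 0 < 1 - localMin z ∧ 1 - localMin z < 1 := by
    intro z hz0 hz1
    have h1 := localMin_lt_one hz0 hz1
    have h2 := le_localMin hz0 hz1
    exact ⟨by linarith, by linarith⟩
  obtain ⟨z, hz0, hz1, hz⟩ := exists_localMin_eq (show 0 < 1 - x by linarith)
    (show 1 - x < 1 by linarith)
  have hxz : x = 1 - localMin z := by linarith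
  -- `h x = h (h z)`, and `h (h z) ≥ z`
  have h1 := dual_le hz0 hz1 (localMin_lt_one hz0 hz1)
  rw [← hxz] at h1
  -- `h (h x) ≥ x`
  have h2 := dual_le hx0 hx1 (localMin_lt_one hx0 hx1)
  apply le_antisymm h2
  -- `h x ≥ z`, so `h (h x) ≤ h z = x`
  have h3 : z ≤ 1 - localMin x := by linarith
  have h4 := localMin_mono h3 (hrange x hx0 hx1).2.le
  linarith

/-- the reflected optimal function is a strictly decreasing involution of `(0, 1)` -/
theorem fstar_dual : StrictAntiOn (fun x => 1 - fstar x) (Set.Ioo 0 1) ∧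
    ∀ x ∈ Set.Ioo (0 : ℝ) 1, 1 - fstar x ∈ Set.Ioo (0 : ℝ) 1 ∧ 1 - fstar (1 - fstar x) = x := by
  have hrange : ∀ x ∈ Set.Ioo (0 : ℝ) 1, 1 - fstar x ∈ Set.Ioo (0 : ℝ) 1 := by
    intro x hx
    rw [fstar_eq_localMin hx.1 hx.2]
    have h1 := localMin_lt_one hx.1 hx.2
    have h2 := le_localMin hx.1 hx.2
    have h3 := hx.1
    exact ⟨by linarith, by linarith⟩
  have hinv : ∀ x ∈ Set.Ioo (0 : ℝ) 1, 1 - fstar (1 - fstar x) = x := by
    intro x hx
    have h1 := hrange x hx
    rw [fstar_eq_localMin h1.1 h1.2, fstar_eq_localMin hx.1 hx.2, localMin_dual hx.1 hx.2]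
    ring
  refine ⟨?_, fun x hx => ⟨hrange x hx, hinv x hx⟩⟩
  intro x hx y hy hxy
  have h1 : fstar x ≤ fstar y := by
    rw [fstar_eq_localMin hx.1 hx.2, fstar_eq_localMin hy.1 hy.2]
    exact localMin_mono hxy.le hy.2.le
  rcases eq_or_lt_of_le h1 with h2 | h2
  · exfalso
    have h3 := hinv x hx
    rw [h2, hinv y hy] at h3
    linarith
  · have h3 : 1 - fstar y < 1 - fstar x := by linarith
    exact h3

end Pool.Agent.TH881
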